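import Pool.Agent.Work.MP_e120ef_ag.H.Val
import Pool.Agent.Work.MP_e120ef_ag.H.Gauss
import Pool.Agent.Work.MP_e120ef_ag.Br.C1
import Pool.Agent.Work.MP_e120ef_ag.H.RatG

attribute [-instance] Subalgebra.normedCommRing Subalgebra.seminormedCommRing
  Subalgebra.seminormedRing Subalgebra.normedRing
  Localization.subalgebra.instIsFractionRingSubtypeMemSubalgebra
attribute [local instance 2000] RingHomClass.toAddMonoidHomClass AddMonoidHomClass.toAddHomClass
  RingHom.instRingHomClass AlgHomClass.toRingHomClass IsDomain.to_noZeroDivisors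
  IsDomain.toNontrivial NeZero.one RingHomClass.toMonoidHomClass MonoidHomClass.toMulHomClass
  RingHomClass.toMonoidWithZeroHomClass AddMonoidHomClass.toZeroHomClass MonoidHomClass.toOneHomClass
attribute [-instance] instCharZeroOfIsSemireal AlgHom.instContinuousLinearMapClassOfAlgHomClass
  RingHomClass.toLinearMapClassRat RingHomClass.toLinearMapClassNNRat NumberField.to_charZero

-- merged part: Pool.Agent.Work.MP_e120ef_ag.H.Charts
section
-- merged part: Pool.Agent.Work.MP_e120ef_ag.H.Kap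
section
/-!
# Evaluation at generic points; the chart at a point

Plans.  `kap_inj`: apply `ent_zero_of_stable` to the kernel.  If `evE (j z) a = 0`, `ev_chain` for `d k` gives `∑ l, evE (j z) (pdE l a) * j (ξ k (z l)) = 0` for all `k`; multiply by the matrix `C` of `Der_dual` (`C * (ξ k (z i)) = 1`).
`exists_kap`: `MI.lift`; the formula for `hat` is `MI.der_eq` (with `c l = j (ξ k (z l))`, `ev_chain`) and `hat_apply`.
`Kap_hensel` (Newton iteration in the closed subring `Set.range Γ.t`, or directly in `T` with `T_complete`): `y ↦ -(p - X).eval y` is a contraction of `{y : T | gN y ≤ θ, constantCoeff y = 0}` of ratio `θ`; iterate from `0`.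
`Kap_unit`: `Kap_hensel` for a polynomial of degree one, or the geometric series.
`exists_chart`: let `z₀ = zv e`, `θ₀ = θv e`, `κ = m' (z₀, θ₀) ≠ 0` (`ND.separable`, `root_v`).  For `lam` small put `ζ l = C (z₀ l) + lam • X l` in `T`; for a fixed polynomial `γ`, `gN (aeval ζ γ - C (aeval z₀ γ)) ≤ c ‖lam‖` when `‖lam‖ ≤ 1`, and its constant coefficient vanishes.  Expand `m (ζ, θ₀ + ε Y) / (ε κ)` (`Polynomial.taylor`, `comp`) and choose first `ε`, then `lam`, to apply `Kap_hensel`; this gives a root `ϑ : T` with constant coefficient `θ₀`, and `aeval ζ Δ` is a unit of `T` (`Kap_unit`).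
`ND.lift` (the `imT (ζ l)` are algebraically independent: `toT_inj`, `imT_inj` and an invertible affine substitution) gives `j`.  For `b : B` use `den`: `β = u⁻¹ * Q.eval₂ (ae ζ) ϑ`, and `map_den` for the constant coefficient.  The last formula: `der_along` with `tb`; `pdF l (j (z i)) = lam * δ`.
-/

open Polynomial

namespace Pool.Agent.Work.MP_e120ef_ag.H

variable {K : Type} [NontriviallyNormedField K] [IsUltrametricDist K] [CompleteSpace K]
  [CharZero K] {F : Type} [Field F] [Algebra K F] {B : Subalgebra K F} {n : ℕ} {𝒩 : ND B n}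
  {M : Type} [Field M] [Algebra K M]

section kap

variable {L : Type} [NontriviallyNormedField L] [IsUltrametricDist L] [CompleteSpace L]
  [NormedAlgebra K L] {g : ℕ} {ξ : Fin g → Derivation K F F}

/-- a point with values in `L` at which the vector fields `ξ k` are bounded derivations of `L` -/
structure GP (ξ : Fin g → Derivation K F F) (j : F →ₐ[K] L) (d : Fin g → Derivation K L L) :
    Prop where
  span : ∀ D : Derivation K F F, ∃ c : Fin g → F, ∀ a, D a = ∑ k, c k * ξ k a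
  bdd : ∀ k, ∃ C : ℝ, ∀ x, ‖d k x‖ ≤ C * ‖x‖
  comm : ∀ k a, d k (j a) = j (ξ k a)

variable {j : F →ₐ[K] L} {d : Fin g → Derivation K L L}

theorem kap_inj (h : GP ξ j d) {z : Fin n → F} (hz : IsTranscendenceBasis K z) :
    Function.Injective (evE (fun l => j (z l)) : Ent K (Fin n) →ₐ[K] L) := by
  obtain ⟨C, hC, -⟩ := Der_dual ξ h.span hz
  refine (injective_iff_map_eq_zero _).2 fun a ha => ?_
  refine ent_zero_of_stable (fun l => j (z l)) (S := {a | evE (fun l => j (z l)) a = 0})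
    (fun _ h => h) (fun a ha l => ?_) a ha
  have h1 : ∀ k, ∑ i, evE (fun l => j (z l)) (pdE K i a) * j (ξ k (z i)) = 0 := fun k => by
    obtain ⟨c, hc⟩ := h.bdd k
    have := ev_chain (d k) hc a fun l => j (z l)
    rw [show evE (fun l => j (z l)) a = 0 from ha, map_zero] at this
    simpa only [h.comm] using this.symm
  have h2 : ∀ i, ∑ k, j (C l k) * j (ξ k (z i)) = if l = i then 1 else 0 := fun i => by
    have := congrArg j (congrFun (congrFun hC l) i)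
    rw [Matrix.mul_apply, map_sum, Matrix.one_apply, apply_ite j, map_one, map_zero] at this
    simpa only [map_mul, Matrix.of_apply] using this
  show evE (fun l => j (z l)) (pdE K l a) = 0
  calc evE (fun l => j (z l)) (pdE K l a)
      = ∑ i, evE (fun l => j (z l)) (pdE K i a) * ∑ k, j (C l k) * j (ξ k (z i)) := by
        simp only [h2, mul_ite, mul_one, mul_zero, Finset.sum_ite_eq, Finset.mem_univ, if_true]
    _ = ∑ k, j (C l k) * ∑ i, evE (fun l => j (z l)) (pdE K i a) * j (ξ k (z i)) := by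
        simp only [Finset.mul_sum]
        rw [Finset.sum_comm]
        exact Finset.sum_congr rfl fun _ _ => Finset.sum_congr rfl fun _ _ => by ring
    _ = 0 := by simp only [h1, mul_zero, Finset.sum_const_zero]

theorem exists_kap (𝓜 : MI 𝒩 M) (h : GP ξ j d) : ∃ κ : M →ₐ[K] L, (∀ a, κ (𝓜.J a) = j a) ∧
    (∀ b, κ (𝓜.E b) = evE (fun l => κ (𝓜.J (𝒩.z l))) b) ∧
    ∀ k x, κ (𝓜.hat (ξ k) x) = d k (κ x) := by
  obtain ⟨κ, h1, h2⟩ := 𝓜.lift (evE fun l => j (𝒩.z l)) (kap_inj h 𝒩.tb) j fun l => by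
    rw [evE_toE, MvPolynomial.aeval_X]
  refine ⟨κ, h2, fun b => by simp only [h1, h2], fun k x => ?_⟩
  obtain ⟨c, hc⟩ := h.bdd k
  rw [𝓜.der_eq κ (d k) (fun l => j (ξ k (𝒩.z l))) fun a => ?_, MI.hat_apply, map_sum]
  · simp only [map_mul, h2]
  · rw [h1, ev_chain (d k) hc]
    exact Finset.sum_congr rfl fun l _ => by rw [h1, h.comm, mul_comm]

end kap

omit [CompleteSpace K] [CharZero K] in
theorem Kap_sum {ι : Type} (s : Finset ι) {f : ι → T K n} {c : ℝ} (hc : 0 ≤ c)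
    (h : ∀ i ∈ s, gN (f i) ≤ c) : gN (∑ i ∈ s, f i) ≤ c :=
  Finset.sum_induction f (fun x => gN x ≤ c) (fun a b ha hb => (gN_add a b).trans (max_le ha hb))
    ((gN_eq_zero.2 rfl).trans_le hc) h

omit [CompleteSpace K] [CharZero K] in
theorem Kap_sub_comm (a b : T K n) : gN (a - b) = gN (b - a) := by
  rw [← gN_neg, neg_sub]

omit [CompleteSpace K] [CharZero K] in
theorem Kap_tri (a b c : T K n) : gN (a - c) ≤ max (gN (a - b)) (gN (b - c)) := by
  rw [← sub_add_sub_cancel a b c]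
  exact gN_add _ _

omit [CompleteSpace K] [CharZero K] in
theorem Kap_pow {y : T K n} (hy : gN y ≤ 1) (i : ℕ) : gN (y ^ i) ≤ 1 := by
  induction i with
  | zero => rw [pow_zero, ← map_one (algebraMap K (T K n)), gN_alg, norm_one]
  | succ i ih =>
    rw [pow_succ, gN_mul]
    exact mul_le_one₀ ih (gN_nonneg _) hy

omit [CompleteSpace K] [CharZero K] in
theorem Kap_pow_sub {y y' : T K n} (hy : gN y ≤ 1) (hy' : gN y' ≤ 1) (i : ℕ) :
    gN (y ^ i - y' ^ i) ≤ gN (y - y') := by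
  induction i with
  | zero => rw [pow_zero, pow_zero, sub_self, gN_eq_zero.2 rfl]; exact gN_nonneg _
  | succ i ih =>
    rw [show y ^ (i + 1) - y' ^ (i + 1) = y * (y ^ i - y' ^ i) + y' ^ i * (y - y') by ring]
    refine (gN_add _ _).trans (max_le ?_ ?_) <;> rw [gN_mul]
    · exact (mul_le_of_le_one_left (gN_nonneg _) hy).trans ih
    · exact mul_le_of_le_one_left (gN_nonneg _) (Kap_pow hy' i)

/-- the constant coefficient -/
noncomputable def Kap_cc : T K n →ₐ[K] K where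
  toFun F := MvPowerSeries.constantCoeff F.1
  map_one' := map_one (MvPowerSeries.constantCoeff (σ := Fin n) (R := K))
  map_mul' F G := map_mul (MvPowerSeries.constantCoeff (σ := Fin n) (R := K)) F.1 G.1
  map_zero' := map_zero (MvPowerSeries.constantCoeff (σ := Fin n) (R := K))
  map_add' F G := map_add (MvPowerSeries.constantCoeff (σ := Fin n) (R := K)) F.1 G.1
  commutes' c := by
    rw [Subalgebra.coe_algebraMap, MvPowerSeries.algebraMap_apply, MvPowerSeries.constantCoeff_C]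

omit [CharZero K] in
theorem Kap_fix (q : (T K n)[X]) {θ : ℝ} (hθ : θ < 1) (h : ∀ i, gN (q.coeff i) ≤ θ) :
    ∃ y : T K n, (Kap_cc (q.coeff 0) = 0 → Kap_cc y = 0) ∧ y + q.eval y = 0 := by
  have h0 : 0 ≤ θ := (gN_nonneg _).trans (h 0)
  have hb : ∀ y, gN y ≤ 1 → gN (-q.eval y) ≤ 1 := fun y hy => by
    rw [gN_neg, eval_eq_sum_range]
    refine Kap_sum _ zero_le_one fun i _ => ?_
    rw [gN_mul]
    exact mul_le_one₀ ((h i).trans hθ.le) (gN_nonneg _) (Kap_pow hy i)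
  have hc : ∀ y y', gN y ≤ 1 → gN y' ≤ 1 → gN (q.eval y - q.eval y') ≤ θ * gN (y - y') :=
    fun y y' hy hy' => by
      rw [eval_eq_sum_range, eval_eq_sum_range, ← Finset.sum_sub_distrib]
      refine Kap_sum _ (mul_nonneg h0 (gN_nonneg _)) fun i _ => ?_
      rw [← mul_sub, gN_mul]
      exact mul_le_mul (h i) (Kap_pow_sub hy hy' i) (gN_nonneg _) h0
  let u : ℕ → T K n := fun k => (fun y => -q.eval y)^[k] 0
  have hu : ∀ k, u (k + 1) = -q.eval (u k) := fun k => Function.iterate_succ_apply' _ _ _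
  have h1 : ∀ k, gN (u k) ≤ 1 := fun k => by
    induction k with
    | zero => exact (gN_eq_zero.2 rfl).trans_le zero_le_one
    | succ k ih => rw [hu]; exact hb _ ih
  have h2 : ∀ k, gN (u (k + 1) - u k) ≤ θ ^ k := fun k => by
    induction k with
    | zero => rw [show u 0 = 0 from rfl, sub_zero, pow_zero]; exact h1 _
    | succ k ih =>
      rw [hu (k + 1), hu k, neg_sub_neg, Kap_sub_comm, ← hu k, pow_succ']
      exact (hc _ _ (h1 _) (h1 _)).trans (mul_le_mul_of_nonneg_left ih h0)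
  have h3 : ∀ N i, N ≤ i → gN (u i - u N) ≤ θ ^ N := fun N i hi => by
    induction i, hi using Nat.le_induction with
    | base => rw [sub_self, gN_eq_zero.2 rfl]; exact pow_nonneg h0 _
    | succ i hi ih =>
      exact (Kap_tri _ (u i) _).trans
        (max_le ((h2 i).trans (pow_le_pow_of_le_one h0 hθ.le hi)) ih)
  obtain ⟨y, hy⟩ := T_complete u fun ε hε => by
    obtain ⟨N, hN⟩ := exists_pow_lt_of_lt_one hε hθ
    refine ⟨N, fun i hi k hk => ((Kap_tri _ (u N) _).trans (max_le (h3 N i hi) ?_)).trans_lt hN⟩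
    rw [Kap_sub_comm]
    exact h3 N k hk
  have hy1 : gN y ≤ 1 := by
    obtain ⟨i, hi⟩ := (hy.eventually (ge_mem_nhds zero_lt_one)).exists
    have := Kap_tri y (u i) 0
    rw [sub_zero, sub_zero, Kap_sub_comm] at this
    exact this.trans (max_le hi (h1 i))
  refine ⟨y, fun hq => ?_, ?_⟩
  · have h4 : ∀ k, Kap_cc (u k) = 0 := fun k => by
      induction k with
      | zero => exact map_zero _
      | succ k ih =>
        have := eval₂_at_apply (p := q) (Kap_cc (K := K) (n := n)).toRingHom (u k)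
        rw [show Kap_cc.toRingHom (u k) = 0 from ih, eval₂_at_zero] at this
        rw [hu, map_neg, neg_eq_zero]
        exact this.symm.trans hq
    refine norm_le_zero_iff.1 (ge_of_tendsto' hy fun k => ?_)
    have : ‖Kap_cc (u k - y)‖ ≤ gN (u k - y) := le_gN (u k - y) 0
    rwa [map_sub, h4, zero_sub, norm_neg] at this
  · have h5 := hy.comp (Filter.tendsto_add_atTop_nat 1)
    have h6 := h5.max hy
    rw [max_self] at h6
    refine gN_eq_zero.1 (le_antisymm (ge_of_tendsto' h6 fun k => ?_) (gN_nonneg _))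
    rw [show y + q.eval y = (y - u (k + 1)) + (q.eval y - q.eval (u k)) by rw [hu]; ring]
    refine (gN_add _ _).trans (max_le_max (Kap_sub_comm _ _).le ?_)
    refine (hc _ _ hy1 (h1 k)).trans ?_
    rw [Kap_sub_comm]
    exact mul_le_of_le_one_left (gN_nonneg _) hθ.le

omit [CharZero K] in
theorem Kap_hensel (p : (T K n)[X]) {θ : ℝ} (hθ : θ < 1) (h : ∀ i, gN ((p - X).coeff i) ≤ θ)
    (h0 : MvPowerSeries.constantCoeff (p.coeff 0).1 = 0) :
    ∃ y : T K n, MvPowerSeries.constantCoeff y.1 = 0 ∧ p.eval y = 0 := by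
  obtain ⟨y, h1, h2⟩ := Kap_fix (p - X) hθ h
  refine ⟨y, h1 (by rw [coeff_sub, coeff_X_zero, sub_zero]; exact h0), ?_⟩
  rwa [eval_sub, eval_X, add_sub_cancel] at h2

omit [CharZero K] in
theorem Kap_unit {u : T K n} {c : K} (h : gN (u - algebraMap K _ c) < ‖c‖) : IsUnit u := by
  have hc : 0 < ‖c‖ := (gN_nonneg _).trans_lt h
  have hc0 : c ≠ 0 := norm_pos_iff.1 hc
  have hs : gN (algebraMap K _ c⁻¹ * (u - algebraMap K _ c)) < 1 := by
    rwa [gN_mul, gN_alg, norm_inv, inv_mul_lt_iff₀ hc, mul_one]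
  have e : algebraMap K (T K n) c * (algebraMap K _ c⁻¹ * (u - algebraMap K _ c)) =
      u - algebraMap K _ c := by
    rw [← mul_assoc, ← map_mul, mul_inv_cancel₀ hc0, map_one, one_mul]
  have e' : algebraMap K (T K n) c * algebraMap K _ c⁻¹ = 1 := by
    rw [← map_mul, mul_inv_cancel₀ hc0, map_one]
  generalize algebraMap K (T K n) c⁻¹ * (u - algebraMap K _ c) = s at hs e
  obtain ⟨y, -, hy⟩ := Kap_fix (C s * X + C s) hs fun i => by
    rcases i with _ | _ | i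
    · simp
    · simp
    · simp only [coeff_add, coeff_C_mul, coeff_X, coeff_C_succ]
      rw [if_neg (by omega), mul_zero, add_zero, gN_eq_zero.2 rfl]
      exact gN_nonneg _
  rw [eval_add, eval_mul, eval_C, eval_X] at hy
  refine IsUnit.of_mul_eq_one (algebraMap K _ c⁻¹ * (1 + y)) ?_
  linear_combination (algebraMap K (T K n) c⁻¹ * (1 + y)) * (-e) + (1 + s) * (1 + y) * e' + hy

/-- the affine coordinates -/
noncomputable def Kap_z (z₀ : Fin n → K) (lam : K) (l : Fin n) : T K n :=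
  toT (MvPolynomial.C (z₀ l) + lam • MvPolynomial.X l)

omit [CompleteSpace K] [CharZero K] in
theorem Kap_z_sub (z₀ : Fin n → K) (lam : K) (l : Fin n) :
    gN (Kap_z z₀ lam l - algebraMap K _ (z₀ l)) = ‖lam‖ := by
  rw [Kap_z, map_add, ← MvPolynomial.algebraMap_eq, AlgHom.commutes, add_sub_cancel_left, map_smul,
    Algebra.smul_def, gN_mul, gN_alg, gN_X, mul_one]

omit [CompleteSpace K] [CharZero K] in
theorem Kap_cc_z (z₀ : Fin n → K) (lam : K) : (fun l => Kap_cc (Kap_z z₀ lam l)) = z₀ := by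
  funext l
  rw [Kap_z, map_add, ← MvPolynomial.algebraMap_eq, AlgHom.commutes, map_smul, map_add, map_smul,
    AlgHom.commutes]
  have : Kap_cc (toT (MvPolynomial.X l) : T K n) = 0 := by
    show MvPowerSeries.constantCoeff ((MvPolynomial.X l : MvPolynomial (Fin n) K) :
      MvPowerSeries (Fin n) K) = 0
    rw [MvPolynomial.coe_X, MvPowerSeries.constantCoeff_X]
  rw [this, smul_zero, add_zero]
  rfl

omit [CompleteSpace K] [CharZero K] in
theorem Kap_close (z₀ : Fin n → K) (γ : MvPolynomial (Fin n) K) : ∃ c : ℝ, 0 ≤ c ∧ ∀ lam : K,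
    ‖lam‖ ≤ 1 → gN (MvPolynomial.aeval (Kap_z z₀ lam) γ -
      algebraMap K _ (MvPolynomial.aeval z₀ γ)) ≤ c * ‖lam‖ := by
  induction γ using MvPolynomial.induction_on with
  | C a => exact ⟨0, le_rfl, fun lam _ => by simp [gN_eq_zero.2]⟩
  | add p q hp hq =>
    obtain ⟨a, ha, hp⟩ := hp
    obtain ⟨b, hb, hq⟩ := hq
    refine ⟨a + b, add_nonneg ha hb, fun lam hl => ?_⟩
    rw [map_add, map_add, map_add, add_sub_add_comm, add_mul]
    have := mul_nonneg ha (norm_nonneg lam)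
    have := mul_nonneg hb (norm_nonneg lam)
    have := hp lam hl
    have := hq lam hl
    exact (gN_add _ _).trans (max_le (by linarith) (by linarith))
  | mul_X p l hp =>
    obtain ⟨a, ha, hp⟩ := hp
    have h1 : 0 ≤ a * max 1 ‖z₀ l‖ := mul_nonneg ha (le_max_of_le_left zero_le_one)
    refine ⟨a * max 1 ‖z₀ l‖ + ‖MvPolynomial.aeval z₀ p‖, add_nonneg h1 (norm_nonneg _),
      fun lam hl => ?_⟩
    have h2 : gN (Kap_z z₀ lam l) ≤ max 1 ‖z₀ l‖ := by
      have := Kap_tri (Kap_z z₀ lam l) (algebraMap K _ (z₀ l)) 0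
      rw [sub_zero, sub_zero, Kap_z_sub, gN_alg] at this
      exact this.trans (max_le_max hl le_rfl)
    have h3 := mul_le_mul (hp lam hl) h2 (gN_nonneg _) (mul_nonneg ha (norm_nonneg lam))
    have h4 := mul_nonneg h1 (norm_nonneg lam)
    have h5 := mul_nonneg (norm_nonneg (MvPolynomial.aeval z₀ p)) (norm_nonneg lam)
    rw [map_mul, map_mul, map_mul, MvPolynomial.aeval_X, MvPolynomial.aeval_X,
      show ∀ A a' Z z' : T K n, A * Z - a' * z' = (A - a') * Z + a' * (Z - z') from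
        fun _ _ _ _ => by ring]
    refine (gN_add _ _).trans (max_le ?_ ?_)
    · rw [gN_mul]
      linarith
    · rw [gN_mul, gN_alg, Kap_z_sub]
      linarith

omit [CompleteSpace K] [CharZero K] in
theorem Kap_ev (z₀ : Fin n → K) (γ : MvPolynomial (Fin n) K) {η : ℝ} (hη : 0 < η) :
    ∀ᶠ lam : K in nhds 0, gN (MvPolynomial.aeval (Kap_z z₀ lam) γ -
      algebraMap K _ (MvPolynomial.aeval z₀ γ)) ≤ η := by
  obtain ⟨c, -, h⟩ := Kap_close z₀ γ
  have h1 : Filter.Tendsto (fun lam : K => ‖lam‖) (nhds 0) (nhds 0) := tendsto_norm_zero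
  have h2 := h1.const_mul c
  rw [mul_zero] at h2
  filter_upwards [h1.eventually (ge_mem_nhds zero_lt_one), h2.eventually (ge_mem_nhds hη)]
    with lam a b using (h lam a).trans b

omit [CharZero K] in
theorem Kap_root (z₀ : Fin n → K) (μ : (MvPolynomial (Fin n) K)[X])
    (h0 : MvPolynomial.aeval z₀ (μ.coeff 0) = 0) (h1 : MvPolynomial.aeval z₀ (μ.coeff 1) ≠ 0) :
    ∀ᶠ lam : K in nhds 0, ∃ y : T K n, Kap_cc y = 0 ∧ μ.eval₂ (ND.ae (Kap_z z₀ lam)) y = 0 := by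
  generalize hκ : MvPolynomial.aeval z₀ (μ.coeff 1) = κ at h1
  have hκ0 : 0 < ‖κ‖ := norm_pos_iff.2 h1
  have ht : Filter.Tendsto (fun ε : K => ‖ε‖) (nhds 0) (nhds 0) := tendsto_norm_zero
  have hε : ∀ᶠ ε : K in nhds 0, ‖ε‖ ≤ 1 ∧
      ∀ i ∈ μ.support, ‖ε‖ * ‖MvPolynomial.aeval z₀ (μ.coeff i)‖ ≤ ‖κ‖ / 2 := by
    refine (ht.eventually (ge_mem_nhds zero_lt_one)).and
      ((Filter.eventually_all_finset _).2 fun i _ => ?_)
    have := ht.mul_const ‖MvPolynomial.aeval z₀ (μ.coeff i)‖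
    rw [zero_mul] at this
    exact this.eventually (ge_mem_nhds (half_pos hκ0))
  obtain ⟨ε, ⟨e1, e2⟩, e0⟩ := ((hε.filter_mono (nhdsWithin_le_nhds (s := {0}ᶜ))).and
    self_mem_nhdsWithin).exists
  have e0' : ε ≠ 0 := e0
  have e3 : 0 < ‖ε * κ‖ := norm_pos_iff.2 (mul_ne_zero e0' h1)
  filter_upwards [(Filter.eventually_all_finset μ.support).2 fun i _ =>
    Kap_ev z₀ (μ.coeff i) (half_pos e3)] with lam hl
  have hl' : ∀ i, gN (MvPolynomial.aeval (Kap_z z₀ lam) (μ.coeff i) -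
      algebraMap K _ (MvPolynomial.aeval z₀ (μ.coeff i))) ≤ ‖ε * κ‖ / 2 := fun i => by
    by_cases hi : i ∈ μ.support
    · exact hl i hi
    · rw [notMem_support_iff.1 hi, map_zero, map_zero, map_zero, sub_zero, gN_eq_zero.2 rfl]
      exact (half_pos e3).le
  have hco : ∀ i, (C (algebraMap K (T K n) (ε * κ)⁻¹) *
      (μ.map (ND.ae (Kap_z z₀ lam))).comp (C (algebraMap K _ ε) * X)).coeff i =
      algebraMap K _ ((ε * κ)⁻¹ * ε ^ i) * MvPolynomial.aeval (Kap_z z₀ lam) (μ.coeff i) :=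
    fun i => by
      rw [coeff_C_mul, comp_C_mul_X_coeff, coeff_map, map_mul (algebraMap K (T K n)), map_pow,
        mul_assoc, mul_comm (_ ^ i)]
      rfl
  obtain ⟨y, hy0, hy⟩ := Kap_hensel (C (algebraMap K (T K n) (ε * κ)⁻¹) *
      (μ.map (ND.ae (Kap_z z₀ lam))).comp (C (algebraMap K _ ε) * X)) (θ := 1 / 2) (by norm_num)
    (fun i => by
      have hX : (X : (T K n)[X]).coeff i = algebraMap K _ (if 1 = i then 1 else 0) := by
        rw [coeff_X, apply_ite (algebraMap K (T K n)), map_one, map_zero]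
      rw [coeff_sub, hco, hX, show ∀ s A a o : T K n, s * A - o = s * (A - a) + (s * a - o) from
        fun _ _ _ _ => by ring, ← map_mul, ← map_sub]
      refine (gN_add _ _).trans (max_le ?_ ?_)
      · rw [gN_mul, gN_alg, norm_mul, norm_inv, norm_pow, mul_assoc, inv_mul_le_iff₀ e3]
        refine (mul_le_of_le_one_left (gN_nonneg _) (pow_le_one₀ (norm_nonneg _) e1)).trans
          ((hl' i).trans_eq (by ring))
      · rw [gN_alg]
        rcases i with _ | _ | i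
        · rw [h0, if_neg one_ne_zero, mul_zero, sub_zero, norm_zero]
          norm_num
        · rw [zero_add, hκ, if_pos rfl, pow_one, mul_assoc, inv_mul_cancel₀ (mul_ne_zero e0' h1),
            sub_self, norm_zero]
          norm_num
        · have h2 : ‖ε‖ * ‖MvPolynomial.aeval z₀ (μ.coeff (i + 1 + 1))‖ ≤ ‖κ‖ / 2 := by
            by_cases hi : i + 1 + 1 ∈ μ.support
            · exact e2 _ hi
            · rw [notMem_support_iff.1 hi, map_zero, norm_zero, mul_zero]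
              exact (half_pos hκ0).le
          rw [if_neg (by omega), sub_zero, norm_mul, norm_mul, norm_inv, norm_pow, mul_assoc,
            inv_mul_le_iff₀ e3, norm_mul, pow_succ, pow_succ, mul_assoc, mul_assoc]
          refine (mul_le_of_le_one_left (by positivity) (pow_le_one₀ (norm_nonneg _) e1)).trans
            ((mul_le_mul_of_nonneg_left h2 (norm_nonneg _)).trans_eq (by ring)))
    (by
      show Kap_cc _ = 0
      rw [hco, map_mul, MvPolynomial.comp_aeval_apply, Kap_cc_z, h0, mul_zero])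
  refine ⟨algebraMap K _ ε * y, by rw [map_mul, show Kap_cc y = 0 from hy0, mul_zero], ?_⟩
  rw [eval_mul, eval_C, eval_comp, eval_mul, eval_C, eval_X, eval_map] at hy
  exact (mul_eq_zero.1 hy).resolve_left
    ((map_ne_zero (algebraMap K (T K n))).2 (inv_ne_zero (mul_ne_zero e0' h1)))

omit [CompleteSpace K] [CharZero K] in
theorem Kap_indep (z₀ : Fin n → K) {lam : K} (hl : lam ≠ 0) :
    AlgebraicIndependent K fun l => imT (Kap_z z₀ lam l) := by
  let σ : MvPolynomial (Fin n) K →ₐ[K] MvPolynomial (Fin n) K :=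
    MvPolynomial.aeval fun l => MvPolynomial.C (z₀ l) + lam • MvPolynomial.X l
  let τ : MvPolynomial (Fin n) K →ₐ[K] MvPolynomial (Fin n) K :=
    MvPolynomial.aeval fun l => lam⁻¹ • (MvPolynomial.X l - MvPolynomial.C (z₀ l))
  have h1 : τ.comp σ = AlgHom.id _ _ := MvPolynomial.algHom_ext fun l => by
    simp [σ, τ, smul_smul, hl]
  have h2 : Function.Injective σ :=
    Function.LeftInverse.injective (g := τ) fun x => AlgHom.congr_fun h1 x
  have h3 : (MvPolynomial.aeval fun l => imT (Kap_z z₀ lam l)) =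
      ((IsScalarTower.toAlgHom K (T K n) (FT K n)).comp toT).comp σ :=
    MvPolynomial.algHom_ext fun l => by
      rw [MvPolynomial.aeval_X, AlgHom.comp_apply, MvPolynomial.aeval_X]
      rfl
  rw [algebraicIndependent_iff_injective_aeval, h3]
  exact (imT_inj.comp toT_inj).comp h2

variable (𝒩) in
theorem exists_chart (e : B →ₐ[K] K) (he : MvPolynomial.aeval (𝒩.zv e) 𝒩.Δ ≠ 0) :
    ∃ (lam : K) (j : F →ₐ[K] FT K n),
      (∀ b : B, ∃ β : T K n, j b = imT β ∧ MvPowerSeries.constantCoeff β.1 = e b) ∧ lam ≠ 0 ∧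
      ∀ (ξ : Derivation K F F) (a : F),
        j (ξ a) = ∑ l, lam⁻¹ • j (ξ (𝒩.z l)) * pdF K l (j a) := by
  have hev : ∀ Q : (MvPolynomial (Fin n) K)[X], MvPolynomial.aeval (𝒩.zv e)
      (Q.eval (MvPolynomial.C (𝒩.θv e))) = Q.eval₂ (ND.ae (𝒩.zv e)) (𝒩.θv e) := fun Q => by
    have := eval₂_at_apply (p := Q) (ND.ae (𝒩.zv e)) (MvPolynomial.C (𝒩.θv e))
    rw [show ND.ae (𝒩.zv e) (MvPolynomial.C (𝒩.θv e)) = 𝒩.θv e from MvPolynomial.aeval_C _ _]
      at this
    exact this.symm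
  have h0 := Kap_root (𝒩.zv e) (taylor (MvPolynomial.C (𝒩.θv e)) 𝒩.m)
    (by rw [taylor_coeff_zero, hev, 𝒩.root_v]) (by
      rw [taylor_coeff_one, hev]
      obtain ⟨a, b, hab⟩ := 𝒩.bez
      have := congrArg (eval₂ (ND.ae (𝒩.zv e)) (𝒩.θv e)) hab
      rw [eval₂_add, eval₂_mul, eval₂_mul, 𝒩.root_v, mul_zero, zero_add, eval₂_C] at this
      intro h
      rw [h, mul_zero] at this
      exact he this.symm)
  have hΔ : 0 < ‖MvPolynomial.aeval (𝒩.zv e) 𝒩.Δ‖ := norm_pos_iff.2 he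
  obtain ⟨lam, ⟨⟨y, hy0, hy⟩, hu⟩, hl⟩ := (((h0.and
    (Kap_ev (𝒩.zv e) 𝒩.Δ (half_pos hΔ))).filter_mono (nhdsWithin_le_nhds (s := {0}ᶜ))).and
    self_mem_nhdsWithin).exists
  have hl' : lam ≠ 0 := hl
  obtain ⟨u, hu⟩ := Kap_unit (hu.trans_lt (half_lt_self hΔ))
  rw [taylor_apply, eval₂_comp, eval₂_add, eval₂_X, eval₂_C,
    show ND.ae (Kap_z (𝒩.zv e) lam) (MvPolynomial.C (𝒩.θv e)) = algebraMap K _ (𝒩.θv e) from
      MvPolynomial.aeval_C _ _] at hy
  have hϑ : Kap_cc (y + algebraMap K _ (𝒩.θv e)) = 𝒩.θv e := by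
    rw [map_add, hy0, zero_add, AlgHom.commutes]
    rfl
  generalize y + algebraMap K _ (𝒩.θv e) = ϑ at hy hϑ
  let ι := IsScalarTower.toAlgHom K (T K n) (FT K n)
  obtain ⟨j, hj, hjθ⟩ := 𝒩.lift (Kap_indep (𝒩.zv e) hl') (ϑ := imT ϑ)
    ((ND.ND_hom ι _ ϑ 𝒩.m).symm.trans ((congrArg ι hy).trans (map_zero ι)))
  refine ⟨lam, j, fun b => ?_, hl', fun ξ a => ?_⟩
  · obtain ⟨Q, hQ⟩ := 𝒩.den b b.2
    have e1 : (u : T K n) * (↑u⁻¹ * Q.eval₂ (ND.ae (Kap_z (𝒩.zv e) lam)) ϑ) =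
        Q.eval₂ (ND.ae (Kap_z (𝒩.zv e) lam)) ϑ := u.mul_inv_cancel_left _
    refine ⟨↑u⁻¹ * Q.eval₂ (ND.ae (Kap_z (𝒩.zv e) lam)) ϑ, ?_, ?_⟩
    · have h1 := congrArg j hQ
      have h2 := congrArg ι e1
      rw [map_mul, MvPolynomial.comp_aeval_apply, ND.ND_hom, funext hj, hjθ] at h1
      rw [map_mul, ND.ND_hom, hu, MvPolynomial.comp_aeval_apply] at h2
      have h3 : ι u ≠ 0 := (u.isUnit.map ι).ne_zero
      rw [hu, MvPolynomial.comp_aeval_apply] at h3
      exact mul_left_cancel₀ h3 (h1.trans h2.symm)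
    · have h2 := congrArg Kap_cc e1
      rw [map_mul, ND.ND_hom, hu, MvPolynomial.comp_aeval_apply, Kap_cc_z, hϑ,
        ← 𝒩.map_den e hQ] at h2
      exact mul_left_cancel₀ he h2
  · let d : F →ₗ[K] FT K n := j.toLinearMap.comp ξ.toLinearMap -
      ∑ l, (LinearMap.mulLeft K (lam⁻¹ • j (ξ (𝒩.z l)))).comp
        ((pdF K l).toLinearMap.comp j.toLinearMap)
    have hd : ∀ a, d a = j (ξ a) - ∑ l, lam⁻¹ • j (ξ (𝒩.z l)) * pdF K l (j a) := fun a => by
      simp only [d, LinearMap.sub_apply, LinearMap.sum_apply]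
      rfl
    have hz : ∀ l i, pdF K l (j (𝒩.z i)) = if l = i then algebraMap K _ lam else 0 := fun l i => by
      rw [hj, pdF_im, Kap_z, pdT_toT, map_add, MvPolynomial.pderiv_C, zero_add,
        Derivation.map_smul, MvPolynomial.pderiv_X]
      by_cases h : l = i
      · rw [if_pos h, h, Pi.single_eq_same, map_smul, map_one, ← Algebra.algebraMap_eq_smul_one]
        rfl
      · rw [if_neg h, Pi.single_eq_of_ne' h, smul_zero, map_zero]
        exact map_zero _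
    rw [← sub_eq_zero, ← hd]
    refine der_along 𝒩.tb j d (fun a b => ?_) (fun i => ?_) a
    · simp only [hd, Derivation.leibniz, map_mul, map_add, smul_eq_mul, mul_sub, mul_add,
        Finset.sum_add_distrib, Finset.mul_sum]
      rw [sub_add_sub_comm]
      congr 2 <;> exact Finset.sum_congr rfl fun _ _ => by ring
    · simp only [hd, hz, mul_ite, mul_zero, Finset.sum_ite_eq', Finset.mem_univ, if_true]
      rw [Algebra.smul_def, mul_right_comm, ← map_mul, inv_mul_cancel₀ hl', map_one, one_mul,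
        sub_self]

end Pool.Agent.Work.MP_e120ef_ag.H
end

-- merged part: Pool.Agent.Work.MP_e120ef_ag.H.Rep
section
/-!
# The pull-back of rational functions by a meromorphic map

Plans.  `exists_MI'`: `exists_GD`, `exists_Kp`, `GD.w'_indep` (with `ρ = 1`), `irr_E`, `exists_MI`.  `exists_repOn`: `ent_of_hasSum`, `mem_B`; `lft_hom` and `HasVal.unique` turn the point of `Mero` into an algebra map.
`exists_phiG`: `MI.exists_phi`; uniqueness by `lft_point`.  `rep_ne`: `exists_ND` for `B G W` (`lft_finiteType`, `aff_frac_field`), `exists_MI'`, `xb` from `exists_rep` is nonzero (`Rep.zero`), `κ` from `exists_kap` is injective, `Rep.map`.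
`rep_cross`: take an affine `W'' ≤ W ⊓ W'` containing the generic point (`exists_aff`), `𝒩''`, `𝓜''`, `κ''` for it, and representatives `xa, xb, xa', xb'` for the variables seen in `B G W''` (`B_anti`, `Subalgebra.inclusion`).  At a point `e` of `W''` with `Δ ≠ 0`, with closed point `p` (`lft_point`), the value of `(xa * xb' - xa' * xb) * xb * xb'` is zero (`HasVal.unique` at `f p`); `eq_zero_of_val`, `rep_ne`.
`kap_phi`: take a representation on `U`, `phi_rep`, `Rep.map`, then `rep_cross` and `rep_ne`.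
-/

open CategoryTheory AlgebraicGeometry

namespace Pool.Agent.Work.MP_e120ef_ag.H

variable {K : Type} [NontriviallyNormedField K] [IsUltrametricDist K] [CompleteSpace K]
  [IsAlgClosed K] [CharZero K]

theorem exists_MI' {F : Type} [Field F] [Algebra K F] {B : Subalgebra K F} {n : ℕ} (𝒩 : ND B n) :
    ∃ (M : Type) (_ : Field M) (_ : Algebra K M), Nonempty (MI 𝒩 M) := by
  obtain ⟨K₁, _, _, _, _, ⟨Γ⟩⟩ := exists_GD K n
  obtain ⟨K', _, _, _, _, _, _, _, _⟩ := exists_Kp K K₁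
  exact exists_MI 𝒩 (irr_E (Γ.w'_indep K' 1 one_ne_zero) 𝒩)

variable {G X : Sch K} [IsIntegral G.left] [IsIntegral X.left] [LocallyOfFiniteType G.hom]
  (f : G.left → X.left)

/-- the value of `y` at the image of the point `e` -/
def HVf (U : G.left.Opens) (e : B G U →ₐ[K] K) (y : Fn X) (c : K) : Prop :=
  ∀ p ∈ U, IsClosed ({p} : Set G.left) → (∀ b : B G U, HasVal p (b : Fn G) (e b)) →
    HasVal (f p) y c

/-- `a (s) / b (s)` represents the pull-back of `y` on `W` -/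
structure RepOn (W : G.left.Opens) (y : Fn X) {r : ℕ} (s : Fin r → B G W)
    (a b : Ent K (Fin r)) : Prop where
  ne : ∃ e : B G W →ₐ[K] K, evE (fun i => e (s i)) b ≠ 0
  val : ∀ e : B G W →ₐ[K] K, evE (fun i => e (s i)) b ≠ 0 →
    HVf f W e y (evE (fun i => e (s i)) a / evE (fun i => e (s i)) b)

variable {f} {U W W' : G.left.Opens}

theorem exists_repOn (hf : Mero f) (hW : IsAffineOpen W) (hg : gp G ∈ W) (y : Fn X) :
    ∃ (r : ℕ) (s : Fin r → B G W) (a b : Ent K (Fin r)), RepOn f W y s a b := by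
  obtain ⟨r, s, a, b, hs, ⟨ca, ha⟩, ⟨cb, hb⟩, ⟨p, c, ⟨hp, hc, hv⟩, h0⟩, h⟩ := hf W hW ⟨_, hg⟩ y
  obtain ⟨A, hA⟩ := ent_of_hasSum ha
  obtain ⟨C, hC⟩ := ent_of_hasSum hb
  refine ⟨r, fun i => ⟨s i, mem_B.2 (hs i)⟩, A, C, ?_, fun e he q hq hcl hval => ?_⟩
  · obtain ⟨e, he⟩ := lft_hom hp hc
    have : (fun i => e ⟨s i, mem_B.2 (hs i)⟩) = c := funext fun i => (he ⟨s i, _⟩).unique (hv i)
    exact ⟨e, by rwa [hC, this]⟩
  · rw [hC] at he
    rw [hA, hC]
    exact h q _ ⟨hq, hcl, fun i => hval ⟨s i, _⟩⟩ he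

theorem HVf_unique (hU : IsAffineOpen U) (hg : gp G ∈ U) (e : B G U →ₐ[K] K) (y : Fn X) (c c' : K)
    (h : HVf f U e y c) (h' : HVf f U e y c') : c = c' := by
  obtain ⟨p, hp, hc, hv⟩ := lft_point hU hg e
  exact (h p hp hc hv).unique (h' p hp hc hv)

variable {n : ℕ} {𝒩 : ND (B G U) n} {M : Type} [Field M] [Algebra K M] (𝓜 : MI 𝒩 M)

theorem exists_phiG (hf : Mero f) (hU : IsAffineOpen U) (hg : gp G ∈ U) :
    ∃ φ : Fn X →ₐ[K] M, 𝓜.IsPhi (HVf f U) φ := by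
  refine 𝓜.exists_phi _ (fun e y y' c c' h h' p hp hc hv => (h p hp hc hv).add (h' p hp hc hv))
    (fun e y y' c c' h h' p hp hc hv => (h p hp hc hv).mul (h' p hp hc hv))
    (fun e c p _ _ _ => hasVal_alg _ c) (HVf_unique hU hg) fun y => ?_
  obtain ⟨r, s, a, b, h⟩ := exists_repOn hf hU hg y
  exact ⟨r, s, a, b, h.ne, h.val⟩

variable {L : Type} [NontriviallyNormedField L] [IsUltrametricDist L] [CompleteSpace L]
  [NormedAlgebra K L] {g : ℕ} {ξ : Fin g → Dr G} {j : Fn G →ₐ[K] L}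
  {d : Fin g → Derivation K L L} {y : Fn X} {r r' : ℕ} {s : Fin r → B G W} {s' : Fin r' → B G W'}
  {a b : Ent K (Fin r)} {a' b' : Ent K (Fin r')}

theorem Rep_data (hj : GP ξ j d) (hW : IsAffineOpen W) (hg : gp G ∈ W) :
    ∃ (n : ℕ) (𝒩 : ND (B G W) n) (M : Type) (_ : Field M) (_ : Algebra K M) (𝓜 : MI 𝒩 M)
      (κ : M →ₐ[K] L), ∀ (r : ℕ) (s : Fin r → B G W) (a : Ent K (Fin r)) (x : M), 𝓜.Rep s a x →
        κ x = evE (fun i => j (s i)) a := by
  have := lft_finiteType hW hg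
  obtain ⟨n, ⟨𝒩⟩⟩ := exists_ND (B G W) (aff_frac_field hW hg)
  obtain ⟨M, _, _, ⟨𝓜⟩⟩ := exists_MI' 𝒩
  obtain ⟨κ, h1, h2, -⟩ := exists_kap 𝓜 hj
  refine ⟨n, 𝒩, M, _, _, 𝓜, κ, fun r s a x h => ?_⟩
  rw [h.map L κ h2]
  simp only [h1]

theorem rep_ne (hj : GP ξ j d) (hW : IsAffineOpen W) (hg : gp G ∈ W) (h : RepOn f W y s a b) :
    evE (fun i => j (s i)) b ≠ 0 := by
  obtain ⟨n, 𝒩, M, _, _, 𝓜, κ, hκ⟩ := Rep_data hj hW hg
  obtain ⟨xb, hb⟩ := 𝓜.exists_rep s b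
  obtain ⟨e, he⟩ := h.ne
  rw [← hκ _ s b xb hb]
  exact (map_ne_zero κ).2 fun h0 => he (hb.zero h0 e)

theorem Rep_comp {k A A' ι : Type} [Field k] [CommRing A] [CommRing A'] [Algebra k A] [Algebra k A']
    (e : A' →ₐ[k] k) (i : A →ₐ[k] A') (s : ι → A) :
    (fun l => e.comp i (s l)) = fun l => e (i (s l)) := rfl

theorem Rep_ring {R : Type} [Field R] {a b a' b' : R} (h : b ≠ 0 → b' ≠ 0 → a / b = a' / b') :
    (a * b' - a' * b) * b * b' = 0 := by
  by_cases k : b = 0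
  · rw [k, mul_zero, zero_mul]
  by_cases k' : b' = 0
  · rw [k', mul_zero]
  rw [(div_eq_div_iff k k').1 (h k k'), sub_self, zero_mul, zero_mul]

theorem rep_cross (hj : GP ξ j d) (hW : IsAffineOpen W) (hg : gp G ∈ W) (hW' : IsAffineOpen W')
    (hg' : gp G ∈ W') (h : RepOn f W y s a b) (h' : RepOn f W' y s' a' b') :
    evE (fun i => j (s i)) a * evE (fun i => j (s' i)) b' =
      evE (fun i => j (s' i)) a' * evE (fun i => j (s i)) b := by
  obtain ⟨V, hV, hgV, hle⟩ := exists_aff (W := W ⊓ W') (x := gp G) ⟨hg, hg'⟩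
  obtain ⟨n, 𝒩, M, _, _, 𝓜, κ, hκ⟩ := Rep_data hj hV hgV
  obtain ⟨i, hi⟩ : ∃ i : B G W →ₐ[K] B G V, ∀ x, (i x : Fn G) = x :=
    ⟨_, Subalgebra.coe_inclusion (B_anti (hle.trans inf_le_left))⟩
  obtain ⟨i', hi'⟩ : ∃ i : B G W' →ₐ[K] B G V, ∀ x, (i x : Fn G) = x :=
    ⟨_, Subalgebra.coe_inclusion (B_anti (hle.trans inf_le_right))⟩
  obtain ⟨xa, ha⟩ := 𝓜.exists_rep (fun k => i (s k)) a
  obtain ⟨xb, hb⟩ := 𝓜.exists_rep (fun k => i (s k)) b
  obtain ⟨xa', ha'⟩ := 𝓜.exists_rep (fun k => i' (s' k)) a'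
  obtain ⟨xb', hb'⟩ := 𝓜.exists_rep (fun k => i' (s' k)) b'
  have key : (xa * xb' - xa' * xb) * xb * xb' = 0 := by
    refine 𝓜.eq_zero_of_val (Val_ne (𝒩 := 𝒩)) fun e he => ?_
    rw [evE_toE] at he
    have h5 := ((((ha.val e he).mul (hb'.val e he)).sub ((ha'.val e he).mul (hb.val e he))).mul
      (hb.val e he)).mul (hb'.val e he)
    obtain ⟨p, hp, hc, hv⟩ := lft_point hV hgV e
    have k := h.val (e.comp i)
    have k' := h'.val (e.comp i')
    rw [Rep_comp] at k k'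
    rwa [Rep_ring fun l l' => (k l p (hle hp).1 hc fun b => ?_).unique
      (k' l' p (hle hp).2 hc fun b => ?_)] at h5
    · rw [AlgHom.comp_apply, ← hi b]
      exact hv _
    · rw [AlgHom.comp_apply, ← hi' b]
      exact hv _
  have h6 := congrArg κ key
  rw [map_mul, map_mul, map_sub, map_mul, map_mul, map_zero, hκ _ _ _ _ ha, hκ _ _ _ _ hb,
    hκ _ _ _ _ ha', hκ _ _ _ _ hb'] at h6
  simp only [hi, hi'] at h6
  exact sub_eq_zero.1 ((mul_eq_zero.1 ((mul_eq_zero.1 h6).resolve_right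
    (rep_ne hj hW' hg' h'))).resolve_right (rep_ne hj hW hg h))

theorem kap_phi (hf : Mero f) (hU : IsAffineOpen U) (hgU : gp G ∈ U) {φ : Fn X →ₐ[K] M}
    (hφ : 𝓜.IsPhi (HVf f U) φ) (hj : GP ξ j d) {κ : M →ₐ[K] L} (hJ : ∀ x, κ (𝓜.J x) = j x)
    (hE : ∀ b, κ (𝓜.E b) = evE (fun l => κ (𝓜.J (𝒩.z l))) b) (hW : IsAffineOpen W)
    (hg : gp G ∈ W) (h : RepOn f W y s a b) :
    κ (φ y) * evE (fun i => j (s i)) b = evE (fun i => j (s i)) a := by
  obtain ⟨r', s', a', b', h'⟩ := exists_repOn hf hU hgU y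
  obtain ⟨xa, ha⟩ := 𝓜.exists_rep s' a'
  obtain ⟨xb, hb⟩ := 𝓜.exists_rep s' b'
  obtain ⟨e, he⟩ := h'.ne
  have h1 := congrArg κ (𝓜.phi_rep hφ (HVf_unique hU hgU) h'.val ha hb fun h0 => he (hb.zero h0 e))
  rw [map_mul, ha.map L κ hE, hb.map L κ hE] at h1
  simp only [hJ] at h1
  refine mul_right_cancel₀ (rep_ne hj hU hgU h') ?_
  rw [rep_cross hj hW hg hU hgU h h', ← h1]
  ring

end Pool.Agent.Work.MP_e120ef_ag.H
end

-- merged part: Pool.Agent.Work.MP_e120ef_ag.H.Charts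
section
/-!
# Charts of constant size at all points of the group

Plans.  `Charts_mk`: `d k = ∑ l, Γ.t (N k l) • Γ.d l` is bounded, `GP ξ (Γ.τ.comp j) d` (`τ_tl`); `κ` from `exists_kap`.  For `y` take a representation on `V` (`exists_repOn`); the values `evE (τ (j (s i))) a`, `.. b` are `Γ.t α`, `Γ.t β` (`GD.evT`), `β ≠ 0` (`rep_ne`), so `κ (φ y) = τ (imT α / imT β)` (`kap_phi`).
Define `χ` through the injective map `τ` (`AlgHom.codRestrict`, `AlgEquiv.ofInjectiveField`).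
`exists_charts`: let `C` be as in `MI.pd_hat`; choose representations `(s, a, b)` on `U` of the `y ∈ Y`.  The representative `xb` is nonzero, so by `exists_val xb⁻¹` there is `β ≠ 0` such that `b` does not vanish at points where `β * toE Δ` does not.  With denominators of the `C l k` from `ND.frac`, `exists_point` gives `e` at which all these are nonzero; `exists_chart` gives `lam`, `j₀`; `N k l` represents `lam⁻¹ • j₀ (ξ k (z l))`.
Let `p` be the closed point of `e` (`lft_point`).  For closed `q` take `y` with `(tr y).left p = q` (`lft_pt`, `exists_tr`), `V` from `tr_open`, `j = j₀.comp (pbF (grp_dom_iso (tr y)))` (`IsGFrame.tr`, `hasVal_pb`).  At `p` itself take `V = U`, `j = j₀`; `constantCoeff β = evE (e s) b ≠ 0` by `GD.evT`, and `kap_phi` gives `imT β * χ y = imT α`.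
-/

open CategoryTheory AlgebraicGeometry

namespace Pool.Agent.Work.MP_e120ef_ag.H

variable {K : Type} [NontriviallyNormedField K] [IsUltrametricDist K] {n g : ℕ}

/-- the vector fields in the chart -/
noncomputable def tl (N : Fin g → Fin n → T K n) (k : Fin g) : Derivation K (FT K n) (FT K n) :=
  ∑ l, imT (N k l) • pdF K l

theorem tl_apply (N : Fin g → Fin n → T K n) (k : Fin g) (x : FT K n) :
    tl N k x = ∑ l, imT (N k l) * pdF K l x := by
  have := congrFun (map_sum (Derivation.coeFnAddMonoidHom (R := K) (A := FT K n) (M := FT K n))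
    (fun l => imT (N k l) • pdF K l) Finset.univ) x
  rw [Finset.sum_apply] at this
  exact this

variable {K₁ : Type} [NontriviallyNormedField K₁] [IsUltrametricDist K₁] [CompleteSpace K₁]
  [NormedAlgebra K K₁] (Γ : GD K n K₁)

omit [IsUltrametricDist K₁] [CompleteSpace K₁] in
theorem τ_tl (N : Fin g → Fin n → T K n) (k : Fin g) (x : FT K n) :
    Γ.τ (tl N k x) = ∑ l, Γ.t (N k l) * Γ.d l (Γ.τ x) := by
  rw [tl_apply, map_sum]
  exact Finset.sum_congr rfl fun l _ => by rw [map_mul, Γ.d_τ, Γ.t_apply]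

omit [CompleteSpace K₁] in
theorem tl_bound (N : Fin g → Fin n → T K n) (k : Fin g) :
    ∃ C : ℝ, 0 ≤ C ∧ ∀ x, ‖∑ l, Γ.t (N k l) * Γ.d l x‖ ≤ C * ‖x‖ := by
  refine ⟨∑ l, ‖Γ.t (N k l)‖, Finset.sum_nonneg fun l _ => norm_nonneg _, fun x => ?_⟩
  rw [Finset.sum_mul]
  refine (norm_sum_le _ _).trans (Finset.sum_le_sum fun l _ => ?_)
  rw [norm_mul]
  exact mul_le_mul_of_nonneg_left (Γ.d_le l x) (norm_nonneg _)

omit [IsUltrametricDist K₁] [CompleteSpace K₁] in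
theorem Charts_d (N : Fin g → Fin n → T K n) (k : Fin g) (x : K₁) :
    (∑ l, Γ.t (N k l) • Γ.d l) x = ∑ l, Γ.t (N k l) * Γ.d l x := by
  have := congrFun (map_sum (Derivation.coeFnAddMonoidHom (R := K) (A := K₁) (M := K₁))
    (fun l => Γ.t (N k l) • Γ.d l) Finset.univ) x
  rw [Finset.sum_apply] at this
  exact this

theorem Charts_fac {k A L Y : Type} [Field k] [Field A] [Field L] [Field Y] [Algebra k A]
    [Algebra k L] [Algebra k Y] (τ : A →ₐ[k] L) (ψ : Y →ₐ[k] L) (h : ∀ y, ∃ x, ψ y = τ x) :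
    ∃ χ : Y →ₐ[k] A, ∀ y, ψ y = τ (χ y) := by
  refine ⟨(AlgEquiv.ofInjectiveField τ).symm.toAlgHom.comp
    (ψ.codRestrict τ.range fun y => (h y).imp fun _ hx => hx.symm), fun y => ?_⟩
  exact (congrArg Subtype.val ((AlgEquiv.ofInjectiveField τ).apply_symm_apply
    ⟨ψ y, (h y).imp fun _ hx => hx.symm⟩)).symm

omit [CompleteSpace K₁] in
theorem Charts_gp {G : Sch K} [GrpObj G] [IsIntegral G.left] {ξ : Fin g → Dr G} (hξ : IsGFrame ξ)
    {N : Fin g → Fin n → T K n} (j : Fn G →ₐ[K] FT K n) (hj : ∀ k a, j (ξ k a) = tl N k (j a)) :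
    GP ξ (Γ.τ.comp j) fun k => ∑ l, Γ.t (N k l) • Γ.d l := by
  refine ⟨hξ.span', fun k => ?_, fun k a => ?_⟩
  · obtain ⟨C, -, hC⟩ := tl_bound Γ N k
    exact ⟨C, fun x => by rw [Charts_d]; exact hC x⟩
  · rw [Charts_d]
    change _ = Γ.τ (j (ξ k a))
    rw [hj, τ_tl]
    rfl

theorem Charts_pt [CompleteSpace K] {F : Type} [Field F] [Algebra K F] {B : Subalgebra K F}
    {𝒩 : ND B n} {M : Type} [Field M] [Algebra K M] (𝓜 : MI 𝒩 M) {r : ℕ} (s : Fin r → B)
    (b : Ent K (Fin r)) (h : ∃ e : B →ₐ[K] K, evE (fun i => e (s i)) b ≠ 0) :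
    ∃ γ : Ent K (Fin n), γ ≠ 0 ∧ ∀ e : B →ₐ[K] K, evE (𝒩.zv e) γ ≠ 0 →
      evE (fun i => e (s i)) b ≠ 0 := by
  obtain ⟨x, hx⟩ := 𝓜.exists_rep s b
  have h0 : x ≠ 0 := fun h0 => by
    obtain ⟨e, he⟩ := h
    exact he (hx.zero h0 e)
  obtain ⟨β, hβ, hv⟩ := 𝓜.exists_val x⁻¹
  refine ⟨β * toE 𝒩.Δ, mul_ne_zero hβ Val_ne, fun e he => ?_⟩
  rw [map_mul, evE_toE] at he
  obtain ⟨c, hc⟩ := hv e (left_ne_zero_of_mul he)
  have h1 := hc.mul (hx.val e (right_ne_zero_of_mul he))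
  rw [inv_mul_cancel₀ h0, ← map_one (algebraMap K M)] at h1
  exact right_ne_zero_of_mul_eq_one (h1.unique (𝓜.val_alg e 1))

variable [CompleteSpace K] [IsAlgClosed K] [CharZero K] {G X : Sch K} [GrpObj G]
  [IsIntegral G.left] [IsIntegral X.left] [LocallyOfFiniteType G.hom] {U : G.left.Opens}
  {𝒩 : ND (B G U) n} {M : Type} [Field M] [Algebra K M] (𝓜 : MI 𝒩 M) (φ : Fn X →ₐ[K] M)
  (ξ : Fin g → Dr G) (N : Fin g → Fin n → T K n)

/-- a chart centred at `q` -/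
structure Chart (q : G.left) where
  κ : M →ₐ[K] K₁
  χ : Fn X →ₐ[K] FT K n
  j : Fn G →ₐ[K] FT K n
  V : G.left.Opens
  aff : IsAffineOpen V
  mem : q ∈ V
  κ_φ : ∀ y, κ (φ y) = Γ.τ (χ y)
  κ_J : ∀ a, κ (𝓜.J a) = Γ.τ (j a)
  κ_hat : ∀ k x, κ (𝓜.hat (ξ k) x) = ∑ l, Γ.t (N k l) * Γ.d l (κ x)
  reg : ∀ b ∈ B G V, ∃ β : T K n, j b = imT β ∧ HasVal q b (MvPowerSeries.constantCoeff β.1)

variable {φ ξ N} {f : G.left → X.left} (hf : Mero f) (hU : IsAffineOpen U) (hg : gp G ∈ U)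
  (hφ : 𝓜.IsPhi (HVf f U) φ) (hξ : IsGFrame ξ)
include hf hU hg hφ hξ

theorem Charts_mk {q : G.left} {V : G.left.Opens} (hV : IsAffineOpen V) (hq : q ∈ V)
    (j : Fn G →ₐ[K] FT K n) (hj : ∀ k a, j (ξ k a) = tl N k (j a))
    (reg : ∀ b ∈ B G V, ∃ β : T K n, j b = imT β ∧ HasVal q b (MvPowerSeries.constantCoeff β.1)) :
    ∃ c : Chart Γ 𝓜 φ ξ N q, c.j = j ∧
      ∀ b, c.κ (𝓜.E b) = evE (fun l => c.κ (𝓜.J (𝒩.z l))) b := by
  have hGP := Charts_gp Γ hξ j hj
  obtain ⟨κ, hJ, hE, hh⟩ := exists_kap 𝓜 hGP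
  have key : ∀ y, ∃ x, κ.comp φ y = Γ.τ x := by
    intro y
    obtain ⟨r, s, a, b, h⟩ := exists_repOn hf hV (gp_mem hq) y
    choose β hβ _ using fun i => reg (s i) (s i).2
    obtain ⟨α, hα, -⟩ := Γ.evT a β
    obtain ⟨δ, hδ, -⟩ := Γ.evT b β
    have e1 : (fun i => Γ.t (β i)) = fun i => Γ.τ.comp j (s i) := by
      funext i
      rw [Γ.t_apply, ← hβ]
      rfl
    rw [e1] at hα hδ
    have h0 := rep_ne hGP hV (gp_mem hq) h
    have h1 := kap_phi 𝓜 hf hU hg hφ hGP hJ hE hV (gp_mem hq) h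
    rw [← hδ] at h0 h1
    rw [← hα] at h1
    refine ⟨imT α / imT δ, ?_⟩
    rw [map_div₀, ← Γ.t_apply, ← Γ.t_apply, eq_div_iff h0]
    exact h1
  obtain ⟨χ, hχ⟩ := Charts_fac Γ.τ (κ.comp φ) key
  exact ⟨⟨κ, χ, j, V, hV, hq, hχ, hJ, fun k x => (hh k x).trans (Charts_d Γ N k _), reg⟩, rfl, hE⟩

theorem exists_charts (Y : Finset (Fn X)) : ∃ N : Fin g → Fin n → T K n,
    (∀ q, IsClosed ({q} : Set G.left) → Nonempty (Chart Γ 𝓜 φ ξ N q)) ∧
    ∃ (q : G.left) (c : Chart Γ 𝓜 φ ξ N q) (C : Fin n → Fin g → FT K n),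
      (∀ y ∈ Y, c.χ y ∈ O₀ K n) ∧ (∀ l k, C l k ∈ O₀ K n) ∧
      ∀ l i, ∑ k, C l k * imT (N k i) = if l = i then 1 else 0 := by
  classical
  obtain ⟨C, hC, -⟩ := 𝓜.pd_hat ξ hξ.span'
  choose r s a b hr using fun y => exists_repOn hf hU hg y
  choose γ hγ0 hγ using fun y => Charts_pt 𝓜 (s y) (b y) (hr y).ne
  choose δ hδ0 hδ using fun lk : Fin n × Fin g => 𝒩.frac (C lk.1 lk.2)
  have hne : (toE 𝒩.Δ * (∏ y ∈ Y, γ y) * ∏ lk, toE (δ lk) : Ent K (Fin n)) ≠ 0 := by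
    refine mul_ne_zero (mul_ne_zero Val_ne (Finset.prod_ne_zero_iff.2 fun y _ => hγ0 y))
      (Finset.prod_ne_zero_iff.2 fun lk _ => ?_)
    exact (map_ne_zero_iff _ toE_inj).2 (hδ0 lk)
  obtain ⟨e, he⟩ := MI.exists_point (𝒩 := 𝒩) hne
  rw [map_mul, map_mul, map_prod, map_prod] at he
  have he1 := left_ne_zero_of_mul (left_ne_zero_of_mul he)
  have he2 := Finset.prod_ne_zero_iff.1 (right_ne_zero_of_mul (left_ne_zero_of_mul he))
  have he3 := Finset.prod_ne_zero_iff.1 (right_ne_zero_of_mul he)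
  rw [evE_toE] at he1
  obtain ⟨lam, j₀, hreg, hlam, hder⟩ := exists_chart 𝒩 e he1
  choose β hβ _ using fun (k : Fin g) (l : Fin n) =>
    hreg ⟨ξ k (𝒩.z l), hξ.memB U k _ (𝒩.z_mem l)⟩
  have hN : ∀ k l, imT (lam⁻¹ • β k l) = lam⁻¹ • j₀ (ξ k (𝒩.z l)) := by
    intro k l
    rw [show j₀ (ξ k (𝒩.z l)) = imT (β k l) from hβ k l]
    exact map_smul (IsScalarTower.toAlgHom K (T K n) (FT K n)) _ _
  have hj₀ : ∀ k a, j₀ (ξ k a) = tl (fun k l => lam⁻¹ • β k l) k (j₀ a) := by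
    intro k a
    rw [tl_apply, hder]
    exact Finset.sum_congr rfl fun l _ => by rw [hN]
  obtain ⟨p, hp, hpc, hpv⟩ := lft_point hU hg e
  refine ⟨fun k l => lam⁻¹ • β k l, fun q hq => ?_, ?_⟩
  · obtain ⟨P, rfl⟩ := lft_pt hpc
    obtain ⟨Q, rfl⟩ := lft_pt hq
    obtain ⟨y, hy⟩ := exists_tr Q P
    obtain ⟨V, hV, hV1, hV2⟩ := tr_open y hU
    have hqV : pt Q ∈ V := hy ▸ hV1 _ hp
    obtain ⟨c, -⟩ := Charts_mk Γ 𝓜 (N := fun k l => lam⁻¹ • β k l) hf hU hg hφ hξ hV hqV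
      (j₀.comp (pbF (grp_dom_iso (tr y)))) (fun k a => by
        change j₀ (pb (tr y) (ξ k a)) = tl _ k (j₀ (pb (tr y) a))
        rw [← hξ.tr, hj₀]) (fun b hb => by
        obtain ⟨β', h1, h2⟩ := hreg ⟨_, hV2 b hb⟩
        refine ⟨β', h1, ?_⟩
        rw [h2, ← hy]
        exact (hasVal_pb (tr y) _).1 (hpv ⟨_, hV2 b hb⟩))
    exact ⟨c⟩
  · obtain ⟨c, hcj, hE⟩ := Charts_mk Γ 𝓜 (N := fun k l => lam⁻¹ • β k l) hf hU hg hφ hξ hU hp
      j₀ hj₀ (fun b hb => by
        obtain ⟨β', h1, h2⟩ := hreg ⟨b, hb⟩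
        exact ⟨β', h1, h2 ▸ hpv ⟨b, hb⟩⟩)
    have hGP := Charts_gp Γ hξ j₀ hj₀
    refine ⟨p, c, fun l k => lam • j₀ (C l k), fun y hy => ?_, fun l k => ?_, fun l i => ?_⟩
    · choose σ hσ hσ' using fun i => hreg (s y i)
      obtain ⟨α, hα, -⟩ := Γ.evT (a y) σ
      obtain ⟨ε, hε, hε'⟩ := Γ.evT (b y) σ
      have e1 : (fun i => Γ.t (σ i)) = fun i => Γ.τ.comp j₀ (s y i) := by
        funext i
        rw [Γ.t_apply, ← hσ]
        rfl
      rw [e1] at hα hε
      have h1 := kap_phi 𝓜 hf hU hg hφ hGP (κ := c.κ) (fun x => by rw [c.κ_J, hcj]; rfl) hE hU hg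
        (hr y)
      rw [← hε, ← hα, c.κ_φ, Γ.t_apply, Γ.t_apply, ← map_mul] at h1
      refine mem_O₀.2 ⟨α, ε, ?_, by rw [mul_comm]; exact Γ.τ.toRingHom.injective h1⟩
      rw [hε', funext hσ']
      exact hγ y e (he2 y hy)
    · refine Subalgebra.smul_mem _ ?_ _
      obtain ⟨u, hu, hu'⟩ := hreg ⟨_, 𝒩.ae_mem (δ (l, k))⟩
      obtain ⟨v, hv, -⟩ := hreg ⟨_, hδ (l, k)⟩
      refine mem_O₀.2 ⟨v, u, ?_, ?_⟩
      · rw [hu', 𝒩.map_ae, ← evE_toE]
        exact he3 (l, k) (Finset.mem_univ _)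
      · rw [← hu, ← hv, ← map_mul]
    · have h1 := congrArg j₀ (hC l i)
      rw [map_sum] at h1
      rw [show (if l = i then 1 else 0 : FT K n) = j₀ (if l = i then 1 else 0) by
        split_ifs <;> simp, ← h1]
      refine Finset.sum_congr rfl fun k _ => ?_
      rw [hN, map_mul, smul_mul_smul_comm, mul_inv_cancel₀ hlam, one_smul]

end Pool.Agent.Work.MP_e120ef_ag.H
end
end

-- merged part: Pool.Agent.Work.MP_e120ef_ag.C.BMI
section
-- merged part: Pool.Agent.Work.MP_e120ef_ag.C.BCs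
section
/-!
# Extension of the ground field: series

Plans.  `map_res`: `coeff_map`, `norm_algebraMap'`.  `bE_pdE`, `bT_pdT`: `coeff_pderiv`, `coeff_map`.  `bE_toE`: `MvPolynomial.coeff_coe`, `MvPolynomial.coeff_map`.  `evE_bE`: `tsum_congr`, `IsScalarTower.algebraMap_apply`.
`bF_pdF`: `FT_rep`, `Derivation.leibniz_div`, `pdF_im`.  `bF_tl`: `tl_apply`.
-/

open MvPowerSeries

namespace Pool.Agent.Work.MP_e120ef_ag.H.CS

variable {K : Type} [NontriviallyNormedField K] [IsUltrametricDist K] (Kh : Type)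
  [NontriviallyNormedField Kh] [IsUltrametricDist Kh] [NormedAlgebra K Kh] {σ : Type} {n g : ℕ}

omit [IsUltrametricDist K] [IsUltrametricDist Kh] in
theorem map_res {c : σ → ℝ} {F : MvPowerSeries σ K} (h : IsRestricted c F) :
    IsRestricted c (map (algebraMap K Kh) F) := by
  simpa only [IsRestricted, coeff_map, norm_algebraMap'] using h

omit [IsUltrametricDist K] [IsUltrametricDist Kh] in
theorem BCs_inj : Function.Injective (map (σ := σ) (algebraMap K Kh)) := fun F G h => by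
  ext I
  refine (algebraMap K Kh).injective ?_
  rw [← coeff_map, ← coeff_map, h]

omit [IsUltrametricDist K] [IsUltrametricDist Kh] in
theorem BCs_pd (l : σ) (F : MvPowerSeries σ K) :
    map (algebraMap K Kh) (pderiv K l F) = pderiv Kh l (map (algebraMap K Kh) F) := by
  ext I
  simp only [coeff_map, coeff_pderiv, map_mul, map_add, map_natCast, map_one]

/-- extension of the coefficients -/
noncomputable def bS (S : Subalgebra K (MvPowerSeries σ K)) (S' : Subalgebra Kh (MvPowerSeries σ Kh))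
    (h : ∀ F ∈ S, map (algebraMap K Kh) F ∈ S') : S →ₐ[K] S' where
  toFun F := ⟨map (algebraMap K Kh) F.1, h F F.2⟩
  map_one' := Subtype.ext (map_one (map (σ := σ) (algebraMap K Kh)))
  map_mul' F G := Subtype.ext (map_mul (map (σ := σ) (algebraMap K Kh)) F.1 G.1)
  map_zero' := Subtype.ext (map_zero (map (σ := σ) (algebraMap K Kh)))
  map_add' F G := Subtype.ext (map_add (map (σ := σ) (algebraMap K Kh)) F.1 G.1)
  commutes' c := Subtype.ext ((map_C (σ := σ) (algebraMap K Kh) c).trans (by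
    rw [IsScalarTower.algebraMap_apply K Kh S']
    rfl))

/-- on entire series -/
noncomputable def bE : Ent K σ →ₐ[K] Ent Kh σ := bS Kh _ _ fun _ h c => map_res Kh (h c)

/-- on the Tate algebra -/
noncomputable def bT : T K n →ₐ[K] T Kh n := bS Kh _ _ fun _ h => map_res Kh h

theorem bE_val (F : Ent K σ) : (bE Kh F).1 = map (algebraMap K Kh) F.1 := rfl

theorem bT_val (F : T K n) : (bT Kh F).1 = map (algebraMap K Kh) F.1 := rfl

theorem bE_inj : Function.Injective (bE Kh : Ent K σ → Ent Kh σ) := by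
  exact fun F G h => Subtype.ext (BCs_inj Kh (congrArg Subtype.val h))

theorem bT_inj : Function.Injective (bT Kh : T K n → T Kh n) := by
  exact fun F G h => Subtype.ext (BCs_inj Kh (congrArg Subtype.val h))

theorem bE_toE (P : MvPolynomial σ K) :
    bE Kh (toE P) = toE (MvPolynomial.map (algebraMap K Kh) P) := by
  refine Subtype.ext (MvPowerSeries.ext fun I => ?_)
  rw [bE_val, toE_val, toE_val, coeff_map, MvPolynomial.coeff_coe, MvPolynomial.coeff_coe,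
    MvPolynomial.coeff_map]

theorem bE_pdE (l : σ) (F : Ent K σ) : bE Kh (pdE K l F) = pdE Kh l (bE Kh F) := by
  exact Subtype.ext (BCs_pd Kh l F.1)

theorem bT_pdT (l : Fin n) (F : T K n) : bT Kh (pdT K l F) = pdT Kh l (bT Kh F) := by
  exact Subtype.ext (BCs_pd Kh l F.1)

theorem cc_bT (F : T K n) : constantCoeff (bT Kh F).1 = algebraMap K Kh (constantCoeff F.1) := by
  rw [bT_val, constantCoeff_map]

theorem evE_bE {L : Type} [NontriviallyNormedField L] [IsUltrametricDist L] [CompleteSpace L]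
    [NormedAlgebra K L] [NormedAlgebra Kh L] [IsScalarTower K Kh L] (z : σ → L) (a : Ent K σ) :
    evE z (bE Kh a) = evE z a := by
  rw [evE_apply, evE_apply, ev, ev]
  refine tsum_congr fun I => ?_
  rw [bE_val, coeff_map, ← IsScalarTower.algebraMap_apply]

theorem exists_bF : ∃ b : FT K n →ₐ[K] FT Kh n, ∀ F, b (imT F) = imT (bT Kh F) := by
  have h : Function.Injective
      (((IsScalarTower.toAlgHom Kh (T Kh n) (FT Kh n)).restrictScalars K).comp (bT Kh)) :=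
    imT_inj.comp (bT_inj Kh)
  exact ⟨IsFractionRing.liftAlgHom h, fun F => IsFractionRing.lift_algebraMap h F⟩

/-- on the fractions -/
noncomputable def bF : FT K n →ₐ[K] FT Kh n := (exists_bF Kh).choose

theorem bF_im (F : T K n) : bF (K := K) (n := n) Kh (imT F) = imT (bT Kh F) := (exists_bF Kh).choose_spec F

theorem bF_pdF (l : Fin n) (x : FT K n) : bF (K := K) (n := n) Kh (pdF K l x) = pdF Kh l (bF (K := K) (n := n) Kh x) := by
  obtain ⟨a, b, -, rfl⟩ := FT_rep x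
  simp only [map_div₀, Derivation.leibniz_div, smul_eq_mul, map_mul, map_sub, map_pow, map_inv₀,
    bF_im, pdF_im, bT_pdT]

theorem bF_tl (N : Fin g → Fin n → T K n) (i : Fin g) (x : FT K n) :
    bF (K := K) (n := n) Kh (tl N i x) = tl (fun i l => bT Kh (N i l)) i (bF (K := K) (n := n) Kh x) := by
  simp only [tl_apply, map_sum, map_mul, bF_im, bF_pdF]

end Pool.Agent.Work.MP_e120ef_ag.H.CS
end

-- merged part: Pool.Agent.Work.MP_e120ef_ag.C.BND
section
/-!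
# Extension of the ground field: the cover

Plans.  `irr_base`: by Gauss (`Polynomial.Monic.irreducible_iff_irreducible_map_fraction_map`) it suffices to treat factorisations `m.map = f * g` into monic polynomials over `MvPolynomial σ Kh` (`Polynomial.Monic.irreducible_iff_natDegree'`).  Let `R` be the `K`-subalgebra of `Kh` generated by the finitely many coefficients of the coefficients of `f`, `g`; lift `f`, `g` to monic polynomials of the same degrees over `MvPolynomial σ R`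
(`Polynomial.lifts_and_natDegree_eq_and_monic`, `MvPolynomial.mem_range_map_iff_coeffs_subset`; the maps are injective) and apply `e : R →ₐ[K] K` (`GG_hom` with `a = 0`).
`exists_BC`: `MI_adj` (`H/MI.lean`) with `A = MvPolynomial (Fin n) Kh`, `p = m.map ..` gives `F'`, `E`, `t`; `z' l = E (X l)`, so `E = aeval z'`.  `Algebra K F'` through `Kh`.  `β` from `𝒩.lift` (`z'` is independent over `Kh`, hence over `K`; `MvPolynomial.aeval_map_algebraMap`).
`B' = {∑ k, aeval z' (γ k) * β (e k)}`, a subalgebra because `e k * e l` and `1` are in `B` (`gen`); it contains `β b`, `b ∈ B`.  `den` by linearity from `𝒩.den (e k)`; `frac` from `nf`; `tb` from `nf` (`MI_alg`, or as in `exists_ND`).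
`BC.lift`: `𝒩'.lift`; two `K`-algebra maps on `F` which agree on `z`, `θ` agree (`frac`, `den`, `ND.ND_hom`).
`BC.der`: `exists_der_ext (Algebra.ofId Kh F') 0 z' _ (fun l => β (ξ (z l)))`, then `der_along 𝒩.tb`.  `BC.memB`: `gen`, `EntD_chain`, `ae_mem`.  `BC.span`: `Der_dual` gives `C`; `c i = ∑ l, D (z' l) * β (C l i)`; `der_unique` with `𝒩'.tb`.
-/

open Polynomial

namespace Pool.Agent.Work.MP_e120ef_ag.H.CS

variable {K : Type} [Field K] (Kh : Type) [Field Kh] [Algebra K Kh]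

theorem BND_fin {σ : Type} (f : (MvPolynomial σ Kh)[X]) :
    ∃ s : Finset Kh, ∀ i, ((f.coeff i).coeffs : Set Kh) ⊆ s := by
  classical
  refine ⟨f.support.biUnion fun i => (f.coeff i).coeffs, fun i c hc => ?_⟩
  by_cases h : i ∈ f.support
  · exact Finset.mem_coe.2 (Finset.mem_biUnion.2 ⟨i, h, hc⟩)
  · rw [notMem_support_iff.1 h] at hc
    simp at hc

theorem BND_lift {σ : Type} (R : Subalgebra K Kh) {f : (MvPolynomial σ Kh)[X]} (hf : f.Monic)
    (h : ∀ i, ((f.coeff i).coeffs : Set Kh) ⊆ R) : ∃ q : (MvPolynomial σ R)[X],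
      q.map (MvPolynomial.map (algebraMap R Kh)) = f ∧ q.natDegree = f.natDegree ∧ q.Monic :=
  lifts_and_natDegree_eq_and_monic ((lifts_iff_coeff_lifts _).2 fun i =>
    MvPolynomial.mem_range_map_iff_coeffs_subset.2 fun c hc => ⟨⟨c, h i hc⟩, rfl⟩) hf

theorem irr_base [IsAlgClosed K] {σ : Type} {m : (MvPolynomial σ K)[X]} (hm : m.Monic)
    (h : Irreducible (m.map (algebraMap _ (FractionRing (MvPolynomial σ K))))) :
    Irreducible ((m.map (MvPolynomial.map (algebraMap K Kh))).map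
      (algebraMap _ (FractionRing (MvPolynomial σ Kh)))) := by
  classical
  have hm' : (m.map (MvPolynomial.map (algebraMap K Kh))).Monic := hm.map _
  obtain ⟨h1, h2⟩ := hm.irreducible_iff_natDegree.1
    (hm.irreducible_iff_irreducible_map_fraction_map.2 h)
  refine hm'.irreducible_iff_irreducible_map_fraction_map.1
    (hm'.irreducible_iff_natDegree.2 ⟨fun e => h1 ?_, fun f g hf hg e => ?_⟩)
  · rw [← hm.natDegree_eq_zero, ← hm.natDegree_map (MvPolynomial.map (algebraMap K Kh)), e,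
      natDegree_one]
  · obtain ⟨s, hs⟩ := BND_fin Kh f
    obtain ⟨t, ht⟩ := BND_fin Kh g
    obtain ⟨R, hR⟩ : ∃ R, R = Algebra.adjoin K ((s ∪ t : Finset Kh) : Set Kh) := ⟨_, rfl⟩
    have hsub : ((s ∪ t : Finset Kh) : Set Kh) ⊆ R := hR ▸ Algebra.subset_adjoin
    have : Algebra.FiniteType K R :=
      (Subalgebra.fg_iff_finiteType _).1 (hR ▸ Subalgebra.fg_adjoin_finset _)
    obtain ⟨f', f1, f2, f3⟩ := BND_lift Kh R hf fun i =>
      ((hs i).trans (Finset.coe_subset.2 Finset.subset_union_left)).trans hsub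
    obtain ⟨g', g1, g2, g3⟩ := BND_lift Kh R hg fun i =>
      ((ht i).trans (Finset.coe_subset.2 Finset.subset_union_right)).trans hsub
    obtain ⟨ε, -⟩ := GG_hom (K := K) (R := R) (a := 0) not_isUnit_zero
    have e1 : f' * g' = m.map (MvPolynomial.map (algebraMap K R)) := by
      refine map_injective (MvPolynomial.map (algebraMap R Kh))
        (MvPolynomial.map_injective _ Subtype.val_injective) ?_
      rw [Polynomial.map_mul, f1, g1, e, Polynomial.map_map]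
      congr 1
      exact RingHom.ext fun γ => by
        rw [RingHom.comp_apply, MvPolynomial.map_map, ← IsScalarTower.algebraMap_eq]
    have e2 := congrArg (Polynomial.map (MvPolynomial.map (σ := σ) (ε : R →+* K))) e1
    have e3 : (MvPolynomial.map (σ := σ) (ε : R →+* K)).comp (MvPolynomial.map (algebraMap K R)) =
        RingHom.id _ := RingHom.ext fun γ => by
      rw [RingHom.comp_apply, MvPolynomial.map_map, AlgHom.comp_algebraMap, Algebra.algebraMap_self,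
        MvPolynomial.map_id, RingHom.id_apply]
    rw [Polynomial.map_mul, Polynomial.map_map, e3, Polynomial.map_id] at e2
    have := h2 _ _ (f3.map _) (g3.map _) e2
    rwa [f3.natDegree_map, g3.natDegree_map, f2, g2] at this

variable {F : Type} [Field F] [Algebra K F] {B : Subalgebra K F} {n : ℕ} (𝒩 : ND B n)

/-- the cover over the larger field -/
structure BC (F' : Type) [Field F'] [Algebra Kh F'] [Algebra K F'] where
  B' : Subalgebra Kh F'
  𝒩' : ND B' n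
  β : F →ₐ[K] F'
  β_z : ∀ l, β (𝒩.z l) = 𝒩'.z l
  β_θ : β 𝒩.θ = 𝒩'.θ
  m_eq : 𝒩'.m = 𝒩.m.map (MvPolynomial.map (algebraMap K Kh))
  Δ_eq : 𝒩'.Δ = MvPolynomial.map (algebraMap K Kh) 𝒩.Δ
  β_B : ∀ b ∈ B, β b ∈ B'
  gen : ∀ b ∈ B', ∃ γ : Fin 𝒩.N → MvPolynomial (Fin n) Kh,
    b = ∑ k, MvPolynomial.aeval 𝒩'.z (γ k) * β (𝒩.e k)

section aux

variable {F' : Type} [Field F'] [Algebra Kh F'] [Algebra K F'] [IsScalarTower K Kh F']

theorem BND_ae (β : F →ₐ[K] F') {z : Fin n → F} {z' : Fin n → F'} (hz : ∀ l, β (z l) = z' l)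
    (γ : MvPolynomial (Fin n) K) : β (MvPolynomial.aeval z γ) =
      MvPolynomial.aeval z' (MvPolynomial.map (algebraMap K Kh) γ) := by
  rw [MvPolynomial.aeval_map_algebraMap, ← funext hz]
  exact MvPolynomial.comp_aeval_apply z β γ

theorem BND_map (z' : Fin n → F') (x : F') (Q : (MvPolynomial (Fin n) K)[X]) :
    (Q.map (MvPolynomial.map (algebraMap K Kh))).eval₂ (ND.ae (K := Kh) z') x =
      Q.eval₂ (ND.ae (K := K) z') x := by
  rw [eval₂_map]
  congr 1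
  exact RingHom.ext fun γ => MvPolynomial.aeval_map_algebraMap Kh z' γ

theorem BND_ev (β : F →ₐ[K] F') {z : Fin n → F} {z' : Fin n → F'} (hz : ∀ l, β (z l) = z' l)
    (x : F) (Q : (MvPolynomial (Fin n) K)[X]) : β (Q.eval₂ (ND.ae z) x) =
      (Q.map (MvPolynomial.map (algebraMap K Kh))).eval₂ (ND.ae (K := Kh) z') (β x) := by
  rw [BND_map, ND.ND_hom, funext hz]

theorem BND_sub (β : F →ₐ[K] F') {z' : Fin n → F'} (hz : ∀ l, β (𝒩.z l) = z' l) :
    ∃ B' : Subalgebra Kh F', (∀ b ∈ B, β b ∈ B') ∧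
      ∀ b ∈ B', ∃ γ : Fin 𝒩.N → MvPolynomial (Fin n) Kh,
        b = ∑ k, MvPolynomial.aeval z' (γ k) * β (𝒩.e k) := by
  let S : AddSubmonoid F' :=
    { carrier := {b | ∃ γ : Fin 𝒩.N → MvPolynomial (Fin n) Kh,
        b = ∑ k, MvPolynomial.aeval z' (γ k) * β (𝒩.e k)}
      add_mem' := by
        rintro _ _ ⟨γ, rfl⟩ ⟨δ, rfl⟩
        exact ⟨fun k => γ k + δ k, by simp only [map_add, add_mul, Finset.sum_add_distrib]⟩
      zero_mem' := ⟨0, by simp⟩ }
  have h1 : ∀ b ∈ B, β b ∈ S := fun b hb => by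
    obtain ⟨γ, rfl⟩ := 𝒩.gen b hb
    refine ⟨fun k => MvPolynomial.map (algebraMap K Kh) (γ k), ?_⟩
    rw [map_sum]
    exact Finset.sum_congr rfl fun k _ => by rw [map_mul, BND_ae Kh β hz]
  have h2 : ∀ (a : MvPolynomial (Fin n) Kh), ∀ b ∈ S, MvPolynomial.aeval z' a * b ∈ S := by
    rintro a _ ⟨γ, rfl⟩
    exact ⟨fun k => a * γ k, by simp only [map_mul, mul_assoc, Finset.mul_sum]⟩
  refine ⟨{ carrier := S
            add_mem' := S.add_mem
            mul_mem' := ?_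
            algebraMap_mem' := fun c => ?_ }, h1, fun b hb => hb⟩
  · rintro _ _ ⟨γ, rfl⟩ ⟨δ, rfl⟩
    rw [Finset.sum_mul_sum]
    refine S.sum_mem fun k _ => S.sum_mem fun l _ => ?_
    have := h2 (γ k * δ l) _ (h1 _ (B.mul_mem (𝒩.e_mem k) (𝒩.e_mem l)))
    rw [map_mul, map_mul, mul_mul_mul_comm] at this
    exact this
  · have := h2 (MvPolynomial.C c) _ (h1 1 B.one_mem)
    rw [map_one, mul_one, MvPolynomial.aeval_C] at this
    exact this

theorem BND_core [IsAlgClosed K] {z' : Fin n → F'} {t : F'} (ind : AlgebraicIndependent Kh z')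
    (nf : ∀ x : F', ∃ (Q : (MvPolynomial (Fin n) Kh)[X]) (γ : MvPolynomial (Fin n) Kh), γ ≠ 0 ∧
      MvPolynomial.aeval z' γ * x = Q.eval₂ (ND.ae z') t)
    (ht : (𝒩.m.map (MvPolynomial.map (algebraMap K Kh))).eval₂ (ND.ae z') t = 0) :
    Nonempty (BC Kh 𝒩 F') := by
  obtain ⟨β, hz, hθ⟩ := 𝒩.lift (ϑ := t) (ind.restrictScalars (algebraMap K Kh).injective)
    (by rwa [BND_map] at ht)
  obtain ⟨B', h1, h2⟩ := BND_sub Kh 𝒩 β hz
  have hz' : ∀ l, z' l ∈ B' := fun l => hz l ▸ h1 _ (𝒩.z_mem l)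
  have hθ' : t ∈ B' := hθ ▸ h1 _ 𝒩.θ_mem
  have ha : ∀ γ : MvPolynomial (Fin n) Kh, MvPolynomial.aeval z' γ ∈ B' := fun γ => by
    induction γ using MvPolynomial.induction_on with
    | C a => rw [MvPolynomial.aeval_C]; exact B'.algebraMap_mem a
    | add p q hp hq => rw [map_add]; exact B'.add_mem hp hq
    | mul_X p l hp => rw [map_mul, MvPolynomial.aeval_X]; exact B'.mul_mem hp (hz' l)
  refine ⟨⟨B', ⟨z', t, 𝒩.m.map (MvPolynomial.map (algebraMap K Kh)),
    MvPolynomial.map (algebraMap K Kh) 𝒩.Δ, 𝒩.N, fun k => β (𝒩.e k), hz', hθ',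
    fun k => h1 _ (𝒩.e_mem k), ?_, 𝒩.monic.map _, irr_base Kh 𝒩.monic 𝒩.irr, ht, ?_, ?_,
    fun b hb => ?_, h2, fun x => ?_⟩, β, hz, hθ, rfl, rfl, h1, h2⟩⟩
  · refine ind.isTranscendenceBasis_iff_isAlgebraic.2 ⟨fun x => ?_⟩
    let _ : Algebra (MvPolynomial (Fin n) Kh) F' := (ND.ae z').toAlgebra
    let _ : Algebra (MvPolynomial (Fin n) Kh) (Algebra.adjoin Kh (Set.range z')) :=
      ind.aevalEquiv.toRingEquiv.toRingHom.toAlgebra
    have _ : IsScalarTower (MvPolynomial (Fin n) Kh) (Algebra.adjoin Kh (Set.range z')) F' :=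
      .of_algebraMap_eq fun _ => rfl
    obtain ⟨Q, γ, hγ, e⟩ := nf x
    exact IsAlgebraic.extendScalars (R := MvPolynomial (Fin n) Kh) ind.aevalEquiv.injective
      (MI_alg (𝒩.monic.map _) (MvPolynomial.aeval z') ind t ht hγ e)
  · exact (map_ne_zero_iff _ (MvPolynomial.map_injective _ (algebraMap K Kh).injective)).2 𝒩.Δ_ne
  · obtain ⟨a, b, hab⟩ := 𝒩.bez
    refine ⟨a.map (MvPolynomial.map (algebraMap K Kh)), b.map (MvPolynomial.map (algebraMap K Kh)),
      ?_⟩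
    rw [derivative_map, ← Polynomial.map_mul, ← Polynomial.map_mul, ← Polynomial.map_add, hab,
      map_C]
  · obtain ⟨γ, rfl⟩ := h2 b hb
    choose Q hQ using fun k => 𝒩.den _ (𝒩.e_mem k)
    refine ⟨∑ k, C (γ k) * (Q k).map (MvPolynomial.map (algebraMap K Kh)), ?_⟩
    rw [eval₂_finsetSum, Finset.mul_sum]
    refine Finset.sum_congr rfl fun k _ => ?_
    rw [eval₂_mul, eval₂_C, ← hθ, ← BND_ev Kh β hz, ← hQ, map_mul, BND_ae Kh β hz, mul_left_comm]
    rfl
  · obtain ⟨Q, γ, hγ, e⟩ := nf x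
    refine ⟨γ, hγ, ?_⟩
    rw [e, eval₂_eq_sum_range]
    exact B'.sum_mem fun i _ => B'.mul_mem (ha _) (B'.pow_mem hθ' i)

end aux

theorem BND_ext {N : Type} [Field N] [Algebra K N] {φ ψ : F →ₐ[K] N}
    (hz : ∀ l, φ (𝒩.z l) = ψ (𝒩.z l)) (hθ : φ 𝒩.θ = ψ 𝒩.θ) (a : F) : φ a = ψ a := by
  obtain ⟨γ, hγ, hb⟩ := 𝒩.frac a
  obtain ⟨Q, hQ⟩ := 𝒩.den _ hb
  rw [← mul_assoc, ← map_mul] at hQ
  have h1 := congrArg φ hQ
  have h2 := congrArg ψ hQ
  have h3 : φ (MvPolynomial.aeval 𝒩.z (𝒩.Δ * γ)) = ψ (MvPolynomial.aeval 𝒩.z (𝒩.Δ * γ)) := by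
    rw [BND_ae K φ hz, BND_ae K ψ fun _ => rfl]
  rw [map_mul, ND.ND_hom, funext hz, hθ, h3] at h1
  rw [map_mul, ND.ND_hom, ← h1] at h2
  refine (mul_left_cancel₀ ?_ h2).symm
  exact (_root_.map_ne_zero ψ).2 ((map_ne_zero_iff _ 𝒩.tb.1).2 (mul_ne_zero 𝒩.Δ_ne hγ))

theorem exists_BC [IsAlgClosed K] : ∃ (F' : Type) (_ : Field F') (_ : Algebra Kh F')
    (_ : Algebra K F') (_ : IsScalarTower K Kh F'), Nonempty (BC Kh 𝒩 F') := by
  obtain ⟨F', _, _, E, t, hE, nf, -, ht⟩ :=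
    MI_adj (K := Kh) (𝒩.monic.map (MvPolynomial.map (algebraMap K Kh)))
      (irr_base Kh 𝒩.monic 𝒩.irr)
  let _ : Algebra K F' := ((algebraMap Kh F').comp (algebraMap K Kh)).toAlgebra
  have _ : IsScalarTower K Kh F' := .of_algebraMap_eq fun _ => rfl
  have h1 : (MvPolynomial.aeval fun l => E (MvPolynomial.X l)) = E :=
    MvPolynomial.algHom_ext fun l => MvPolynomial.aeval_X _ _
  refine ⟨F', inferInstance, inferInstance, inferInstance, inferInstance,
    BND_core Kh 𝒩 (z' := fun l => E (MvPolynomial.X l)) (t := t) ?_ ?_ ?_⟩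
  · rw [algebraicIndependent_iff_injective_aeval, h1]
    exact hE
  · rw [ND.ae, h1]
    exact nf
  · rw [ND.ae, h1]
    exact ht

variable {Kh 𝒩} {F' : Type} [Field F'] [Algebra Kh F'] [Algebra K F'] [IsScalarTower K Kh F']
  (b : BC Kh 𝒩 F')

theorem BC.β_ae (γ : MvPolynomial (Fin n) K) : b.β (MvPolynomial.aeval 𝒩.z γ) =
    MvPolynomial.aeval b.𝒩'.z (MvPolynomial.map (algebraMap K Kh) γ) := by
  exact BND_ae Kh b.β b.β_z γ

theorem BC.lift {N : Type} [Field N] [Algebra Kh N] [Algebra K N] [IsScalarTower K Kh N]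
    (j : F →ₐ[K] N) (h : AlgebraicIndependent Kh fun l => j (𝒩.z l)) :
    ∃ j' : F' →ₐ[Kh] N, ∀ a, j' (b.β a) = j a := by
  obtain ⟨j', h1, h2⟩ := b.𝒩'.lift h (ϑ := j 𝒩.θ) (by
    rw [b.m_eq, ← BND_ev Kh j fun _ => rfl, 𝒩.root, map_zero])
  exact ⟨j', BND_ext 𝒩 (φ := (j'.restrictScalars K).comp b.β)
    (fun l => (congrArg j' (b.β_z l)).trans (h1 l)) ((congrArg j' b.β_θ).trans h2)⟩

variable [CharZero K]

theorem BC.der (ξ : Derivation K F F) : ∃ ξ' : Derivation Kh F' F', ∀ a, ξ' (b.β a) = b.β (ξ a) := by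
  have : CharZero Kh := charZero_of_injective_algebraMap (algebraMap K Kh).injective
  obtain ⟨D, -, hD⟩ := exists_der_ext (Algebra.ofId Kh F') 0 b.𝒩'.z
    (algebraicIndependent_iff.1 b.𝒩'.tb.1) fun l => b.β (ξ (𝒩.z l))
  refine ⟨D, fun a => sub_eq_zero.mp (der_along 𝒩.tb b.β
    ((D.toLinearMap.restrictScalars K).comp b.β.toLinearMap -
      b.β.toLinearMap.comp ξ.toLinearMap) (fun a c => ?_) (fun i => ?_) a)⟩
  · simp only [LinearMap.sub_apply, LinearMap.comp_apply, AlgHom.toLinearMap_apply,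
      LinearMap.restrictScalars_apply, Derivation.coeFn_coe, map_mul, Derivation.leibniz,
      smul_eq_mul, map_add]
    ring
  · simp only [LinearMap.sub_apply, LinearMap.comp_apply, AlgHom.toLinearMap_apply,
      LinearMap.restrictScalars_apply, Derivation.coeFn_coe, b.β_z, hD, sub_self]

theorem BC.memB {ξ : Derivation K F F} {ξ' : Derivation Kh F' F'}
    (h : ∀ a, ξ' (b.β a) = b.β (ξ a)) (hξ : ∀ y ∈ B, ξ y ∈ B) : ∀ y ∈ b.B', ξ' y ∈ b.B' := by
  intro y hy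
  obtain ⟨γ, rfl⟩ := b.gen y hy
  rw [map_sum]
  refine b.B'.sum_mem fun k _ => ?_
  rw [Derivation.leibniz, smul_eq_mul, smul_eq_mul, h, EntD_chain]
  refine b.B'.add_mem (b.B'.mul_mem (b.𝒩'.ae_mem _) (b.β_B _ (hξ _ (𝒩.e_mem k))))
    (b.B'.mul_mem (b.β_B _ (𝒩.e_mem k)) (b.B'.sum_mem fun l _ =>
      b.B'.mul_mem (b.𝒩'.ae_mem _) ?_))
  rw [← b.β_z, h]
  exact b.β_B _ (hξ _ (𝒩.z_mem l))

theorem BC.span {g : ℕ} {ξ : Fin g → Derivation K F F} {ξ' : Fin g → Derivation Kh F' F'}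
    (h : ∀ i a, ξ' i (b.β a) = b.β (ξ i a))
    (span : ∀ D : Derivation K F F, ∃ c : Fin g → F, ∀ a, D a = ∑ i, c i * ξ i a)
    (D : Derivation Kh F' F') : ∃ c : Fin g → F', ∀ a, D a = ∑ i, c i * ξ' i a := by
  have : CharZero Kh := charZero_of_injective_algebraMap (algebraMap K Kh).injective
  obtain ⟨C, h1, -⟩ := Der_dual ξ span 𝒩.tb
  have h2 : ∀ l i, ∑ k, C l k * ξ k (𝒩.z i) = if l = i then 1 else 0 := fun l i => by
    have := congrFun (congrFun h1 l) i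
    rw [Matrix.mul_apply, Matrix.one_apply] at this
    exact this
  obtain ⟨c, hc⟩ : ∃ c : Fin g → F', c = fun i => ∑ l, D (b.𝒩'.z l) * b.β (C l i) := ⟨_, rfl⟩
  have h3 : ∀ a, (∑ i, c i • ξ' i) a = ∑ i, c i * ξ' i a := fun a => by
    have := congrFun (map_sum (Derivation.coeFnAddMonoidHom (R := Kh) (A := F') (M := F'))
      (fun i => c i • ξ' i) Finset.univ) a
    rw [Finset.sum_apply] at this
    exact this
  have h4 := der_unique b.𝒩'.tb (D - ∑ i, c i • ξ' i) fun l => by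
    have h5 : ∀ i, ξ' i (b.𝒩'.z l) = b.β (ξ i (𝒩.z l)) := fun i => by rw [← b.β_z, h]
    have h6 : ∀ j, ∑ i, D (b.𝒩'.z j) * b.β (C j i) * b.β (ξ i (𝒩.z l)) =
        if j = l then D (b.𝒩'.z j) else 0 := fun j => by
      simp only [mul_assoc, ← map_mul, ← Finset.mul_sum, ← map_sum, h2]
      split_ifs <;> simp
    rw [Derivation.sub_apply, h3, hc]
    simp only [h5, Finset.sum_mul]
    rw [Finset.sum_comm]
    simp only [h6, Finset.sum_ite_eq', Finset.mem_univ, if_true, sub_self]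
  exact ⟨c, fun a => by rw [← h3, ← sub_eq_zero.1 h4]⟩

end Pool.Agent.Work.MP_e120ef_ag.H.CS
end

-- merged part: Pool.Agent.Work.MP_e120ef_ag.C.BMI
section
/-!
# Extension of the ground field: meromorphic functions

Plans.  `exists_bM`: `MI.lift` with `e = (𝓜'.E.restrictScalars K).comp (bE Kh)`, `j = (𝓜'.J.restrictScalars K).comp b.β` (`bE_inj`, `bE_toE`, `E_X`, `β_z`).
`BM.pd`: `MI.der_zero` along `μ` for the difference (`pd_E`, `bE_pdE`).  `BM.hat`: `hat_apply`.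
`WR_μ`: `𝓜.nf`, map `Q` by `bE` (`hom_eval₂`, `eval₂_map`).  `WR_J`: `den` for `𝒩'`, `Δ_eq`, `bE_toE`, `compat`, `MI_eval`.
`WR_der`: for every `Q`, `d (Q (θ)) - Q' (θ) * d θ ∈ WR` (induction on `Q`, see `MI_der`); for `Q = mE` this gives `mE' (θ) * d θ ∈ WR`, and by `bez` `E (toE Δ') * d θ ∈ WR`, so `d θ ∈ WR` (`WR_div`).  If `E (bE u) * x = Q (θ)` then `E (bE u) * d x = d (Q (θ)) - x * d (E (bE u))`; `WR_div`.
`WR_hat`: `WR_der` with `hat_apply`, `pd_E`, `WR_J`, `WR_E`.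
-/

open Polynomial

namespace Pool.Agent.Work.MP_e120ef_ag.H.CS

variable {K : Type} [NontriviallyNormedField K] [IsUltrametricDist K] {Kh : Type}
  [NontriviallyNormedField Kh] [IsUltrametricDist Kh] [NormedAlgebra K Kh] {F : Type} [Field F]
  [Algebra K F] {B : Subalgebra K F} {n : ℕ} {𝒩 : ND B n} {F' : Type} [Field F'] [Algebra Kh F']
  [Algebra K F'] [IsScalarTower K Kh F'] {b : BC Kh 𝒩 F'} {M M' : Type} [Field M] [Algebra K M]
  [Field M'] [Algebra Kh M'] [Algebra K M'] [IsScalarTower K Kh M'] (𝓜 : MI 𝒩 M) (𝓜' : MI b.𝒩' M')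

/-- the map between the fields of meromorphic functions -/
structure BM (μ : M →ₐ[K] M') : Prop where
  E : ∀ a, μ (𝓜.E a) = 𝓜'.E (bE Kh a)
  J : ∀ x, μ (𝓜.J x) = 𝓜'.J (b.β x)

theorem exists_bM : ∃ μ, BM 𝓜 𝓜' μ := by
  obtain ⟨μ, h1, h2⟩ := 𝓜.lift ((𝓜'.E.restrictScalars K).comp (bE Kh))
    (𝓜'.inj.comp (bE_inj Kh)) ((𝓜'.J.restrictScalars K).comp b.β) fun l => by
      change 𝓜'.E (bE Kh _) = 𝓜'.J (b.β _)
      rw [bE_toE, MvPolynomial.map_X, 𝓜'.E_X, b.β_z]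
  exact ⟨μ, h1, h2⟩

/-- the functions with a denominator defined over the small field -/
def WR : Subring M' where
  carrier := {x | ∃ (u : Ent K (Fin n)) (Q : (Ent Kh (Fin n))[X]), u ≠ 0 ∧
    𝓜'.E (bE Kh u) * x = Q.eval₂ 𝓜'.E.toRingHom (𝓜'.J b.𝒩'.θ)}
  mul_mem' := by
    rintro x y ⟨u, Q, hu, h⟩ ⟨v, R, hv, h'⟩
    refine ⟨u * v, Q * R, mul_ne_zero hu hv, ?_⟩
    rw [eval₂_mul, ← h, ← h', map_mul, map_mul]
    ring
  one_mem' := ⟨1, 1, one_ne_zero, by rw [eval₂_one, map_one, map_one, one_mul]⟩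
  add_mem' := by
    rintro x y ⟨u, Q, hu, h⟩ ⟨v, R, hv, h'⟩
    refine ⟨u * v, C (bE Kh v) * Q + C (bE Kh u) * R, mul_ne_zero hu hv, ?_⟩
    rw [eval₂_add, eval₂_mul, eval₂_mul, eval₂_C, eval₂_C, ← h, ← h', map_mul, map_mul]
    change _ = 𝓜'.E _ * _ + 𝓜'.E _ * _
    ring
  zero_mem' := ⟨1, 0, one_ne_zero, by rw [eval₂_zero, mul_zero]⟩
  neg_mem' := by
    rintro x ⟨u, Q, hu, h⟩
    exact ⟨u, -Q, hu, by rw [eval₂_neg, ← h, mul_neg]⟩

theorem mem_WR {x : M'} : x ∈ WR 𝓜' ↔ ∃ (u : Ent K (Fin n)) (Q : (Ent Kh (Fin n))[X]), u ≠ 0 ∧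
    𝓜'.E (bE Kh u) * x = Q.eval₂ 𝓜'.E.toRingHom (𝓜'.J b.𝒩'.θ) := Iff.rfl

theorem BMI_ev (Q : (Ent Kh (Fin n))[X]) : Q.eval₂ 𝓜'.E.toRingHom (𝓜'.J b.𝒩'.θ) ∈ WR 𝓜' :=
  ⟨1, Q, one_ne_zero, by rw [map_one, map_one, one_mul]⟩

theorem BMI_Δ : (toE 𝒩.Δ : Ent K (Fin n)) ≠ 0 := fun h =>
  𝒩.Δ_ne (toE_inj (h.trans (map_zero _).symm))

theorem WR_E (a : Ent Kh (Fin n)) : 𝓜'.E a ∈ WR 𝓜' := by
  have := BMI_ev 𝓜' (C a)
  rwa [eval₂_C] at this

theorem WR_div {u : Ent K (Fin n)} (hu : u ≠ 0) {x : M'} (h : 𝓜'.E (bE Kh u) * x ∈ WR 𝓜') :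
    x ∈ WR 𝓜' := by
  obtain ⟨v, Q, hv, h⟩ := h
  exact ⟨v * u, Q, mul_ne_zero hv hu, by rw [map_mul, map_mul, mul_assoc, h]⟩

theorem WR_J {y : F'} (hy : y ∈ b.B') : 𝓜'.J y ∈ WR 𝓜' := by
  obtain ⟨Q, hQ⟩ := b.𝒩'.den y hy
  refine ⟨toE 𝒩.Δ, Q.map (toE : MvPolynomial (Fin n) Kh →ₐ[Kh] Ent Kh (Fin n)).toRingHom,
    BMI_Δ, ?_⟩
  rw [bE_toE, ← b.Δ_eq, 𝓜'.compat, MI_eval b.𝒩' 𝓜'.E 𝓜'.J 𝓜'.E_X, ← map_mul, hQ]

theorem BMI_der (d : M' →+ M') (hd : ∀ x y, d (x * y) = x * d y + y * d x)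
    (h : ∀ a, d (𝓜'.E a) ∈ WR 𝓜') (Q : (Ent Kh (Fin n))[X]) :
    d (Q.eval₂ 𝓜'.E.toRingHom (𝓜'.J b.𝒩'.θ)) -
      (derivative Q).eval₂ 𝓜'.E.toRingHom (𝓜'.J b.𝒩'.θ) * d (𝓜'.J b.𝒩'.θ) ∈ WR 𝓜' := by
  induction Q using Polynomial.induction_on with
  | C a =>
    rw [eval₂_C, derivative_C, eval₂_zero, zero_mul, sub_zero]
    exact h a
  | add p q hp hq =>
    have := add_mem hp hq
    rwa [sub_add_sub_comm, ← add_mul, ← eval₂_add, ← derivative_add, ← map_add, ← eval₂_add] at this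
  | monomial k a ih =>
    have := mul_mem (WR_J 𝓜' b.𝒩'.θ_mem) ih
    rw [pow_succ, ← mul_assoc, eval₂_mul, eval₂_X, hd, derivative_mul (g := X), derivative_X,
      mul_one, eval₂_add, eval₂_mul _ _ (q := X), eval₂_X]
    refine (congrArg (· ∈ WR 𝓜') ?_).mp this
    ring

theorem BMI_θ (d : M' →+ M') (hd : ∀ x y, d (x * y) = x * d y + y * d x)
    (h : ∀ a, d (𝓜'.E a) ∈ WR 𝓜') : d (𝓜'.J b.𝒩'.θ) ∈ WR 𝓜' := by
  have h1 := BMI_der 𝓜' d hd h b.𝒩'.mE
  rw [MI_root b.𝒩' 𝓜'.E 𝓜'.J 𝓜'.E_X, map_zero, zero_sub, neg_mem_iff, ND.mE, derivative_map,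
    MI_eval b.𝒩' 𝓜'.E 𝓜'.J 𝓜'.E_X] at h1
  obtain ⟨p, q, hpq⟩ := b.𝒩'.bez
  have h2 := congrArg (eval₂ (ND.ae b.𝒩'.z) b.𝒩'.θ) hpq
  rw [eval₂_add, eval₂_mul, eval₂_mul, b.𝒩'.root, mul_zero, zero_add, eval₂_C] at h2
  have h3 := mul_mem (BMI_ev 𝓜'
    (q.map (toE : MvPolynomial (Fin n) Kh →ₐ[Kh] Ent Kh (Fin n)).toRingHom)) h1
  rw [MI_eval b.𝒩' 𝓜'.E 𝓜'.J 𝓜'.E_X, ← mul_assoc, ← map_mul, h2] at h3
  refine WR_div 𝓜' (BMI_Δ (𝒩 := 𝒩)) ?_
  rw [bE_toE, ← b.Δ_eq, 𝓜'.compat]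
  exact h3

theorem WR_der (d : M' →+ M') (hd : ∀ x y, d (x * y) = x * d y + y * d x)
    (h : ∀ a, d (𝓜'.E a) ∈ WR 𝓜') {x : M'} (hx : x ∈ WR 𝓜') : d x ∈ WR 𝓜' := by
  obtain ⟨u, Q, hu, e⟩ := id hx
  have h1 := add_mem (BMI_der 𝓜' d hd h Q)
    (mul_mem (BMI_ev 𝓜' (derivative Q)) (BMI_θ 𝓜' d hd h))
  rw [sub_add_cancel, ← e, hd] at h1
  have h2 := sub_mem h1 (mul_mem hx (h (bE Kh u)))
  rw [add_sub_cancel_right] at h2
  exact WR_div 𝓜' hu h2

theorem WR_hat [CharZero Kh] {ξ' : Derivation Kh F' F'} (h : ∀ y ∈ b.B', ξ' y ∈ b.B') {x : M'}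
    (hx : x ∈ WR 𝓜') : 𝓜'.hat ξ' x ∈ WR 𝓜' := by
  refine WR_der 𝓜' (𝓜'.hat ξ').toLinearMap.toAddMonoidHom (fun x y => ?_) (fun a => ?_) hx
  · exact (𝓜'.hat ξ').leibniz x y
  · change 𝓜'.hat ξ' _ ∈ _
    rw [𝓜'.hat_apply]
    refine sum_mem fun l _ => mul_mem (WR_J 𝓜' (h _ (b.𝒩'.z_mem l))) ?_
    rw [𝓜'.pd_E]
    exact WR_E 𝓜' _

variable {𝓜 𝓜'} {μ : M →ₐ[K] M'} (hμ : BM 𝓜 𝓜' μ)
include hμ

theorem WR_μ (x : M) : μ x ∈ WR 𝓜' := by
  obtain ⟨Q, u, hu, e⟩ := 𝓜.nf x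
  refine ⟨u, Q.map (bE Kh : Ent K (Fin n) →ₐ[K] Ent Kh (Fin n)).toRingHom, hu, ?_⟩
  have h1 := hom_eval₂ Q 𝓜.E.toRingHom μ.toRingHom (𝓜.J 𝒩.θ)
  have h2 : μ.toRingHom.comp 𝓜.E.toRingHom = 𝓜'.E.toRingHom.comp
      (bE Kh : Ent K (Fin n) →ₐ[K] Ent Kh (Fin n)).toRingHom := RingHom.ext hμ.E
  rw [eval₂_map, ← h2, ← b.β_θ, ← hμ.J, ← hμ.E, ← map_mul, e]
  exact h1

variable [CharZero K] [CharZero Kh]

theorem BM.pd (l : Fin n) (x : M) : μ (𝓜.pd l x) = 𝓜'.pd l (μ x) := by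
  refine sub_eq_zero.mp (𝓜.der_zero μ
    (AddMonoidHom.mk' (fun y => μ (𝓜.pd l y) - 𝓜'.pd l (μ y)) fun a c => ?_)
    (fun a c => ?_) (fun a => ?_) x)
  · simp only [map_add]
    ring
  · simp only [AddMonoidHom.mk'_apply, map_mul, Derivation.leibniz, smul_eq_mul, map_add]
    ring
  · simp only [AddMonoidHom.mk'_apply, MI.pd_E, hμ.E, bE_pdE, sub_self]

theorem BM.hat {ξ : Derivation K F F} {ξ' : Derivation Kh F' F'}
    (h : ∀ a, ξ' (b.β a) = b.β (ξ a)) (x : M) : μ (𝓜.hat ξ x) = 𝓜'.hat ξ' (μ x) := by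
  rw [MI.hat_apply, MI.hat_apply, map_sum]
  refine Finset.sum_congr rfl fun l _ => ?_
  rw [map_mul, hμ.J, hμ.pd, ← h, b.β_z]

end Pool.Agent.Work.MP_e120ef_ag.H.CS
end
end
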