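import Pool.Agent.Work.MP_e120ef_ag.H.RatG
import Pool.Agent.Work.MP_e120ef_ag.H.Gauss
import Mathlib
import Pool.Agent.Work.MP_e120ef_ag.H.DerL
import Pool.Agent.Work.MP_e120ef_ag.H.Pu
import Pool.Agent.Work.MP_e120ef_ag.H.Line

attribute [-instance] Subalgebra.normedCommRing Subalgebra.seminormedCommRing
  Subalgebra.seminormedRing Subalgebra.normedRing
  Localization.subalgebra.instIsFractionRingSubtypeMemSubalgebra
attribute [local instance 2000] RingHomClass.toAddMonoidHomClass AddMonoidHomClass.toAddHomClass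
  RingHom.instRingHomClass AlgHomClass.toRingHomClass IsDomain.to_noZeroDivisors
  IsDomain.toNontrivial NeZero.one RingHomClass.toMonoidHomClass MonoidHomClass.toMulHomClass
  RingHomClass.toMonoidWithZeroHomClass AddMonoidHomClass.toZeroHomClass MonoidHomClass.toOneHomClass
attribute [-instance] instCharZeroOfIsSemireal AlgHom.instContinuousLinearMapClassOfAlgHomClass
  RingHomClass.toLinearMapClassRat RingHomClass.toLinearMapClassNNRat NumberField.to_charZero

-- merged part: Pool.Agent.Work.MP_e120ef_ag.H.DC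
section
/-!
# Differentiating the coefficients

`RL L`: analytic functions with coefficients in `L`; `QL L`: their quotients.
Plans.  `RL.mul_mem'`: `coef_mul` and `fin_closed` (a closed additive subgroup contains the sums of its summable families: `IsClosed.mem_of_tendsto`, `HasSum`).
`DC_alg`: rescale; let `r = ‖z‖`, `n₁ ≤ n₂` the bottom and top indices of `f` at `z` (`exists_isBot`, `exists_isTop`), `c = coef f n₂ * z ^ n₂`, so `gn z f = ‖c‖ > 0`.  Say that `x : K'` is `ε`-close if `‖x - y‖ ≤ ε` for some `y` in the finite dimensional, hence closed, `L`-subspace `W` spanned by the `z ^ i`, `n₁ ≤ i < n₂`.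
Let `θ < 1` with `‖coef f m * z ^ m‖ ≤ θ ‖c‖` for `m ∉ [n₁, n₂]`.  Show by induction on `k` that every `z ^ m` is `θ ^ k * r ^ m`-close: multiply `∑ coef f m * z ^ m = 0` by `z ^ j` and solve for `z ^ (n₂ + j)` (`j ≥ 0`, induction on `j`) or for `z ^ (n₁ + j)` (`j < 0`); the terms with `m ∉ [n₁, n₂]` sum to something `θ ^ (k + 1) r ^ ..`-close (finite part by the induction hypothesis, small tail).
So all powers of `z` lie in `W`, and `z` is algebraic over `L`.  `DC_div`: `coef_lin_mul` gives `coef g (m - 1) = coef f m + z * coef g m`; iterating, `coef g m = ∑ i < k, z ^ i * coef f (m + 1 + i) + z ^ k * coef g (m + k)` and the last term tends to zero (`tendsto_coef`).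
`DC_ex`: `‖δ (coef f m) * t ^ m‖ ≤ C ‖coef f m * t ^ m‖ → 0`.  Leibniz: `δ` is additive and bounded on `L`, so it maps the `HasSum` of `coef_mul` (work in the subtype or use the bound on `partial sum - sum ∈ L`).
`exists_DC`: the coefficientwise map is a derivation of the subalgebra `RL L`; extend it to its fraction field (`frac_ext`, `Fr`) and then to `MM` (`exists_der_ext`, empty family).  Norm: quotient rule, `nev_nr_div`, `gn_mul`.
Regularity: let `x = im p / im q`; if `q z ≠ 0` it is clear.  Otherwise `z` is algebraic over `L`, `L₂ = L ⊔ K₁⟮z⟯` is finite dimensional, `p = lin z ^ a * p₁`, `q = lin z ^ b * q₁` with `b ≤ a`, `q₁ z ≠ 0`, `p₁, q₁ ∈ RL L₂` (`ord₀_spec`, `DC_div`); with the Leibniz rule in `RL L₂`, `p' q - p q'` is divisible by `lin z ^ (2 b)`.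
-/

open Filter Topology

namespace Pool.Agent.Work.MP_e120ef_ag.H

variable (K : Type) {K₁ K' : Type} [Field K] [NontriviallyNormedField K₁] [CompleteSpace K₁]
  [NontriviallyNormedField K'] [IsUltrametricDist K'] [CompleteSpace K'] [IsAlgClosed K']
  [NormedAlgebra K₁ K'] [Algebra K K₁] [Algebra K K'] [IsScalarTower K K₁ K'] {P : Rad}

omit [IsUltrametricDist K'] [CompleteSpace K'] [IsAlgClosed K'] in
theorem DC_mem {L : IntermediateField K₁ K'} [FiniteDimensional K₁ L] {a : ℤ → K'} {s : K'}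
    (h : HasSum a s) (ha : ∀ n, a n ∈ L) : s ∈ L :=
  (fin_closed L).mem_of_tendsto h (Eventually.of_forall fun _ => sum_mem fun n _ => ha n)

variable (P) in
/-- the analytic functions with coefficients in `L` -/
def RL (L : IntermediateField K₁ K') [FiniteDimensional K₁ L] : Subalgebra K (L1 K' P) where
  carrier := {f | ∀ m, coef f m ∈ L}
  mul_mem' {f g} hf hg m := by
    rw [(coef_mul f g m).2]
    exact DC_mem (coef_mul f g m).1.hasSum fun n => mul_mem (hf n) (hg _)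
  add_mem' {f g} hf hg m := by
    rw [coef_add]
    exact add_mem (hf m) (hg m)
  algebraMap_mem' c m := by
    rw [IsScalarTower.algebraMap_apply K K', coef_algebraMap, IsScalarTower.algebraMap_apply K K₁ K']
    split_ifs
    · exact L.algebraMap_mem _
    · exact zero_mem L

variable {K} {L : IntermediateField K₁ K'} [FiniteDimensional K₁ L]

theorem mem_RL {f : L1 K' P} : f ∈ RL K P L ↔ ∀ m, coef f m ∈ L := Iff.rfl

section near

omit [CompleteSpace K₁] [CompleteSpace K'] [IsAlgClosed K'] [FiniteDimensional K₁ L]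

/-- `x` is within `ε` of `W` -/
def DC_near (W : Submodule L K') (ε : ℝ) (x : K') : Prop := ∃ y ∈ W, ‖x - y‖ ≤ ε

variable {W : Submodule L K'} {ε : ℝ}

theorem DC_sum (hε : 0 < ε) {a : ℤ → K'} {s : K'} (h : HasSum a s)
    (ha : ∀ n, DC_near W ε (a n)) : DC_near W ε s := by
  obtain ⟨S, hS⟩ := (Metric.tendsto_nhds.1 h ε hε).exists
  choose y hy hy' using ha
  refine ⟨∑ n ∈ S, y n, sum_mem fun n _ => hy n, ?_⟩
  rw [← sub_add_sub_cancel s (∑ n ∈ S, a n), ← Finset.sum_sub_distrib]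
  refine (IsUltrametricDist.norm_add_le_max _ _).trans (max_le ?_
    (IsUltrametricDist.norm_sum_le_of_forall_le_of_nonneg hε.le fun n _ => hy' n))
  rw [← dist_eq_norm, dist_comm]
  exact hS.le

theorem DC_key (hε : 0 < ε) {a : ℤ → K'} (ha : ∀ n, a n ∈ L) {z : K'} (hz : z ≠ 0)
    (h : HasSum (fun i => a i * z ^ i) 0) {n : ℤ} (hn : a n ≠ 0) (j : ℤ)
    (H : ∀ i ≠ n, ∃ η, ‖a i * z ^ i‖ * η ≤ ε * ‖a n * z ^ n‖ ∧
      DC_near W (η * ‖z ^ (i + j)‖) (z ^ (i + j))) :
    DC_near W (ε * ‖z ^ (n + j)‖) (z ^ (n + j)) := by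
  have h1 := hasSum_ite_sub_hasSum (h.mul_left (-(a n)⁻¹ * z ^ j)) n
  have e : ∀ i, -(a n)⁻¹ * z ^ j * (a i * z ^ i) = -((a n)⁻¹ * a i) * z ^ (i + j) := fun i => by
    rw [zpow_add₀ hz]
    ring
  simp only [e] at h1
  simp only [inv_mul_cancel₀ hn, mul_zero, neg_mul, one_mul, zero_sub, neg_neg] at h1
  have h0 := mul_pos hε (norm_pos_iff.2 (zpow_ne_zero (n + j) hz))
  refine DC_sum h0 h1 fun i => ?_
  split_ifs with hi
  · exact ⟨0, zero_mem _, by simpa using h0.le⟩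
  obtain ⟨η, h2, y, hy, h3⟩ := H i hi
  refine ⟨_, neg_mem (W.smul_mem ⟨_, mul_mem (inv_mem (ha n)) (ha i)⟩ hy), ?_⟩
  change ‖-((a n)⁻¹ * a i * z ^ (i + j)) - -((a n)⁻¹ * a i * y)‖ ≤ _
  rw [← neg_sub', norm_neg, ← mul_sub, norm_mul]
  refine (mul_le_mul_of_nonneg_left h3 (norm_nonneg _)).trans ?_
  simp only [zpow_add₀ hz, norm_mul, norm_inv] at h2 ⊢
  rw [mul_assoc, inv_mul_le_iff₀ (norm_pos_iff.2 hn)]
  linarith [mul_le_mul_of_nonneg_right h2 (norm_nonneg (z ^ j))]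

end near

theorem DC_theta {b : ℤ → ℝ} {G : ℝ} (hG : 0 < G) (h : {n | G / 2 ≤ b n}.Finite) :
    ∃ θ : ℝ, 0 < θ ∧ θ < 1 ∧ ∀ n, b n < G → b n ≤ θ * G := by
  rcases {n | G / 2 ≤ b n ∧ b n < G}.eq_empty_or_nonempty with e | hne
  · refine ⟨1 / 2, one_half_pos, one_half_lt_one, fun n hn => not_lt.1 fun k => ?_⟩
    exact Set.notMem_empty n (e ▸ ⟨by linarith, hn⟩)
  · obtain ⟨m, hm, h1⟩ := Set.exists_max_image _ b (h.subset fun _ h => h.1) hne
    refine ⟨b m / G, div_pos ((half_pos hG).trans_le hm.1) hG, (div_lt_one hG).2 hm.2,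
      fun n hn => ?_⟩
    rw [div_mul_cancel₀ _ hG.ne']
    rcases le_total (G / 2) (b n) with k | k
    · exact h1 n ⟨k, hn⟩
    · exact k.trans hm.1

theorem DC_alg {f : L1 K' P} (hf : f ≠ 0) (hL : ∀ m, coef f m ∈ L) {z : Pt1 K' P}
    (h : f.1 z = 0) : IsAlgebraic K₁ z.v := by
  have hz : z.v ≠ 0 := z.1.ne_zero
  have hG := Div_gn_pos hf z
  obtain ⟨n₁, h₁⟩ := exists_isBot hf z
  obtain ⟨n₂, h₂⟩ := exists_isTop hf z
  obtain ⟨θ, θ0, θ1, hθ⟩ := DC_theta hG (Ser_finite (tendsto_coef f z) (half_pos hG))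
  have hfin := (Set.finite_Ico n₁ n₂).image fun i => z.v ^ i
  set W := Submodule.span L ((fun i => z.v ^ i) '' Set.Ico n₁ n₂) with hW
  have key : ∀ η, 0 < η → (∀ m : ℤ, DC_near W (η * ‖z.v ^ m‖) (z.v ^ m)) → ∀ n j : ℤ,
      ‖coef f n * z.v ^ n‖ = gn z f →
      (∀ i ≠ n, n₁ ≤ i → i ≤ n₂ → DC_near W (θ * η * ‖z.v ^ (i + j)‖) (z.v ^ (i + j))) →
      DC_near W (θ * η * ‖z.v ^ (n + j)‖) (z.v ^ (n + j)) := by
    intro η η0 ih n j hn H
    refine DC_key (mul_pos θ0 η0) hL hz (h ▸ hasSum_coef f z)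
      (left_ne_zero_of_mul (norm_pos_iff.1 (hn ▸ hG))) j fun i hi => ?_
    rw [hn]
    by_cases k : n₁ ≤ i ∧ i ≤ n₂
    · exact ⟨_, (mul_comm _ _).trans_le
        (mul_le_mul_of_nonneg_left (le_gn f z i) (mul_pos θ0 η0).le), H i hi k.1 k.2⟩
    · have h3 := hθ i ((not_and_or.1 k).elim (fun k => h₁.2 i (not_le.1 k))
        fun k => h₂.2 i (not_le.1 k))
      exact ⟨η, by linarith [mul_le_mul_of_nonneg_right h3 η0.le], ih _⟩
  have h3 : ∀ k : ℕ, ∀ m : ℤ, DC_near W (θ ^ k * ‖z.v ^ m‖) (z.v ^ m) := by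
    intro k
    induction k with
    | zero => exact fun m => ⟨0, zero_mem _, by simp⟩
    | succ k ih =>
      rw [pow_succ']
      have up : ∀ j : ℕ, ∀ m, n₁ ≤ m → m < n₂ + j →
          DC_near W (θ * θ ^ k * ‖z.v ^ m‖) (z.v ^ m) := by
        intro j
        induction j with
        | zero =>
          exact fun m h1 h2 => ⟨_, Submodule.subset_span ⟨m, ⟨h1, by omega⟩, rfl⟩,
            by rw [sub_self, norm_zero]; positivity⟩
        | succ j ih' =>
          intro m h1 h2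
          rcases eq_or_ne m (n₂ + j) with rfl | h3
          · exact key _ (pow_pos θ0 k) ih n₂ j h₂.1 fun i _ _ _ => ih' _ (by omega) (by omega)
          · exact ih' m h1 (by omega)
      have down : ∀ j : ℕ, ∀ m, n₁ - j ≤ m → DC_near W (θ * θ ^ k * ‖z.v ^ m‖) (z.v ^ m) := by
        intro j
        induction j with
        | zero => exact fun m h1 => up (m + 1 - n₂).toNat m (by omega) (by omega)
        | succ j ih' =>
          intro m h1
          rcases eq_or_ne m (n₁ + -(j + 1)) with rfl | h3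
          · exact key _ (pow_pos θ0 k) ih n₁ _ h₁.1 fun i _ _ _ => ih' _ (by omega)
          · exact ih' m (by omega)
      exact fun m => down (n₁ - m).toNat m (by omega)
  have : Module.Finite L W := Module.Finite.span_of_finite L hfin
  have : Module.Finite K₁ W := Module.Finite.trans L W
  have : FiniteDimensional K₁ (W.restrictScalars K₁) := this
  have h4 : ∀ m : ℤ, z.v ^ m ∈ W := fun m => by
    choose y hy hy' using fun k => h3 k m
    refine (W.restrictScalars K₁).closed_of_finiteDimensional.mem_of_tendsto (b := atTop) (f := y)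
      (tendsto_iff_norm_sub_tendsto_zero.2 (squeeze_zero (fun _ => norm_nonneg _)
        (fun k => (norm_sub_rev _ _).trans_le (hy' k)) ?_)) (Eventually.of_forall hy)
    simpa using (tendsto_pow_atTop_nhds_zero_of_lt_one θ0.le θ1).mul_const ‖z.v ^ m‖
  have h5 : IsIntegral L z.v := by
    refine isIntegral_of_smul_mem_submodule W (fun e => ?_) (Submodule.fg_span hfin) _
      fun x hx => ?_
    · exact zpow_ne_zero 0 hz ((Submodule.eq_bot_iff _).1 e _ (h4 0))
    · induction hx using Submodule.span_induction with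
      | mem x hx =>
        obtain ⟨i, -, rfl⟩ := hx
        rw [smul_eq_mul, ← zpow_one_add₀ hz]
        exact h4 _
      | zero => simp
      | add x y _ _ hx hy => exact smul_add z.v x y ▸ add_mem hx hy
      | smul c x _ hx => exact smul_comm c z.v x ▸ W.smul_mem c hx
  exact (isIntegral_trans (R := K₁) _ h5).isAlgebraic

theorem DC_div {g : L1 K' P} {z : Pt1 K' P} (hz : z.v ∈ L) (h : ∀ m, coef (lin z.v * g) m ∈ L)
    (m : ℤ) : coef g m ∈ L := by
  have h0 : z.v ≠ 0 := z.1.ne_zero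
  have h1 : ∀ k : ℕ, coef g m * z.v ^ m - coef g (m + k) * z.v ^ (m + k) ∈ L := by
    intro k
    induction k with
    | zero => simp
    | succ k ih =>
      have h2 := add_mem ih (mul_mem (h (m + k + 1)) (zpow_mem hz (m + k)))
      rw [coef_lin_mul, add_sub_cancel_right] at h2
      rw [Nat.cast_succ, ← add_assoc, zpow_add_one₀ h0]
      convert h2 using 1
      ring
  have h2 : Function.Injective fun k : ℕ => m + k := fun _ _ e =>
    Nat.cast_injective (add_left_cancel e)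
  have h3 := ((tendsto_coef g z).comp h2.tendsto_cofinite).const_sub (coef g m * z.v ^ m)
  have h4 := (fin_closed L).mem_of_tendsto h3 (Eventually.of_forall h1)
  rw [sub_zero] at h4
  exact mul_div_cancel_right₀ (coef g m) (zpow_ne_zero m h0) ▸ div_mem h4 (zpow_mem hz m)

theorem DC_pow {z : Pt1 K' P} (hz : z.v ∈ L) (b : ℕ) (g : L1 K' P) :
    (∀ m, coef (lin z.v ^ b * g) m ∈ L) ↔ ∀ m, coef g m ∈ L := by
  induction b with
  | zero => rw [pow_zero, one_mul]
  | succ b ih =>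
    rw [pow_succ', mul_assoc, ← ih]
    exact ⟨DC_div hz, fun h m => coef_lin_mul z.v _ m ▸ sub_mem (h _) (mul_mem hz (h _))⟩

variable (K) in
theorem DC_cancel {p q : L1 K' P} (hp : p ∈ RL K P L) (hq : q ∈ RL K P L) (hp0 : p ≠ 0)
    (hq0 : q ≠ 0) {z : Pt1 K' P} (h : ord₀ z q ≤ ord₀ z p) :
    ∃ (L₂ : IntermediateField K₁ K') (_ : FiniteDimensional K₁ L₂), ∃ l ∈ RL K P L₂,
      ∃ p₁ ∈ RL K P L₂, ∃ q₁ ∈ RL K P L₂, q₁.1 z ≠ 0 ∧ p = l * p₁ ∧ q = l * q₁ := by
  by_cases h0 : q.1 z = 0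
  · have := IntermediateField.adjoin.finiteDimensional (DC_alg hq0 hq h0).isIntegral
    have hz : z.v ∈ L ⊔ IntermediateField.adjoin K₁ {z.v} :=
      le_sup_right (a := L) (IntermediateField.mem_adjoin_simple_self K₁ z.v)
    obtain ⟨p₁, -, e₁⟩ := ord₀_spec hp0 z
    obtain ⟨q₁, h1, e₂⟩ := ord₀_spec hq0 z
    rw [← Nat.add_sub_cancel' h, pow_add, mul_assoc] at e₁
    exact ⟨_, inferInstance, _, mul_one (lin z.v ^ ord₀ z q : L1 K' P) ▸
      (DC_pow hz _ 1).2 (one_mem (RL K P _)), _, (DC_pow hz _ _).1 (e₁ ▸ fun m => le_sup_left (a := L) (hp m)),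
      _, (DC_pow hz _ _).1 (e₂ ▸ fun m => le_sup_left (a := L) (hq m)), h1, e₁, e₂⟩
  · exact ⟨L, inferInstance, 1, one_mem _, p, hp, q, hq, h0, (one_mul p).symm, (one_mul q).symm⟩

section der

variable {δ : Derivation K K' K'} {C : ℝ} (hC : ∀ x ∈ L, ‖δ x‖ ≤ C * ‖x‖)

omit [Algebra K K₁] [IsScalarTower K K₁ K']

include hC

omit [CompleteSpace K₁] [FiniteDimensional K₁ L] [IsAlgClosed K'] in
theorem DC_le {f : L1 K' P} (hf : ∀ m, coef f m ∈ L) (t : K') (n : ℤ) :
    ‖δ (coef f n) * t ^ n‖ ≤ C * ‖coef f n * t ^ n‖ := by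
  rw [norm_mul, norm_mul, ← mul_assoc]
  exact mul_le_mul_of_nonneg_right (hC _ (hf n)) (norm_nonneg _)

omit [CompleteSpace K₁] [FiniteDimensional K₁ L] in
theorem DC_ex {f : L1 K' P} (hf : ∀ m, coef f m ∈ L) :
    ∃ g : L1 K' P, ∀ m, coef g m = δ (coef f m) := by
  have hs : ∀ t : Pt1 K' P, Summable fun n : ℤ => δ (coef f n) * t.v ^ n := fun t =>
    NonarchimedeanAddGroup.summable_of_tendsto_cofinite_zero
      (squeeze_zero_norm (DC_le hC hf t.v)
        (by simpa only [norm_zero, mul_zero] using (tendsto_coef f t).norm.const_mul C))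
  exact ⟨⟨fun t => ∑' n : ℤ, δ (coef f n) * t.v ^ n, _, fun t => (hs t).hasSum⟩,
    congrFun (coef_unique fun t => (hs t).hasSum)⟩

theorem DC_leib {f g f' g' : L1 K' P} (hf : ∀ m, coef f m ∈ L) (hg : ∀ m, coef g m ∈ L)
    (hf' : ∀ m, coef f' m = δ (coef f m)) (hg' : ∀ m, coef g' m = δ (coef g m)) (N : ℤ) :
    coef (f * g' + f' * g) N = δ (coef (f * g) N) := by
  have h1 := (coef_mul f g N).1.hasSum
  have h2 := fun n => mul_mem (hf n) (hg (N - n))
  rw [coef_add, (coef_mul f g N).2, (coef_mul f g' N).2, (coef_mul f' g N).2]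
  refine ((coef_mul f g' N).1.hasSum.add (coef_mul f' g N).1.hasSum).unique
    (tendsto_iff_norm_sub_tendsto_zero.2 (squeeze_zero (fun _ => norm_nonneg _) (fun S => ?_)
      (by simpa only [mul_zero] using (tendsto_iff_norm_sub_tendsto_zero.1 h1).const_mul C)))
  refine le_trans (le_of_eq ?_) (hC _ (sub_mem (sum_mem fun n _ => h2 n) (DC_mem h1 h2)))
  rw [map_sub, map_sum]
  congr 2
  refine Finset.sum_congr rfl fun n _ => ?_
  simp only [hf', hg', Derivation.leibniz, smul_eq_mul, mul_comm]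

end der

theorem DC_ext {k A M : Type} [Field k] [CharZero k] [CommRing A] [IsDomain A] [Algebra k A]
    [Field M] [Algebra k M] [Algebra A M] [IsScalarTower k A M]
    (hi : Function.Injective (algebraMap A M)) (R : Subalgebra k A) (d : A → A)
    (h0 : ∀ f ∈ R, d f ∈ R) (h1 : ∀ f ∈ R, ∀ g ∈ R, d (f + g) = d f + d g)
    (h2 : ∀ c : k, ∀ f ∈ R, d (c • f) = c • d f)
    (h3 : ∀ f ∈ R, ∀ g ∈ R, d (f * g) = f * d g + g * d f) :
    ∃ D : Derivation k M M, ∀ f ∈ R, D (algebraMap A M f) = algebraMap A M (d f) := by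
  obtain ⟨D₁, h₁⟩ := frac_ext (K := k) (R := R) (F := Fr R) (Derivation.mk'
    { toFun := fun f => ⟨d f, h0 _ f.2⟩
      map_add' := fun f g => Subtype.ext (h1 _ f.2 _ g.2)
      map_smul' := fun c f => Subtype.ext (h2 c _ f.2) }
    fun f g => Subtype.ext (h3 _ f.2 _ g.2))
  have hj : Function.Injective ((IsScalarTower.toAlgHom k A M).comp R.val) :=
    hi.comp Subtype.val_injective
  obtain ⟨D, h₂, -⟩ := exists_der_ext (IsFractionRing.liftAlgHom (K := Fr R) hj) D₁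
    (ι := Empty) Empty.elim (fun Q hQ => by
      rw [Q.eq_C_of_isEmpty, MvPolynomial.eval₂_C, map_eq_zero] at hQ
      rw [Q.eq_C_of_isEmpty, hQ, map_zero]) Empty.elim
  refine ⟨D, fun f hf => ?_⟩
  have h := h₂ (algebraMap R _ ⟨f, hf⟩)
  rwa [h₁, IsFractionRing.liftAlgHom_apply, IsFractionRing.liftAlgHom_apply,
    IsFractionRing.lift_algebraMap, IsFractionRing.lift_algebraMap] at h

variable [CharZero K'] [CharZero K]

variable (K P L) in
/-- quotients of functions with coefficients in `L` -/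
def QL : Subfield (MM K' P) where
  carrier := {x | ∃ p ∈ RL K P L, ∃ q ∈ RL K P L, q ≠ 0 ∧ x = im p / im q}
  mul_mem' := by
    rintro _ _ ⟨p, hp, q, hq, h, rfl⟩ ⟨p', hp', q', hq', h', rfl⟩
    exact ⟨_, mul_mem hp hp', _, mul_mem hq hq', mul_ne_zero h h', Mer_mul p q p' q'⟩
  one_mem' := ⟨1, one_mem _, 1, one_mem _, one_ne_zero, (div_self (im_ne one_ne_zero)).symm⟩
  add_mem' := by
    rintro _ _ ⟨p, hp, q, hq, h, rfl⟩ ⟨p', hp', q', hq', h', rfl⟩
    refine ⟨_, add_mem (mul_mem hp hq') (mul_mem hq hp'), _, mul_mem hq hq', mul_ne_zero h h', ?_⟩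
    simp only [div_add_div _ _ (im_ne h) (im_ne h'), map_add, map_mul]
  zero_mem' := ⟨0, zero_mem _, 1, one_mem _, one_ne_zero, by simp only [map_zero, zero_div]⟩
  neg_mem' := by
    rintro _ ⟨p, hp, q, hq, h, rfl⟩
    exact ⟨_, neg_mem hp, q, hq, h, by simp only [map_neg, neg_div]⟩
  inv_mem' := by
    rintro _ ⟨p, hp, q, hq, h, rfl⟩
    rcases eq_or_ne p 0 with rfl | h'
    · exact ⟨0, hp, q, hq, h, by simp only [map_zero, zero_div, inv_zero]⟩
    · exact ⟨q, hq, p, hp, h', inv_div _ _⟩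

theorem mem_QL {x : MM K' P} :
    x ∈ QL K P L ↔ ∃ p ∈ RL K P L, ∃ q ∈ RL K P L, q ≠ 0 ∧ x = im p / im q := Iff.rfl

theorem im_mem_QL {f : L1 K' P} (h : ∀ m, coef f m ∈ L) : im f ∈ QL K P L :=
  ⟨f, h, 1, one_mem _, one_ne_zero, by simp only [map_one, div_one]⟩

variable (P L) in
theorem exists_DC (d : Derivation K K₁ K₁) {C : ℝ} (hd : ∀ x, ‖d x‖ ≤ C * ‖x‖)
    (δ : Derivation K K' K') (hδ : ∀ x, δ (algebraMap K₁ K' x) = algebraMap K₁ K' (d x)) :
    ∃ (𝒟 : Derivation K (MM K' P) (MM K' P)) (C' : ℝ), 0 ≤ C' ∧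
      (∀ f g : L1 K' P, (∀ m, coef f m ∈ L) → (∀ m, coef g m = δ (coef f m)) → 𝒟 (im f) = im g) ∧
      (∀ x ∈ QL K P L, ∀ w, (nev K' P).nr w (𝒟 x) ≤ C' * (nev K' P).nr w x) ∧
      ∀ x ∈ QL K P L, ∀ z, x ∈ (nev K' P).regV z → 𝒟 x ∈ (nev K' P).regV z := by
  obtain ⟨hL, C', hC0, hC⟩ := fin_der d hd δ hδ L
  have h : ∀ f : L1 K' P, ∃ g : L1 K' P, f ∈ RL K P L → ∀ m, coef g m = δ (coef f m) := fun f => by
    by_cases hf : f ∈ RL K P L
    · exact (DC_ex hC hf).imp fun _ h _ => h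
    · exact ⟨0, fun h => absurd h hf⟩
  choose D h₀ using h
  obtain ⟨𝒟, h₃⟩ := DC_ext (IsFractionRing.injective (L1 K' P) (MM K' P)) (RL K P L) D
    (fun f hf m => h₀ f hf m ▸ hL _ (hf m))
    (fun f hf g hg => DerL_ext fun n => by
      rw [coef_add, h₀ f hf, h₀ g hg, h₀ _ (add_mem hf hg), coef_add, map_add])
    (fun c f hf => DerL_ext fun n => by
      rw [h₀ _ (Subalgebra.smul_mem _ hf c), ← algebraMap_smul K' c f, ← algebraMap_smul K' c (D f),
        coef_smul, coef_smul, h₀ f hf, ← Algebra.smul_def, ← Algebra.smul_def, δ.map_smul])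
    fun f hf g hg => DerL_ext fun n => by
      rw [mul_comm g, DC_leib hC hf hg (h₀ f hf) (h₀ g hg), h₀ _ (mul_mem hf hg)]
  have h₄ : ∀ p ∈ RL K P L, ∀ q ∈ RL K P L, q ≠ 0 → 𝒟 (im p / im q) =
      im (D p * q - p * D q) / im (q * q) := fun p hp q hq h => by
    have := im_ne h
    rw [Derivation.leibniz_div, h₃ p hp, h₃ q hq]
    simp only [map_sub, map_mul, smul_eq_mul]
    field_simp
  have h₅ : ∀ f ∈ RL K P L, ∀ w, gn w (D f) ≤ C' * gn w f := fun f hf w => gn_le _ _ fun n =>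
    h₀ f hf n ▸ (DC_le hC hf _ n).trans (mul_le_mul_of_nonneg_left (le_gn _ _ _) hC0)
  refine ⟨𝒟, C', hC0, fun f g hf hg => ?_, ?_, ?_⟩
  · rw [DerL_ext fun n => (hg n).trans (h₀ f hf n).symm]
    exact h₃ f hf
  · rintro _ ⟨p, hp, q, hq, h, rfl⟩ w
    have a := Mer_gn_pos w h
    rw [h₄ p hp q hq h, nev_nr_div w _ (mul_ne_zero h h), nev_nr_div w _ h, gn_mul,
      ← mul_div_mul_right (gn w p) _ a.ne', ← mul_div_assoc]
    refine div_le_div_of_nonneg_right ((Mer_gn_sub _ _ _).trans (max_le ?_ ?_)) (by positivity)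
    · rw [gn_mul, ← mul_assoc]
      exact mul_le_mul_of_nonneg_right (h₅ p hp w) a.le
    · rw [gn_mul, mul_left_comm]
      exact mul_le_mul_of_nonneg_left (h₅ q hq w) (gn_nonneg _ _)
  · rintro _ ⟨p, hp, q, hq, h, rfl⟩ z hz
    rcases eq_or_ne p 0 with rfl | hp0
    · simp only [map_zero, zero_div, zero_mem]
    rw [Nev.mem_regV, nev_ord_div z hp0 h] at hz
    obtain ⟨L₂, _, l, hl, p₁, hp₁, q₁, hq₁, h1, e₁, e₂⟩ :=
      DC_cancel K hp hq hp0 h (z := z) (by omega)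
    obtain ⟨-, C₂, -, hC₂⟩ := fin_der d hd δ hδ L₂
    obtain ⟨l', hl'⟩ := DC_ex hC₂ hl
    obtain ⟨p', hp'⟩ := DC_ex hC₂ hp₁
    obtain ⟨q', hq'⟩ := DC_ex hC₂ hq₁
    have e₃ : D p = l * p' + l' * p₁ := DerL_ext fun n => by
      rw [DC_leib hC₂ hl hp₁ hl' hp', h₀ p hp, ← e₁]
    have e₄ : D q = l * q' + l' * q₁ := DerL_ext fun n => by
      rw [DC_leib hC₂ hl hq₁ hl' hq', h₀ q hq, ← e₂]
    have hl0 : l * l ≠ 0 := mul_self_ne_zero.2 (left_ne_zero_of_mul (e₂ ▸ h))
    have e₅ : (l * p' + l' * p₁) * q - p * (l * q' + l' * q₁) = l * l * (p' * q₁ - p₁ * q') := by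
      rw [e₁, e₂]
      ring
    have e₆ : q * q = l * l * (q₁ * q₁) := by
      rw [e₂]
      ring
    rw [h₄ p hp q hq h, e₃, e₄, e₅, e₆, ← Mer_mul, div_self (im_ne hl0), one_mul]
    have h2 : (q₁ * q₁).1 z ≠ 0 := mul_ne_zero h1 h1
    rcases eq_or_ne (p' * q₁ - p₁ * q') 0 with e | e
    · simp only [e, map_zero, zero_div, zero_mem]
    · rw [Nev.mem_regV, nev_ord_div z e (Mer_val h2), Mer_unit h2]
      omega

end Pool.Agent.Work.MP_e120ef_ag.H
end

-- merged part: Pool.Agent.Work.MP_e120ef_ag.H.VP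
section
-- merged part: Pool.Agent.Work.MP_e120ef_ag.H.Bdd
section
/-!
# The valuation ring of the elements bounded along an ultrafilter of absolute values
-/

open Filter Topology

namespace Pool.Agent.Work.MP_e120ef_ag.H

variable {M ι : Type} [Field M] (ν : ι → AbsoluteValue M ℝ) (hν : ∀ i, IsNonarchimedean (ν i))

/-- the elements bounded along the ultrafilter -/
def bddR (𝒰 : Ultrafilter ι) : ValuationSubring M where
  carrier := {u | ∃ C : ℝ, ∀ᶠ w in (𝒰 : Filter ι), ν w u ≤ C}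
  mul_mem' := by
    rintro u v ⟨C, hC⟩ ⟨E, hE⟩
    refine ⟨C * E, ?_⟩
    filter_upwards [hC, hE] with w h1 h2
    rw [map_mul]
    exact mul_le_mul h1 h2 ((ν w).nonneg _) (((ν w).nonneg _).trans h1)
  one_mem' := ⟨1, Eventually.of_forall fun w => (map_one (ν w)).le⟩
  add_mem' := by
    rintro u v ⟨C, hC⟩ ⟨E, hE⟩
    refine ⟨max C E, ?_⟩
    filter_upwards [hC, hE] with w h1 h2
    exact (hν w u v).trans (max_le_max h1 h2)
  zero_mem' := ⟨0, Eventually.of_forall fun w => (map_zero (ν w)).le⟩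
  neg_mem' := by
    rintro u ⟨C, hC⟩
    exact ⟨C, hC.mono fun w h => by rwa [AbsoluteValue.map_neg]⟩
  mem_or_inv_mem' := by
    intro u
    rcases 𝒰.em fun w => ν w u ≤ 1 with h | h
    · exact Or.inl ⟨1, h⟩
    · refine Or.inr ⟨1, h.mono fun w hw => ?_⟩
      rw [map_inv₀]
      exact inv_le_one_of_one_le₀ (not_le.1 hw).le

variable {ν hν}

theorem mem_bddR {𝒰 : Ultrafilter ι} {u : M} :
    u ∈ bddR ν hν 𝒰 ↔ ∃ C : ℝ, ∀ᶠ w in (𝒰 : Filter ι), ν w u ≤ C := Iff.rfl

theorem bddR_nonunits {𝒰 : Ultrafilter ι} {u : M} :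
    u ∈ (bddR ν hν 𝒰).nonunits ↔ Tendsto (fun w => ν w u) 𝒰 (𝓝 0) := by
  rw [ValuationSubring.mem_nonunits_iff_or]
  constructor
  · rintro (h | h)
    · rw [h]
      simp only [map_zero]
      exact tendsto_const_nhds
    · rw [tendsto_order]
      refine ⟨fun a ha => Eventually.of_forall fun w => ha.trans_le ((ν w).nonneg u),
        fun a ha => ?_⟩
      rcases 𝒰.em fun w => ν w u < a with h1 | h1
      · exact h1
      · refine absurd ⟨a⁻¹, h1.mono fun w hw => ?_⟩ h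
        rw [map_inv₀]
        exact inv_anti₀ ha (not_lt.1 hw)
  · intro h
    by_cases hu : u = 0
    · exact Or.inl hu
    refine Or.inr ?_
    rintro ⟨C, hC⟩
    have h1 : Tendsto (fun w => ν w u * C) 𝒰 (𝓝 0) := by simpa using h.mul_const C
    have h2 : (1 : ℝ) ≤ 0 := ge_of_tendsto h1 (hC.mono fun w hw => by
      have h3 := (ν w).pos hu
      rw [map_inv₀] at hw
      have h4 := mul_le_mul_of_nonneg_left hw h3.le
      rwa [mul_inv_cancel₀ h3.ne'] at h4)
    linarith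

theorem bddR_map {𝒰 : Ultrafilter ι} {d : M → M} {C : ℝ} (hd : ∀ w u, ν w (d u) ≤ C * ν w u)
    (hC : 0 ≤ C) {u : M} (h : u ∈ bddR ν hν 𝒰) : d u ∈ bddR ν hν 𝒰 := by
  obtain ⟨E, hE⟩ := h
  exact ⟨C * E, hE.mono fun w hw => (hd w u).trans (mul_le_mul_of_nonneg_left hw hC)⟩

theorem bddR_map_nonunits {𝒰 : Ultrafilter ι} {d : M → M} {C : ℝ}
    (hd : ∀ w u, ν w (d u) ≤ C * ν w u) {u : M} (h : u ∈ (bddR ν hν 𝒰).nonunits) :
    d u ∈ (bddR ν hν 𝒰).nonunits := by
  rw [bddR_nonunits] at h ⊢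
  exact squeeze_zero (fun w => (ν w).nonneg _) (fun w => hd w u) (by simpa using h.const_mul C)

theorem bdd_of_ultra {u : M} (h : ∀ 𝒰, u ∈ bddR ν hν 𝒰) : ∃ C : ℝ, ∀ w, ν w u ≤ C := by
  by_contra h1
  push Not at h1
  choose w hw using fun n : ℕ => h1 n
  obtain ⟨C, hC⟩ := h ((hyperfilter ℕ).map w)
  rw [Ultrafilter.coe_map, eventually_map] at hC
  have h2 : ∀ᶠ n : ℕ in (hyperfilter ℕ : Filter ℕ), C ≤ n :=
    Nat.hyperfilter_le_atTop (tendsto_natCast_atTop_atTop.eventually_ge_atTop C)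
  obtain ⟨n, h3, h4⟩ := (hC.and h2).exists
  linarith [hw n]

end Pool.Agent.Work.MP_e120ef_ag.H
end

-- merged part: Pool.Agent.Work.MP_e120ef_ag.H.VP
section
/-!
# Bounds from invariant valuation rings

Plans.  `invp`: `bdd_of_ultra`, `bddR_map`, `bddR_map_nonunits`.  `ubp`: `ν i x = ‖κ i x‖`.  `pgp`: `ν w x = nr w (ι x) ^ (1 / (1 + log ‖w‖))` (`Real.rpow`) is a nonarchimedean absolute value
(`Real.mul_rpow`, `Real.rpow_le_rpow`, a maximum is at most the sum); `ν w (algebraMap c) ≤ max 1 ‖algebraMap K K' c‖`; `ν w (d k x) ≤ exp C * ν w x`; and `ν w x ≤ C` gives `posLog (nr w (ι x)) ≤ posLog C * (1 + log ‖w‖)`.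
-/

namespace Pool.Agent.Work.MP_e120ef_ag.H

variable (K : Type) {M κ : Type} [Field M]

/-- a valuation ring containing `K` and preserved by the maps `d k` -/
structure PreV [Field K] [Algebra K M] (d : κ → M → M) (𝒪 : ValuationSubring M) : Prop where
  alg : ∀ c : K, algebraMap K M c ∈ 𝒪
  mem : ∀ k x, x ∈ 𝒪 → d k x ∈ 𝒪

/-- the maximal ideal is preserved too -/
structure InvV [Field K] [Algebra K M] (d : κ → M → M) (𝒪 : ValuationSubring M) : Prop
    extends PreV K d 𝒪 where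
  non : ∀ k x, x ∈ 𝒪.nonunits → d k x ∈ 𝒪.nonunits

variable {K}

theorem comap_nonunits {M' : Type} [Field M'] (f : M →+* M') (𝒪 : ValuationSubring M') (x : M) :
    x ∈ (𝒪.comap f).nonunits ↔ f x ∈ 𝒪.nonunits := by
  rw [ValuationSubring.mem_nonunits_iff_or, ValuationSubring.mem_nonunits_iff_or,
    ValuationSubring.mem_comap, map_inv₀, map_eq_zero]

/-- a power of a nonarchimedean absolute value, along a field map -/
noncomputable def VP_av {M' : Type} [Field M'] (f : M →+* M') (v : AbsoluteValue M' ℝ)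
    (hv : IsNonarchimedean v) {e : ℝ} (he : 0 < e) : AbsoluteValue M ℝ where
  toFun x := v (f x) ^ e
  map_mul' x y := by rw [map_mul, map_mul, Real.mul_rpow (v.nonneg _) (v.nonneg _)]
  nonneg' x := Real.rpow_nonneg (v.nonneg _) e
  eq_zero' x := by rw [Real.rpow_eq_zero (v.nonneg _) he.ne', v.eq_zero, map_eq_zero]
  add_le' x y := by
    have h1 := Real.rpow_nonneg (v.nonneg (f x)) e
    have h2 := Real.rpow_nonneg (v.nonneg (f y)) e
    rw [map_add]
    rcases le_max_iff.1 (hv (f x) (f y)) with h | h <;>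
      linarith [Real.rpow_le_rpow (v.nonneg _) h he.le]

theorem VP_av_na {M' : Type} [Field M'] (f : M →+* M') (v : AbsoluteValue M' ℝ)
    (hv : IsNonarchimedean v) {e : ℝ} (he : 0 < e) : IsNonarchimedean (VP_av f v hv he) := by
  intro x y
  change v (f (x + y)) ^ e ≤ max (v (f x) ^ e) (v (f y) ^ e)
  rw [map_add, le_max_iff]
  exact (le_max_iff.1 (hv (f x) (f y))).imp (fun h => Real.rpow_le_rpow (v.nonneg _) h he.le)
    fun h => Real.rpow_le_rpow (v.nonneg _) h he.le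

theorem invp [Field K] [Algebra K M] {ι : Type} (ν : ι → AbsoluteValue M ℝ)
    (hν : ∀ i, IsNonarchimedean (ν i)) (hK : ∀ c : K, ∃ C, ∀ i, ν i (algebraMap K M c) ≤ C)
    {d : κ → M → M} (hd : ∀ k, ∃ C, 0 ≤ C ∧ ∀ i x, ν i (d k x) ≤ C * ν i x) {x : M}
    (h : ∀ 𝒪, InvV K d 𝒪 → x ∈ 𝒪) : ∃ C, ∀ i, ν i x ≤ C := by
  refine bdd_of_ultra (hν := hν) fun 𝒰 => h _ ⟨⟨fun c => ?_, fun k y hy => ?_⟩, fun k y hy => ?_⟩
  · obtain ⟨C, hC⟩ := hK c
    exact ⟨C, Filter.Eventually.of_forall hC⟩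
  · obtain ⟨C, h0, hC⟩ := hd k
    exact bddR_map hC h0 hy
  · obtain ⟨C, -, hC⟩ := hd k
    exact bddR_map_nonunits hC hy

theorem ubp [NontriviallyNormedField K] [Algebra K M] {L ι : Type} [NontriviallyNormedField L]
    [IsUltrametricDist L] [NormedAlgebra K L] (f : ι → M →ₐ[K] L) {d : κ → M → M}
    (hd : ∀ k, ∃ C, 0 ≤ C ∧ ∀ i x, ‖f i (d k x)‖ ≤ C * ‖f i x‖) {x : M}
    (h : ∀ 𝒪, InvV K d 𝒪 → x ∈ 𝒪) : ∃ C, ∀ i, ‖f i x‖ ≤ C := by
  have hv : IsNonarchimedean (NormedField.toAbsoluteValue L) := IsUltrametricDist.norm_add_le_max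
  have e : ∀ i y, VP_av (f i).toRingHom _ hv one_pos y = ‖f i y‖ := fun i y => Real.rpow_one _
  have := invp (K := K) (fun i => VP_av (f i).toRingHom _ hv one_pos)
    (fun i => VP_av_na _ _ _ _) (fun c => ⟨‖c‖, fun i => ?_⟩) (d := d) ?_ h
  · simpa only [e] using this
  · rw [e, AlgHom.commutes, norm_algebraMap']
  · simpa only [e] using hd

theorem pgp [Field K] [Algebra K M] {K' M' : Type} [NontriviallyNormedField K'] [Field M']
    [Algebra K K'] [Algebra K' M'] [Algebra K M'] [IsScalarTower K K' M'] (N : Nev K' Rad.out M')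
    (f : M →ₐ[K] M') {d : κ → M → M}
    (hd : ∀ k, ∃ C, ∀ (w : Pt1 K' Rad.out) x,
      N.nr w (f (d k x)) ≤ Real.exp (C * (1 + Real.log ‖w.v‖)) * N.nr w (f x)) {x : M}
    (h : ∀ 𝒪, InvV K d 𝒪 → x ∈ 𝒪) : Le (fun w => Real.posLog (N.nr w (f x))) fun _ => 0 := by
  have h1 : ∀ w : Pt1 K' Rad.out, 1 ≤ 1 + Real.log ‖w.v‖ := fun w =>
    le_add_of_nonneg_right (Real.log_nonneg w.2)
  have h0 : ∀ w : Pt1 K' Rad.out, 0 < 1 + Real.log ‖w.v‖ := fun w => one_pos.trans_le (h1 w)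
  have e : ∀ (w : Pt1 K' Rad.out) y, VP_av f.toRingHom _ (N.av_na w) (inv_pos.2 (h0 w)) y =
      N.nr w (f y) ^ (1 + Real.log ‖w.v‖)⁻¹ := fun w y => rfl
  obtain ⟨C, hC⟩ := invp (K := K) (fun w => VP_av f.toRingHom _ (N.av_na w) (inv_pos.2 (h0 w)))
    (fun w => VP_av_na _ _ _ _) (fun c => ⟨max 1 ‖algebraMap K K' c‖, fun w => by
      rw [e, AlgHom.commutes, IsScalarTower.algebraMap_apply K K' M', N.nr_alg]
      refine (Real.rpow_le_rpow (norm_nonneg _) (le_max_right 1 _) (inv_pos.2 (h0 w)).le).trans ?_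
      exact Real.rpow_le_self_of_one_le (le_max_left _ _) (inv_le_one_of_one_le₀ (h1 w))⟩)
    (d := d) (fun k => by
      obtain ⟨C, hC⟩ := hd k
      refine ⟨Real.exp C, (Real.exp_pos C).le, fun w y => ?_⟩
      rw [e, e]
      refine (Real.rpow_le_rpow (N.nr_nonneg _ _) (hC w y) (inv_pos.2 (h0 w)).le).trans_eq ?_
      rw [Real.mul_rpow (Real.exp_pos _).le (N.nr_nonneg _ _), ← Real.exp_mul,
        mul_inv_cancel_right₀ (h0 w).ne']) h
  refine ⟨Real.log (max 1 C), fun w _ => ?_⟩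
  have h2 : N.nr w (f x) ≤ max 1 C ^ (1 + Real.log ‖w.v‖) := by
    have h3 := Real.rpow_le_rpow (Real.rpow_nonneg (N.nr_nonneg _ _) _)
      (((e w x).symm.trans_le (hC w)).trans (le_max_right 1 C)) (h0 w).le
    rwa [Real.rpow_inv_rpow (N.nr_nonneg _ _) (h0 w).ne'] at h3
  have h4 : (0 : ℝ) < max 1 C := one_pos.trans_le (le_max_left _ _)
  change Real.posLog (N.nr w (f x)) ≤ 0 + _
  rw [zero_add, Real.posLog_eq_log_max_one (N.nr_nonneg _ _), mul_comm, ← Real.log_rpow h4]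
  exact Real.log_le_log (one_pos.trans_le (le_max_left _ _))
    (max_le (Real.one_le_rpow (le_max_left _ _) (h0 w).le) h2)

end Pool.Agent.Work.MP_e120ef_ag.H
end
end

-- merged part: Pool.Agent.Work.MP_e120ef_ag.H.Arc
section
/-!
# The branches at infinity above a generic line

Plans.  `exists_arcs`: apply `puiseux` to `μ = m.map g`, `g : MvPolynomial (Fin n) K → K₁[X]`, `X l ↦ C (w l) * X` (`bez`; `g Δ ≠ 0` because `g` followed by evaluation at `1` is `aeval w`).  With `ζ l = ρ • w' l` one has `aeval (ρ Zf ^ e) ∘ g = lineE ζ ∘ toE` (`lineE_toE`).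
`ND.lift` with the point `im (lineE ζ (toE (X l)))` and the root `im (θ j)`, then `MI.lift` with `e = im ∘ lineE ζ` (`line_inj`, `w'_indep`), give `ι j`.  Apply `Arc_mk`.
Last part: write `E β * x = Q (J θ)` with `Q` of degree `< s` (`nf`, `modByMonic`); then `ι j x = ∑ i < s, c i * im (θ j) ^ i` with `c i = im (lineE (Q.coeff i)) / im (lineE β)`.  The `im (θ j)` are small and distinct (`ND.separable`), so by Vandermonde (`Matrix.det_vandermonde_ne_zero_iff`, `solve_mem` or Cramer, or Lagrange interpolation) the `c i` lie in the subfield of small functions (`sm_iff`); `rat_gen` makes them rational.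
`Arc_mk`: `μ l = e * z l`.  `D_ι`: `MI.der_eq` with `(nev ..).D.restrictScalars K`; on entire functions compare coefficients (`coef_D1`, `coef_line`, `euler_hc`, `pderiv_hc`, `DerL_ext`).  For `l` let `δ` extend `Γ.d l` to `K'` (`exists_der_ext`), `𝒟` from `exists_DC`; `δ (aeval ζ (hc (d + 1) a)) = ρ • aeval ζ (hc d (pderiv l a))` (`d_w`), so
`𝒟 (ι x) = ρ Zf ^ e * ι (pd l x)` (`MI.der_eq` with `c = Pi.single l _`); all `ι x` lie in `QL` (`nf`); `ρ Zf ^ e` has order `0` everywhere and norm `≥ ‖ρ‖`.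
`reg_B`: `ND.integral`, valuation rings are integrally closed, `im_regV`.  `sm`: `frac`, `ND.integral`, `ctl_root`, `RatG_sm`.
`Arc.preV`, `Arc.grow`: `hat_apply`, `Nev.Sm.nr_le`, the ultrametric inequality.
-/

open Polynomial

namespace Pool.Agent.Work.MP_e120ef_ag.H

theorem Arc_chain {K A σ : Type} [CommRing K] [CommRing A] [Algebra K A] [DecidableEq σ]
    (δ : Derivation K A A) (ζ : σ → A) (l : σ) (c : A) (h : ∀ i, δ (ζ i) = if i = l then c else 0)
    (P : MvPolynomial σ K) :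
    δ (MvPolynomial.aeval ζ P) = c * MvPolynomial.aeval ζ (MvPolynomial.pderiv l P) := by
  induction P using MvPolynomial.induction_on with
  | C a => simp
  | add p q hp hq => simp only [map_add, hp, hq, mul_add]
  | mul_X p i hp =>
    rw [map_mul, MvPolynomial.aeval_X, Derivation.leibniz, Derivation.leibniz, hp, h]
    by_cases hi : i = l
    · subst hi
      simp [mul_add, mul_comm, mul_left_comm]
    · simp [hi, MvPolynomial.pderiv_X_of_ne hi, mul_left_comm]

theorem Arc_int {R N : Type} [CommRing R] [Field N] (𝒪 : ValuationSubring N) (f : R →+* N)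
    (hf : ∀ r, f r ∈ 𝒪) {Q : R[X]} (hQ : Q.Monic) {x : N} (h : Q.eval₂ f x = 0) : x ∈ 𝒪 := by
  have h1 : IsIntegral 𝒪 x := ⟨Q.map (f.codRestrict 𝒪 hf), hQ.map _, by rw [eval₂_map]; exact h⟩
  obtain ⟨y, rfl⟩ := IsIntegrallyClosed.isIntegral_iff.1 h1
  exact y.2

theorem Arc_lag {N ι : Type} [Field N] [Fintype ι] (S : Subfield N) {v : ι → N}
    (hv : Function.Injective v) {p : N[X]} (hd : p.degree < Fintype.card ι) (h1 : ∀ j, v j ∈ S)
    (h2 : ∀ j, p.eval (v j) ∈ S) (i : ℕ) : p.coeff i ∈ S := by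
  classical
  have h3 : Set.InjOn (fun j => (⟨v j, h1 j⟩ : S)) (Finset.univ : Finset ι) :=
    fun _ _ _ _ h => hv (congrArg Subtype.val h)
  rw [eq_of_degrees_lt_of_eval_index_eq Finset.univ hv.injOn hd
    ((degree_map_le (f := S.subtype)).trans_lt
      (Lagrange.degree_interpolate_lt (fun j => (⟨_, h2 j⟩ : S)) h3)) fun j hj => ?_, coeff_map]
  · exact Subtype.prop _
  · rw [eval_map]
    exact ((eval₂_hom S.subtype (⟨v j, h1 j⟩ : S)).trans
      (congrArg S.subtype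
        (Lagrange.eval_interpolate_at_node (fun j => (⟨_, h2 j⟩ : S)) h3 hj))).symm

variable {K : Type} [NontriviallyNormedField K] [IsUltrametricDist K] [CompleteSpace K]
  [IsAlgClosed K] [CharZero K] {F : Type} [Field F] [Algebra K F] {B : Subalgebra K F} {n : ℕ}
  {𝒩 : ND B n} {M : Type} [Field M] [Algebra K M] (𝓜 : MI 𝒩 M) (K' : Type)
  [NontriviallyNormedField K'] [IsUltrametricDist K'] [CompleteSpace K'] [IsAlgClosed K']
  [CharZero K'] [NormedAlgebra K K']

section coef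

variable {K'} {P : Rad}

omit [CharZero K'] in
theorem Arc_shift (c : K') (e : ℕ) (f : L1 K' P) (m : ℤ) :
    coef (algebraMap K' (L1 K' P) c * Zf K' P ^ e * f) m = c * coef f (m - e) := by
  rw [mul_assoc, ← Algebra.smul_def, coef_smul]
  congr 1
  induction e generalizing m with
  | zero => simp
  | succ n ih =>
    have h := coef_lin_mul (0 : K') (Zf K' P ^ n * f) m
    rw [lin, map_zero, sub_zero, zero_mul, sub_zero] at h
    rw [pow_succ', mul_assoc, h, ih, Nat.cast_succ, sub_sub, add_comm]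

omit [CharZero K'] in
theorem Arc_sum {ι : Type} (s : Finset ι) (f : ι → L1 K' P) (m : ℤ) :
    coef (∑ i ∈ s, f i) m = ∑ i ∈ s, coef (f i) m := by
  classical
  induction s using Finset.induction_on with
  | empty => exact coef_zero m
  | insert i s hi ih => rw [Finset.sum_insert hi, Finset.sum_insert hi, coef_add, ih]

omit [CompleteSpace K] [IsAlgClosed K] [CharZero K] [CharZero K'] in
theorem Arc_lc (ζ : Fin n → K') {e : ℕ} (he : 0 < e) (a : Ent K (Fin n)) (m : ℤ) :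
    ∃ Q : MvPolynomial (Fin n) K, coef (lineE P ζ he a) m = MvPolynomial.aeval ζ Q ∧
      (∀ l, coef (lineE P ζ he (pdE K l a)) (m - e) =
        MvPolynomial.aeval ζ (MvPolynomial.pderiv l Q)) ∧
      m * MvPolynomial.aeval ζ Q =
        ∑ l, e * ζ l * MvPolynomial.aeval ζ (MvPolynomial.pderiv l Q) := by
  have he' : (e : ℤ) ≠ 0 := Int.natCast_ne_zero.2 he.ne'
  simp only [lineE, coef_line, pdE_val]
  by_cases h : ∃ d : ℕ, m = e * d
  · obtain ⟨d, rfl⟩ := h
    refine ⟨hc d a.1, lc_mul _ _ he' d, fun l => ?_, ?_⟩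
    · cases d with
      | zero =>
        rw [hc_zero, MvPolynomial.pderiv_C, map_zero]
        exact lc_of_not _ _ fun d h => by
          have : (0 : ℤ) ≤ e * d := by positivity
          omega
      | succ d => rw [pderiv_hc, Nat.cast_succ, mul_add_one, add_sub_cancel_right, lc_mul _ _ he']
    · have h1 := congrArg (MvPolynomial.aeval ζ) (euler_hc d a.1)
      simp only [map_sum, map_mul, MvPolynomial.aeval_X, map_nsmul, nsmul_eq_mul,
        map_natCast] at h1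
      simp only [mul_assoc, ← Finset.mul_sum, h1, Int.cast_mul, Int.cast_natCast]
  · refine ⟨0, (lc_of_not _ _ fun d hd => h ⟨d, hd⟩).trans (map_zero _).symm, fun l => ?_, by simp⟩
    rw [map_zero, map_zero]
    exact lc_of_not _ _ fun d hd => h ⟨d + 1, by push_cast; linear_combination hd⟩

omit [CompleteSpace K] [IsAlgClosed K] [CharZero K] [CharZero K'] in
theorem Arc_D1 (ζ : Fin n → K') {e : ℕ} (he : 0 < e) (a : Ent K (Fin n)) :
    D1 K' P (lineE P ζ he a) = ∑ l, e * lineE P ζ he (toE (K := K) (MvPolynomial.X l)) *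
      lineE P ζ he (pdE K l a) := by
  have h1 : ∀ l, e * lineE P ζ he (toE (K := K) (MvPolynomial.X l)) =
      algebraMap K' (L1 K' P) (e * ζ l) * Zf K' P ^ e := fun l => by
    rw [lineE_toE (K := K), MvPolynomial.aeval_X, map_mul, map_natCast, mul_assoc]
  refine DerL_ext fun m => ?_
  obtain ⟨Q, k1, k2, k3⟩ := Arc_lc (P := P) ζ he a m
  simp only [h1, coef_D1, Arc_sum, Arc_shift, k1, k2, k3]

omit [CompleteSpace K] [IsAlgClosed K] [CharZero K] [CharZero K'] in
theorem Arc_inj {ζ : Fin n → K'} (hζ : AlgebraicIndependent K ζ) {e : ℕ} (he : 0 < e) :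
    Function.Injective (lineE P ζ he : Ent K (Fin n) → L1 K' P) := by
  unfold lineE
  exact line_inj hζ

end coef

omit [CompleteSpace K] [IsAlgClosed K] [CharZero K] in
theorem Arc_mem {N : Type} [Field N] [Algebra K N] (ι : M →ₐ[K] N) (S : Subfield N)
    (h1 : ∀ a, ι (𝓜.E a) ∈ S) (h2 : ι (𝓜.J 𝒩.θ) ∈ S) (x : M) : ι x ∈ S := by
  obtain ⟨Q, β, h0, h⟩ := 𝓜.nf x
  rw [eq_inv_mul_iff_mul_eq₀ ((map_ne_zero_iff _ 𝓜.inj).2 h0) |>.2 h, eval₂_eq_sum_range, map_mul,
    map_inv₀, map_sum]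
  refine mul_mem (inv_mem (h1 β)) (sum_mem fun i _ => ?_)
  rw [map_mul, map_pow]
  exact mul_mem (h1 _) (pow_mem h2 i)

/-- a branch at infinity -/
structure Arc where
  ι : M →ₐ[K] MM K' Rad.out
  μ : Fin n → F
  D_ι : ∀ x, (nev K' Rad.out).D (ι x) = ι (∑ l, 𝓜.J (μ l) * 𝓜.pd l x)
  nr_pd : ∀ l, ∃ C : ℝ, 0 ≤ C ∧ ∀ w x,
    (nev K' Rad.out).nr w (ι (𝓜.pd l x)) ≤ C * (nev K' Rad.out).nr w (ι x)
  reg_pd : ∀ l z x, ι x ∈ (nev K' Rad.out).regV z → ι (𝓜.pd l x) ∈ (nev K' Rad.out).regV z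
  reg_B : ∀ b ∈ B, ∀ z, ι (𝓜.J b) ∈ (nev K' Rad.out).regV z
  sm : ∀ a, (nev K' Rad.out).Sm (ι (𝓜.J a))

variable {𝓜 K'}

theorem Arc.preV (γ : Arc 𝓜 K') {κ : Type} (ξ : κ → Derivation K F F)
    (hξ : ∀ k, ∀ b ∈ B, ξ k b ∈ B) (z : Pt1 K' Rad.out) :
    PreV K (fun k x => 𝓜.hat (ξ k) x) (((nev K' Rad.out).regV z).comap γ.ι.toRingHom) := by
  refine ⟨fun c => ?_, fun k x hx => ?_⟩
  · change γ.ι (algebraMap K M c) ∈ (nev K' Rad.out).regV z
    rw [AlgHom.commutes, IsScalarTower.algebraMap_apply K K']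
    exact Nev.regV_alg _ z _
  · change γ.ι (𝓜.hat (ξ k) x) ∈ (nev K' Rad.out).regV z
    rw [MI.hat_apply, map_sum]
    refine sum_mem fun l _ => ?_
    rw [map_mul]
    exact mul_mem (γ.reg_B _ (hξ k _ (𝒩.z_mem l)) z) (γ.reg_pd l z x hx)

theorem Arc.grow (γ : Arc 𝓜 K') (ξ : Derivation K F F) : ∃ C : ℝ, ∀ (w : Pt1 K' Rad.out) x,
    (nev K' Rad.out).nr w (γ.ι (𝓜.hat ξ x)) ≤
      Real.exp (C * (1 + Real.log ‖w.v‖)) * (nev K' Rad.out).nr w (γ.ι x) := by
  choose C h0 hC using γ.nr_pd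
  choose D k0 hD using fun l => (γ.sm (ξ (𝒩.z l))).nr_le
  refine ⟨∑ l, D l + ∑ l, C l, fun w x => ?_⟩
  have hw : 1 ≤ ‖w.v‖ := w.2
  have h1 : 1 ≤ 1 + Real.log ‖w.v‖ := le_add_of_nonneg_right (Real.log_nonneg hw)
  have h2 : 0 ≤ ∑ l, C l := Finset.sum_nonneg fun l _ => h0 l
  have h3 : ∑ l, C l ≤ Real.exp ((∑ l, C l) * (1 + Real.log ‖w.v‖)) :=
    (le_mul_of_one_le_right h2 h1).trans ((le_add_of_nonneg_right zero_le_one).trans
      (Real.add_one_le_exp _))
  have h4 := (nev K' Rad.out).nr_nonneg w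
  rw [MI.hat_apply, map_sum, add_mul, Real.exp_add, mul_assoc]
  refine (((nev K' Rad.out).av w).sum_le _ _).trans (le_trans ?_ (mul_le_mul_of_nonneg_left
    (mul_le_mul_of_nonneg_right h3 (h4 _)) (Real.exp_nonneg _)))
  rw [Finset.sum_mul _ C, Finset.mul_sum]
  refine Finset.sum_le_sum fun l _ => ?_
  rw [map_mul, map_mul]
  exact mul_le_mul ((hD l w hw).trans (Real.exp_le_exp.2 (mul_le_mul_of_nonneg_right
    (Finset.single_le_sum (fun i _ => k0 i) (Finset.mem_univ l)) (by linarith)))) (hC l w x) (h4 _)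
    (Real.exp_nonneg _)

/-- what lies in all preserved valuation rings is small -/
theorem Arc.sm_of_preV (γ : Arc 𝓜 K') {κ : Type} (ξ : κ → Derivation K F F)
    (hξ : ∀ k, ∀ b ∈ B, ξ k b ∈ B) {x : M}
    (h : ∀ 𝒪, PreV K (fun k x => 𝓜.hat (ξ k) x) 𝒪 → x ∈ 𝒪) : (nev K' Rad.out).Sm (γ.ι x) := by
  refine Nev.sm_of (pgp _ γ.ι (fun k => γ.grow (ξ k)) fun 𝒪 h𝒪 => h 𝒪 h𝒪.toPreV) ?_
  refine Set.finite_empty.subset fun z hz => ?_
  have h1 : γ.ι x ∈ (nev K' Rad.out).regV z := h _ (γ.preV ξ hξ z)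
  exact absurd ((nev K' Rad.out).mem_regV.1 h1) (not_le.2 hz)

variable {K₁ : Type} [NontriviallyNormedField K₁] [IsUltrametricDist K₁] [CompleteSpace K₁]
  [NormedAlgebra K K₁] [NormedAlgebra K₁ K'] [IsScalarTower K K₁ K'] (Γ : GD K n K₁)

theorem Arc_mk {e : ℕ} (he : 0 < e) {ρ : K} (hρ : ρ ≠ 0) (L : IntermediateField K₁ K')
    [FiniteDimensional K₁ L] {ϑ : L1 K' Rad.out} (hϑ : ∀ m, coef ϑ m ∈ L)
    (ι : M →ₐ[K] MM K' Rad.out)
    (hE : ∀ a, ι (𝓜.E a) = im (lineE Rad.out (fun l => ρ • Γ.w' K' l) he a))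
    (hθ : ι (𝓜.J 𝒩.θ) = im ϑ) : ∃ γ : Arc 𝓜 K', γ.ι = ι := by
  obtain ⟨u, hu⟩ : ∃ u : L1 K' Rad.out,
      u = algebraMap K' _ (algebraMap K K' ρ) * Zf K' Rad.out ^ e := ⟨_, rfl⟩
  have hu1 : ∀ z, ‖ρ‖ ≤ ‖u.1 z‖ := fun z => by
    have h1 : u.1 z = algebraMap K K' ρ * z.v ^ e := by rw [hu]; rfl
    rw [h1, norm_mul, norm_pow, norm_algebraMap']
    exact le_mul_of_one_le_right (norm_nonneg _) (one_le_pow₀ z.2)
  have hρ' := norm_pos_iff.2 hρ
  have hu2 : ∀ z, u.1 z ≠ 0 := fun z => norm_pos_iff.1 (hρ'.trans_le (hu1 z))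
  have hu0 := Mer_val (hu2 (Pt1.one K' Rad.out))
  have hL : ∀ (a : Ent K (Fin n)) m, coef (lineE Rad.out (fun l => ρ • Γ.w' K' l) he a) m ∈ L := fun a m => by
    obtain ⟨Q, h1, -⟩ := Arc_lc (P := Rad.out) (fun l => ρ • Γ.w' K' l) he a m
    have h2 := MvPolynomial.comp_aeval_apply (fun l => ρ • Γ.w l)
      (IsScalarTower.toAlgHom K K₁ K') Q
    simp only [map_smul] at h2
    exact h1 ▸ h2 ▸ L.algebraMap_mem _
  have hQ := Arc_mem 𝓜 ι (QL K Rad.out L) (fun a => hE a ▸ im_mem_QL (hL a)) (hθ ▸ im_mem_QL hϑ)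
  have key : ∀ l, ∃ C : ℝ, 0 ≤ C ∧ ∀ x, ∃ y, ι (𝓜.pd l x) = (im u)⁻¹ * y ∧
      (∀ w, (nev K' Rad.out).nr w y ≤ C * (nev K' Rad.out).nr w (ι x)) ∧
      ∀ z, ι x ∈ (nev K' Rad.out).regV z → y ∈ (nev K' Rad.out).regV z := by
    intro l
    obtain ⟨δ, hδ, -⟩ := exists_der_ext (IsScalarTower.toAlgHom K K₁ K') (Γ.d l) (ι := Empty)
      (fun i => i.elim) (fun Q hQ => by
        rw [Q.eq_C_of_isEmpty] at hQ ⊢
        rw [MvPolynomial.eval₂_C, map_eq_zero] at hQ
        rw [hQ, map_zero]) fun i => i.elim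
    obtain ⟨𝒟, C, h0, h1, h2, h3⟩ := exists_DC Rad.out L (Γ.d l) (C := 1)
      (by simpa using Γ.d_le l) δ hδ
    refine ⟨C, h0, fun x => ⟨𝒟 (ι x), ?_, h2 _ (hQ x), h3 _ (hQ x)⟩⟩
    rw [eq_inv_mul_iff_mul_eq₀ (im_ne hu0), 𝓜.der_eq ι 𝒟 (Pi.single l (im u)) fun a => ?_]
    · simp [Pi.single_apply]
    rw [Finset.sum_eq_single_of_mem l (Finset.mem_univ l) fun i _ hi => by
      rw [Pi.single_eq_of_ne hi, zero_mul], Pi.single_eq_same, hE, hE, ← map_mul]
    refine h1 _ _ (hL a) fun m => ?_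
    obtain ⟨Q, k1, k2, -⟩ := Arc_lc (P := Rad.out) (fun l => ρ • Γ.w' K' l) he a m
    rw [hu, Arc_shift, k1, k2, Arc_chain δ _ l (algebraMap K K' ρ) fun i => ?_]
    rw [Derivation.map_smul, show δ (Γ.w' K' i) = _ from hδ (Γ.w i), GD.d_w]
    split_ifs <;> simp [Algebra.smul_def]
  have hJ : ∀ γ, ι (𝓜.J (MvPolynomial.aeval 𝒩.z γ)) =
      im (lineE Rad.out (fun l => ρ • Γ.w' K' l) he (toE γ)) := fun γ => by rw [← 𝓜.compat, hE]
  have hI : ∀ b : B, ∃ Q : (MvPolynomial (Fin n) K)[X], Q.Monic ∧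
      Q.eval₂ ((ι.comp 𝓜.J).toRingHom.comp (ND.ae 𝒩.z)) (ι (𝓜.J b)) = 0 := fun b => by
    obtain ⟨Q, h1, h2⟩ := 𝒩.integral b
    exact ⟨Q, h1, (hom_eval₂ Q _ (ι.comp 𝓜.J).toRingHom _).symm.trans (by rw [h2, map_zero])⟩
  refine ⟨⟨ι, fun l => e * 𝒩.z l, fun x => ?_, fun l => ?_, fun l z x hx => ?_, fun b hb z => ?_,
    fun a => ?_⟩, rfl⟩
  · rw [map_sum, Finset.sum_congr rfl fun l _ => map_mul ι _ _]
    refine 𝓜.der_eq ι ((nev K' Rad.out).D.restrictScalars K) _ (fun a => ?_) x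
    rw [Derivation.restrictScalars_apply, hE, nev_D, Arc_D1, im, map_sum]
    refine Finset.sum_congr rfl fun l _ => ?_
    rw [map_mul 𝓜.J, map_mul ι, map_natCast, map_natCast, ← 𝓜.E_X, hE, hE, map_mul, map_mul,
      map_natCast]
  · obtain ⟨C, h0, h⟩ := key l
    refine ⟨‖ρ‖⁻¹ * C, by positivity, fun w x => ?_⟩
    obtain ⟨y, h1, h2, -⟩ := h x
    rw [h1, Nev.nr_mul, NevA_nr_inv, nev_nr, mul_assoc]
    exact mul_le_mul (inv_anti₀ hρ' ((hu1 w).trans (norm_le_gn u rfl))) (h2 w)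
      (Nev.nr_nonneg _ _ _) (by positivity)
  · obtain ⟨C, -, h⟩ := key l
    obtain ⟨y, h1, -, h2⟩ := h x
    rw [h1]
    refine mul_mem ((Nev.mem_regV _).2 ?_) (h2 z hx)
    rw [NevA_ord_inv, nev_ord z hu0, Mer_unit (hu2 z), Nat.cast_zero, neg_zero]
  · obtain ⟨Q, h1, h2⟩ := hI ⟨b, hb⟩
    exact Arc_int _ _ (fun γ => hJ γ ▸ im_regV _ z) h1 h2
  · obtain ⟨γ, h0, hb⟩ := 𝒩.frac a
    obtain ⟨Q, h1, h2⟩ := hI ⟨_, hb⟩
    have h3 := fun γ => Nev.sm_iff.1 (hJ γ ▸ RatG_sm (fun l => ρ • Γ.w' K' l) he γ)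
    have h4 := Nev.ctl_root (h1.map ((ι.comp 𝓜.J).toRingHom.comp (ND.ae 𝒩.z))).ne_zero
      (fun i => by rw [coeff_map]; exact h3 _) ((eval_map _ _).trans h2)
    have h5 : MvPolynomial.aeval 𝒩.z γ ≠ 0 := fun h => h0 (algebraicIndependent_iff.1 𝒩.tb.1 γ h)
    rw [Nev.sm_iff, ← inv_mul_cancel_left₀ h5 a, map_mul, map_mul, map_inv₀, map_inv₀]
    exact mul_mem (inv_mem (h3 γ)) h4

variable (𝓜 K')

include Γ in
theorem exists_arcs : ∃ (s : ℕ) (γ : Fin s → Arc 𝓜 K'),
    ∀ x, (∀ j, (nev K' Rad.out).Sm ((γ j).ι x)) → ∃ a, x = 𝓜.J a := by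
  classical
  let g := ND.ae (K := K) fun l => C (Γ.w l) * (X : K₁[X])
  have hg : g 𝒩.Δ ≠ 0 := fun h => 𝒩.Δ_ne (algebraicIndependent_iff.1 Γ.w_indep _ (by
    have h1 := MvPolynomial.comp_aeval_apply (fun l => C (Γ.w l) * (X : K₁[X]))
      ((aeval (1 : K₁) : K₁[X] →ₐ[K₁] K₁).restrictScalars K) 𝒩.Δ
    rw [show MvPolynomial.aeval (fun l => C (Γ.w l) * (X : K₁[X])) 𝒩.Δ = 0 from h, map_zero] at h1
    simpa using h1.symm))
  obtain ⟨a, b, hab⟩ := 𝒩.bez
  obtain ⟨e, he, ρ, hρ, L, _, θ, h1, h2⟩ := puiseux K (K' := K') (𝒩.m.map g) (𝒩.monic.map g)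
    (a := a.map g) (b := b.map g) hg (by
      rw [derivative_map, ← Polynomial.map_mul, ← Polynomial.map_mul, ← Polynomial.map_add, hab,
        map_C])
  have hζ := Γ.w'_indep K' ρ hρ
  let ε : Ent K (Fin n) →ₐ[K] MM K' Rad.out := (IsScalarTower.toAlgHom K (L1 K' Rad.out) _).comp
    (lineE Rad.out (fun l => ρ • Γ.w' K' l) he)
  have hε : Function.Injective ε :=
    (IsFractionRing.injective (L1 K' Rad.out) _).comp (Arc_inj hζ he)
  have h3 : (MvPolynomial.aeval fun l => ε (toE (MvPolynomial.X l))) = ε.comp toE :=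
    MvPolynomial.algHom_ext fun l => MvPolynomial.aeval_X _ _
  have h4 : AlgebraicIndependent K fun l => ε (toE (MvPolynomial.X l)) := by
    rw [algebraicIndependent_iff_injective_aeval, h3]
    exact hε.comp toE_inj
  have h5 : 𝒩.m.map (ND.ae fun l => ε (toE (MvPolynomial.X l))) = ∏ j, (X - C (im (θ j))) := by
    have h6 := congrArg (Polynomial.map (algebraMap (L1 K' Rad.out) (MM K' Rad.out))) h2
    simp only [Polynomial.map_prod, Polynomial.map_sub, map_X, map_C, Polynomial.map_map] at h6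
    rw [← h6]
    refine congrArg (fun f => 𝒩.m.map f) (MvPolynomial.ringHom_ext (fun c => ?_) fun l => ?_)
    · simp only [g, AlgHom.toRingHom_eq_coe, RingHom.comp_apply, RingHom.coe_coe,
        MvPolynomial.aeval_C, Polynomial.algebraMap_apply, aeval_C]
      refine congrArg im (Subtype.ext (funext fun t => ?_))
      exact IsScalarTower.algebraMap_apply K K₁ K' c
    · simp only [g, ε, AlgHom.toRingHom_eq_coe, RingHom.comp_apply, RingHom.coe_coe,
        MvPolynomial.aeval_X, AlgHom.comp_apply, lineE_toE, IsScalarTower.coe_toAlgHom']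
      rw [map_mul (aeval _), aeval_C, aeval_X]
      refine congrArg im (Subtype.ext (funext fun t => ?_))
      change ρ • Γ.w' K' l * t.v ^ e = Γ.w' K' l * (algebraMap K K' ρ * t.v ^ e)
      rw [Algebra.smul_def]
      ring
  have h6 : Function.Injective fun j => im (θ j) := separable_prod_X_sub_C_iff.1
    (h5 ▸ 𝒩.separable fun h => 𝒩.Δ_ne (algebraicIndependent_iff.1 h4 _ h))
  have h7 : ∀ j, ∃ γ : Arc 𝓜 K', (∀ a, γ.ι (𝓜.E a) = ε a) ∧ γ.ι (𝓜.J 𝒩.θ) = im (θ j) := by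
    intro j
    obtain ⟨i, k1, k2⟩ := 𝒩.lift h4 (ϑ := im (θ j)) (by
      rw [← eval_map, h5, eval_prod]
      exact Finset.prod_eq_zero (Finset.mem_univ j) (by simp))
    obtain ⟨κ, k3, k4⟩ := 𝓜.lift ε hε i fun l => (k1 l).symm
    obtain ⟨γ, rfl⟩ := Arc_mk Γ he hρ L (h1 j) κ k3 ((k4 _).trans k2)
    exact ⟨γ, k3, (k4 _).trans k2⟩
  choose γ k1 k2 using h7
  refine ⟨_, γ, fun x hx => ?_⟩
  obtain ⟨Q, β, h0, h8⟩ := 𝓜.nf x
  have hm : 𝒩.mE.Monic := 𝒩.monic.map _
  rw [← eval₂_modByMonic_eq_self_of_root (MI_root 𝒩 𝓜.E 𝓜.J 𝓜.E_X)] at h8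
  have hlt := degree_modByMonic_lt Q hm
  rw [degree_eq_natDegree hm.ne_zero, show 𝒩.mE.natDegree = (𝒩.m.map g).natDegree from
    (𝒩.monic.natDegree_map _).trans (𝒩.monic.natDegree_map g).symm] at hlt
  generalize Q %ₘ 𝒩.mE = R at h8 hlt
  have hβ : ε β ≠ 0 := (map_ne_zero_iff _ hε).2 h0
  have hβ' : 𝓜.E β ≠ 0 := (map_ne_zero_iff _ 𝓜.inj).2 h0
  have h9 := Arc_lag _ h6 (p := C (ε β)⁻¹ * R.map ε.toRingHom) (by
    rw [degree_C_mul (inv_ne_zero hβ), Fintype.card_fin]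
    exact degree_map_le.trans_lt hlt) (fun j => Nev.sm_iff.1 (k2 j ▸ (γ j).sm _)) fun j => by
      have k3 := (congrArg (γ j).ι h8).trans (hom_eval₂ R _ (γ j).ι.toRingHom _)
      rw [map_mul, k1, show (γ j).ι.toRingHom.comp 𝓜.E.toRingHom = ε.toRingHom from
        RingHom.ext (k1 j), show (γ j).ι.toRingHom (𝓜.J 𝒩.θ) = im (θ j) from k2 j] at k3
      rw [eval_mul, eval_C, eval_map, ← k3, inv_mul_cancel_left₀ hβ]
      exact Nev.sm_iff.1 (hx j)
  obtain ⟨y, hy⟩ : x ∈ 𝓜.J.toRingHom.fieldRange := by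
    rw [(eq_inv_mul_iff_mul_eq₀ hβ').2 h8, eval₂_eq_sum_range, Finset.mul_sum]
    refine sum_mem fun i _ => ?_
    rw [← mul_assoc]
    refine mul_mem ?_ (pow_mem (𝓜.J.toRingHom.mem_fieldRange_self _) i)
    have k3 := h9 i
    rw [coeff_C_mul, coeff_map, ← div_eq_inv_mul] at k3
    obtain ⟨p, q, k4, k5⟩ := rat_gen hζ he h0 (Nev.sm_iff.2 k3)
    have k6 : 𝓜.E (toE q) ≠ 0 :=
      (map_ne_zero_iff _ 𝓜.inj).2 ((map_ne_zero_iff _ toE_inj).2 k4)
    refine ⟨MvPolynomial.aeval 𝒩.z p / MvPolynomial.aeval 𝒩.z q, ?_⟩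
    rw [map_div₀, ← div_eq_inv_mul]
    change 𝓜.J _ / 𝓜.J _ = 𝓜.E _ / _
    rw [← 𝓜.compat, ← 𝓜.compat, div_eq_div_iff k6 hβ', ← map_mul, ← map_mul, ← k5, mul_comm]
  exact ⟨y, hy.symm⟩

end Pool.Agent.Work.MP_e120ef_ag.H
end

-- merged part: Pool.Agent.Work.MP_e120ef_ag.C.Dsc2
section
/-!
# Elimination of one variable; expansion in a basis

Plans.  `gauss_bez`: over the fraction field `p`, `q` are coprime (an irreducible common factor comes from a primitive polynomial over `R`: `IsLocalization.integerNormalization`, `primPart`, `Polynomial.IsPrimitive.dvd_of_fraction_map_dvd_fraction_map`, `eq_C_content_mul_primPart`); clear the denominators of the Bezout relation.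
`elim_var`: `MvPolynomial.optionEquivLeft` and `MvPolynomial.renameEquiv` along `Equiv.optionSubtypeNe l` identify `MvPolynomial (Fin n) Kh` with `(MvPolynomial {i // i ≠ l} Kh)[X]`; a constant polynomial corresponds to `rename Subtype.val ρ₀` (`MvPolynomial.aeval_rename` or `eval_rename`).
`expand_fam`: a basis `e` of the `K`-span of the finitely many coefficients (`Module.finBasis`, `Submodule.span`), `r i j = ∑ α ∈ (q i).support, monomial α (coordinate j of the coefficient)`.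
`dense_pts`: expand `ρ`; some `ρ j ≠ 0`; if `g ≠ 0` apply `ent_exists` to `u * toE (ρ j * g)`; at a point `x` over `K` the value of `ρ` is `∑ (eval x (ρ j)) • e j`.
-/

namespace Pool.Agent.Work.MP_e120ef_ag.H.CS

open Polynomial in
theorem gauss_bez {R : Type} [CommRing R] [IsDomain R] [UniqueFactorizationMonoid R] {p q : R[X]}
    (h : IsRelPrime p q) : ∃ (a b : R[X]) (ρ : R), ρ ≠ 0 ∧ a * p + b * q = C ρ := by
  classical
  let _ : NormalizedGCDMonoid R := Nonempty.some inferInstance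
  let F := FractionRing R
  have hinj : Function.Injective (Polynomial.map (algebraMap R F)) :=
    map_injective _ (IsFractionRing.injective R F)
  have hrel : IsRelPrime (p.map (algebraMap R F)) (q.map (algebraMap R F)) := by
    intro d hp hq
    have hd : d ≠ 0 := by
      rintro rfl
      have h1 : p = 0 := hinj (by rw [zero_dvd_iff.1 hp, Polynomial.map_zero])
      have h2 : q = 0 := hinj (by rw [zero_dvd_iff.1 hq, Polynomial.map_zero])
      exact not_isUnit_zero (h (d := 0) (by rw [h1]) (by rw [h2]))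
    obtain ⟨c, c0, hc⟩ := IsLocalization.integerNormalization_spec (nonZeroDivisors R) d
    have hu : IsUnit (C (algebraMap R F c)) := isUnit_C.2 (isUnit_iff_ne_zero.2
      (IsFractionRing.to_map_ne_zero_of_mem_nonZeroDivisors c0))
    have h1 : (IsLocalization.integerNormalization (nonZeroDivisors R) d).primPart.map
        (algebraMap R F) ∣ d := by
      rw [← hu.dvd_mul_left, ← Polynomial.algebraMap_apply, ← Algebra.smul_def, ← hc]
      exact Polynomial.map_dvd _ (primPart_dvd _)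
    exact isUnit_or_eq_zero_of_isUnit_integerNormalization_primPart hd
      (h ((isPrimitive_primPart _).dvd_of_fraction_map_dvd_fraction_map (h1.trans hp))
        ((isPrimitive_primPart _).dvd_of_fraction_map_dvd_fraction_map (h1.trans hq)))
  obtain ⟨a, b, hab⟩ := hrel.isCoprime
  obtain ⟨c, c0, hc⟩ := IsLocalization.integerNormalization_spec (nonZeroDivisors R) a
  obtain ⟨d, d0, hd⟩ := IsLocalization.integerNormalization_spec (nonZeroDivisors R) b
  rw [Algebra.smul_def, Polynomial.algebraMap_apply] at hc hd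
  refine ⟨C d * IsLocalization.integerNormalization (nonZeroDivisors R) a,
    C c * IsLocalization.integerNormalization (nonZeroDivisors R) b, c * d,
    mul_ne_zero (nonZeroDivisors.ne_zero c0) (nonZeroDivisors.ne_zero d0), hinj ?_⟩
  simp only [Polynomial.map_add, Polynomial.map_mul, hc, hd, map_C, map_mul]
  linear_combination C (algebraMap R F c) * C (algebraMap R F d) * hab

theorem elim_var {Kh : Type} [Field Kh] {n : ℕ} {p q : MvPolynomial (Fin n) Kh} (h : IsRelPrime p q)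
    (l : Fin n) : ∃ a b ρ : MvPolynomial (Fin n) Kh, ρ ≠ 0 ∧ a * p + b * q = ρ ∧
      ∀ x y : Fin n → Kh, (∀ i, i ≠ l → x i = y i) →
        MvPolynomial.eval x ρ = MvPolynomial.eval y ρ := by
  classical
  let φ : MvPolynomial (Fin n) Kh ≃ₐ[Kh] Polynomial (MvPolynomial {i // i ≠ l} Kh) :=
    (MvPolynomial.renameEquiv Kh (Equiv.optionSubtypeNe l).symm).trans
      (MvPolynomial.optionEquivLeft Kh _)
  have hφ : ∀ r : MvPolynomial {i // i ≠ l} Kh,
      φ (MvPolynomial.rename Subtype.val r) = Polynomial.C r := fun r => by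
    induction r using MvPolynomial.induction_on with
    | C a => simp [φ]
    | add r s hr hs => rw [map_add, map_add, map_add, hr, hs]
    | mul_X r i hr =>
      rw [map_mul, map_mul, map_mul, hr]
      refine congrArg _ ?_
      simp [φ, Equiv.optionSubtypeNe_symm_of_ne i.2]
  have h1 : IsRelPrime (φ p) (φ q) := IsRelPrime.of_map φ.symm (by simpa using h)
  obtain ⟨a, b, ρ, hρ, e⟩ := gauss_bez h1
  refine ⟨φ.symm a, φ.symm b, MvPolynomial.rename Subtype.val ρ, fun h0 => hρ ?_,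
    φ.injective ?_, fun x y hxy => ?_⟩
  · have := hφ ρ
    rw [h0, map_zero] at this
    exact Polynomial.C_eq_zero.1 this.symm
  · rw [map_add, map_mul, map_mul, φ.apply_symm_apply, φ.apply_symm_apply, e, hφ]
  · have : (x ∘ Subtype.val : {i // i ≠ l} → Kh) = y ∘ Subtype.val := funext fun i => hxy i.1 i.2
    rw [MvPolynomial.eval_rename, MvPolynomial.eval_rename, this]

theorem expand_fam (K : Type) {Kh σ ι : Type} [Field K] [Field Kh] [Algebra K Kh] [Fintype ι]
    (q : ι → MvPolynomial σ Kh) : ∃ (s : ℕ) (e : Fin s → Kh) (r : ι → Fin s → MvPolynomial σ K),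
      LinearIndependent K e ∧
      ∀ i, q i = ∑ j, MvPolynomial.C (e j) * MvPolynomial.map (algebraMap K Kh) (r i j) := by
  classical
  let T : Finset Kh := Finset.univ.biUnion fun i => (q i).coeffs
  let V : Submodule K Kh := Submodule.span K (T : Set Kh)
  have : Module.Finite K V := Module.Finite.span_of_finite K T.finite_toSet
  let b := Module.finBasis K V
  have hm : ∀ i α, (q i).coeff α ∈ V := fun i α => by
    by_cases h0 : (q i).coeff α = 0
    · rw [h0]
      exact V.zero_mem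
    · exact Submodule.subset_span (Finset.mem_coe.2 (Finset.mem_biUnion.2
        ⟨i, Finset.mem_univ i, MvPolynomial.coeff_mem_coeffs α h0⟩))
  refine ⟨_, fun j => (b j : Kh),
    fun i j => ∑ α ∈ (q i).support, MvPolynomial.monomial α (b.repr ⟨_, hm i α⟩ j),
    b.linearIndependent.map' V.subtype V.ker_subtype, fun i => ?_⟩
  simp only [map_sum, MvPolynomial.map_monomial, Finset.mul_sum, MvPolynomial.C_mul_monomial]
  rw [Finset.sum_comm]
  refine (q i).as_sum.trans (Finset.sum_congr rfl fun α _ => ?_)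
  rw [← map_sum]
  congr 1
  have := congrArg V.subtype (b.sum_repr ⟨_, hm i α⟩)
  simp only [map_sum, map_smul, Submodule.subtype_apply] at this
  exact this.symm.trans (Finset.sum_congr rfl fun j _ => by rw [Algebra.smul_def, mul_comm])

theorem dense_pts {K Kh : Type} [NontriviallyNormedField K] [IsUltrametricDist K] [CompleteSpace K]
    [IsAlgClosed K] [Field Kh] [Algebra K Kh] {n : ℕ} {u : Ent K (Fin n)} (hu : u ≠ 0)
    {ρ : MvPolynomial (Fin n) Kh} (hρ : ρ ≠ 0) {g : MvPolynomial (Fin n) K}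
    (h : ∀ x : Fin n → K, evE x u ≠ 0 →
      MvPolynomial.eval (fun l => algebraMap K Kh (x l)) ρ ≠ 0 → MvPolynomial.eval x g = 0) :
    g = 0 := by
  obtain ⟨s, e, r, he, hr⟩ := expand_fam K (fun _ : Unit => ρ)
  have hr' := hr ()
  obtain ⟨j, hj⟩ : ∃ j, r () j ≠ 0 := by
    by_contra hn
    simp only [not_exists, not_not] at hn
    exact hρ (by rw [hr']; simp [hn])
  by_contra hg
  have h1 : u * toE (r () j * g) ≠ 0 :=
    mul_ne_zero hu fun h0 => mul_ne_zero hj hg (toE_inj (by rw [h0, map_zero]))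
  obtain ⟨x, hx⟩ := ent_exists h1
  rw [map_mul, evE_toE, map_mul, MvPolynomial.aeval_eq_eval] at hx
  refine right_ne_zero_of_mul (right_ne_zero_of_mul hx) (h x (left_ne_zero_of_mul hx) fun h0 => ?_)
  refine left_ne_zero_of_mul (right_ne_zero_of_mul hx)
    (Fintype.linearIndependent_iff.1 he (fun j => MvPolynomial.eval x (r () j)) ?_ j)
  rw [← h0, hr', map_sum]
  refine Finset.sum_congr rfl fun k _ => ?_
  rw [map_mul, MvPolynomial.eval_C, Algebra.smul_def, mul_comm, MvPolynomial.map_eval]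
  rfl

end Pool.Agent.Work.MP_e120ef_ag.H.CS
end
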