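import Pool.Agent.Work.MP_e120ef_ag.C.Dsc2
import Pool.Agent.Work.MP_e120ef_ag.Br.C4

attribute [-instance] Subalgebra.normedCommRing Subalgebra.seminormedCommRing
  Subalgebra.seminormedRing Subalgebra.normedRing
  Localization.subalgebra.instIsFractionRingSubtypeMemSubalgebra
attribute [local instance 2000] RingHomClass.toAddMonoidHomClass AddMonoidHomClass.toAddHomClass
  RingHom.instRingHomClass AlgHomClass.toRingHomClass IsDomain.to_noZeroDivisors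
  IsDomain.toNontrivial NeZero.one RingHomClass.toMonoidHomClass MonoidHomClass.toMulHomClass
  RingHomClass.toMonoidWithZeroHomClass AddMonoidHomClass.toZeroHomClass MonoidHomClass.toOneHomClass
attribute [-instance] instCharZeroOfIsSemireal AlgHom.instContinuousLinearMapClassOfAlgHomClass
  RingHomClass.toLinearMapClassRat RingHomClass.toLinearMapClassNNRat NumberField.to_charZero

/-!
# The arithmetic derivative along the branches at infinity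

Plans.  `exists_DD`: `exists_D₁`, `LD.le` with `RQ.map`, `exists_der_ext` over `k` (as in `Arc_mk`), `exists_Dt`.
`exists_arcsX`: copy `exists_arcs` (`H/Arc.lean`), keeping `e`, `ρ`, `L`; `hQ` as at the beginning of `Arc_mk` (`Arc_mem`, `mem_QL`).
`arc_D`: `exists_DC` over `k` with `d = Δ.D₁`; `c = algebraMap (D ρ) / (algebraMap ρ * e)`.  Apply `MI.der_zero` to `x ↦ 𝒟 (ι x) - ι (Dt x) - c * D (ι x)`; on `E a` put `g = lineE (DE a) + c • D1 (lineE a)` and compare coefficients (`coef_line`, `lc_mul`, `lc_of_not`, `line_chain` with `δ (ρ • w' l) = (D ρ / ρ) * (ρ • w' l)` from `DF_X`, `DF_alg`).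
`arc_small`: as `Arc.sm_of_preV`, with `arc_D`: `ι (Dt x) = 𝒟 (ι x) - c * D (ι x)`; `regV_D`, `regV_alg`, `nr_D`, `nr_alg`.
-/

open Polynomial

namespace Pool.Agent.Work.MP_e120ef_ag.H.CS

variable {k K : Type} [Field k] [CharZero k] [NontriviallyNormedField K] [IsUltrametricDist K]
  [CompleteSpace K] [IsAlgClosed K] [CharZero K] [Algebra k K] {F : Type} [Field F] [Algebra K F]
  {B : Subalgebra K F} {n : ℕ} {𝒩 : ND B n} {M : Type} [Field M] [Algebra K M] [Algebra k M]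
  [IsScalarTower k K M] {K₁ : Type} [NontriviallyNormedField K₁] [IsUltrametricDist K₁]
  [CompleteSpace K₁] [NormedAlgebra K K₁] [Algebra k K₁] [IsScalarTower k K K₁] (Γ : GD K n K₁)
  (𝓜 : MI 𝒩 M) (K' : Type) [NontriviallyNormedField K'] [IsUltrametricDist K'] [CompleteSpace K']
  [IsAlgClosed K'] [CharZero K'] [NormedAlgebra K K'] [NormedAlgebra K₁ K'] [IsScalarTower K K₁ K']
  [Algebra k K'] [IsScalarTower k K₁ K'] {D : Derivation k K K}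

/-- the extensions of a bounded derivation -/
structure DD (hD : ∀ x, ‖D x‖ ≤ ‖x‖) where
  D₁ : Derivation k K₁ K₁
  δ : Derivation k K' K'
  Dt : Derivation k M M
  D₁_τ : ∀ x, D₁ (Γ.τ x) = Γ.τ (DF (n := n) hD x)
  D₁_le : ∀ x, ‖D₁ x‖ ≤ ‖x‖
  δ_alg : ∀ x, δ (algebraMap K₁ K' x) = algebraMap K₁ K' (D₁ x)
  Dt_E : ∀ a, Dt (𝓜.E a) = 𝓜.E (DE hD a)

theorem exists_DD (hΓ : DenseRange Γ.τ) (hQ : RQ K) {lam : ℝ →ₗ[ℚ] ℚ} (hP : LD lam D)
    (hD : ∀ x, ‖D x‖ ≤ ‖x‖) : ∃ Δ : DD Γ 𝓜 K' hD, LD lam Δ.D₁ := by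
  obtain ⟨D₁, h1, h2⟩ := exists_D₁ Γ hQ hP hD hΓ
  obtain ⟨δ, hδ, -⟩ := exists_der_ext (IsScalarTower.toAlgHom k K₁ K') D₁ (ι := Empty)
    (fun i => i.elim) (fun Q hQ => by
      rw [Q.eq_C_of_isEmpty] at hQ ⊢
      rw [MvPolynomial.eval₂_C, map_eq_zero] at hQ
      rw [hQ, map_zero]) fun i => i.elim
  obtain ⟨Dt, h3⟩ := exists_Dt hD 𝓜
  exact ⟨⟨D₁, δ, Dt, h1, LD.le (hQ.map (algebraMap K K₁) (norm_algebraMap' K₁)) h2, hδ, h3⟩, h2⟩

variable {𝓜 K'} in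
/-- the equations of a branch -/
structure AX (γ : Arc 𝓜 K') where
  e : ℕ
  he : 0 < e
  ρ : K
  hρ : ρ ≠ 0
  L : IntermediateField K₁ K'
  fin : FiniteDimensional K₁ L
  hE : ∀ a, γ.ι (𝓜.E a) = im (lineE Rad.out (fun l => ρ • Γ.w' K' l) he a)
  hQ : ∀ x, ∃ p q : L1 K' Rad.out, (∀ m, coef p m ∈ L) ∧ (∀ m, coef q m ∈ L) ∧ q ≠ 0 ∧
    γ.ι x = im p / im q

theorem exists_arcsX : ∃ (s : ℕ) (γ : Fin s → Arc 𝓜 K'), (∀ j, Nonempty (AX Γ (γ j))) ∧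
    ∀ x, (∀ j, (nev K' Rad.out).Sm ((γ j).ι x)) → ∃ a, x = 𝓜.J a := by
  classical
  let g := ND.ae (K := K) fun l => C (Γ.w l) * (X : K₁[X])
  have hg : g 𝒩.Δ ≠ 0 := fun h => 𝒩.Δ_ne (algebraicIndependent_iff.1 Γ.w_indep _ (by
    have h1 := MvPolynomial.comp_aeval_apply (fun l => C (Γ.w l) * (X : K₁[X]))
      ((aeval (1 : K₁) : K₁[X] →ₐ[K₁] K₁).restrictScalars K) 𝒩.Δ
    rw [show MvPolynomial.aeval (fun l => C (Γ.w l) * (X : K₁[X])) 𝒩.Δ = 0 from h, map_zero] at h1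
    simpa using h1.symm))
  obtain ⟨a, b, hab⟩ := 𝒩.bez
  obtain ⟨e, he, ρ, hρ, L, _, θ, h1, h2⟩ := puiseux K (K' := K') (𝒩.m.map g) (𝒩.monic.map g)
    (a := a.map g) (b := b.map g) hg (by
      rw [derivative_map, ← Polynomial.map_mul, ← Polynomial.map_mul, ← Polynomial.map_add, hab,
        map_C])
  have hζ := Γ.w'_indep K' ρ hρ
  let ε : Ent K (Fin n) →ₐ[K] MM K' Rad.out := (IsScalarTower.toAlgHom K (L1 K' Rad.out) _).comp
    (lineE Rad.out (fun l => ρ • Γ.w' K' l) he)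
  have hε : Function.Injective ε :=
    (IsFractionRing.injective (L1 K' Rad.out) _).comp (Arc_inj hζ he)
  have h3 : (MvPolynomial.aeval fun l => ε (toE (MvPolynomial.X l))) = ε.comp toE :=
    MvPolynomial.algHom_ext fun l => MvPolynomial.aeval_X _ _
  have h4 : AlgebraicIndependent K fun l => ε (toE (MvPolynomial.X l)) := by
    rw [algebraicIndependent_iff_injective_aeval, h3]
    exact hε.comp toE_inj
  have h5 : 𝒩.m.map (ND.ae fun l => ε (toE (MvPolynomial.X l))) = ∏ j, (X - C (im (θ j))) := by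
    have h6 := congrArg (Polynomial.map (algebraMap (L1 K' Rad.out) (MM K' Rad.out))) h2
    simp only [Polynomial.map_prod, Polynomial.map_sub, map_X, map_C, Polynomial.map_map] at h6
    rw [← h6]
    refine congrArg (fun f => 𝒩.m.map f) (MvPolynomial.ringHom_ext (fun c => ?_) fun l => ?_)
    · simp only [g, AlgHom.toRingHom_eq_coe, RingHom.comp_apply, RingHom.coe_coe,
        MvPolynomial.aeval_C, Polynomial.algebraMap_apply, aeval_C]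
      refine congrArg im (Subtype.ext (funext fun t => ?_))
      exact IsScalarTower.algebraMap_apply K K₁ K' c
    · simp only [g, ε, AlgHom.toRingHom_eq_coe, RingHom.comp_apply, RingHom.coe_coe,
        MvPolynomial.aeval_X, AlgHom.comp_apply, lineE_toE, IsScalarTower.coe_toAlgHom']
      rw [map_mul (aeval _), aeval_C, aeval_X]
      refine congrArg im (Subtype.ext (funext fun t => ?_))
      change ρ • Γ.w' K' l * t.v ^ e = Γ.w' K' l * (algebraMap K K' ρ * t.v ^ e)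
      rw [Algebra.smul_def]
      ring
  have h6 : Function.Injective fun j => im (θ j) := separable_prod_X_sub_C_iff.1
    (h5 ▸ 𝒩.separable fun h => 𝒩.Δ_ne (algebraicIndependent_iff.1 h4 _ h))
  have hL : ∀ (a : Ent K (Fin n)) m,
      coef (lineE Rad.out (fun l => ρ • Γ.w' K' l) he a) m ∈ L := fun a m => by
    obtain ⟨Q, h1, -⟩ := Arc_lc (P := Rad.out) (fun l => ρ • Γ.w' K' l) he a m
    have h2 := MvPolynomial.comp_aeval_apply (fun l => ρ • Γ.w l)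
      (IsScalarTower.toAlgHom K K₁ K') Q
    simp only [map_smul] at h2
    exact h1 ▸ h2 ▸ L.algebraMap_mem _
  have h7 : ∀ j, ∃ γ : Arc 𝓜 K', (∀ a, γ.ι (𝓜.E a) = ε a) ∧ γ.ι (𝓜.J 𝒩.θ) = im (θ j) := by
    intro j
    obtain ⟨i, k1, k2⟩ := 𝒩.lift h4 (ϑ := im (θ j)) (by
      rw [← eval_map, h5, eval_prod]
      exact Finset.prod_eq_zero (Finset.mem_univ j) (by simp))
    obtain ⟨κ, k3, k4⟩ := 𝓜.lift ε hε i fun l => (k1 l).symm
    obtain ⟨γ, rfl⟩ := Arc_mk Γ he hρ L (h1 j) κ k3 ((k4 _).trans k2)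
    exact ⟨γ, k3, (k4 _).trans k2⟩
  choose γ k1 k2 using h7
  refine ⟨_, γ, fun j => ⟨⟨e, he, ρ, hρ, L, inferInstance, k1 j, fun x => ?_⟩⟩, fun x hx => ?_⟩
  · obtain ⟨p, hp, q, hq, h0, h⟩ := Arc_mem 𝓜 (γ j).ι (QL K Rad.out L)
      (fun a => k1 j a ▸ im_mem_QL (hL a)) (k2 j ▸ im_mem_QL (h1 j)) x
    exact ⟨p, q, hp, hq, h0, h⟩
  obtain ⟨Q, β, h0, h8⟩ := 𝓜.nf x
  have hm : 𝒩.mE.Monic := 𝒩.monic.map _
  rw [← eval₂_modByMonic_eq_self_of_root (MI_root 𝒩 𝓜.E 𝓜.J 𝓜.E_X)] at h8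
  have hlt := degree_modByMonic_lt Q hm
  rw [degree_eq_natDegree hm.ne_zero, show 𝒩.mE.natDegree = (𝒩.m.map g).natDegree from
    (𝒩.monic.natDegree_map _).trans (𝒩.monic.natDegree_map g).symm] at hlt
  generalize Q %ₘ 𝒩.mE = R at h8 hlt
  have hβ : ε β ≠ 0 := (map_ne_zero_iff _ hε).2 h0
  have hβ' : 𝓜.E β ≠ 0 := (map_ne_zero_iff _ 𝓜.inj).2 h0
  have h9 := Arc_lag _ h6 (p := C (ε β)⁻¹ * R.map ε.toRingHom) (by
    rw [degree_C_mul (inv_ne_zero hβ), Fintype.card_fin]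
    exact degree_map_le.trans_lt hlt) (fun j => Nev.sm_iff.1 (k2 j ▸ (γ j).sm _)) fun j => by
      have k3 := (congrArg (γ j).ι h8).trans (hom_eval₂ R _ (γ j).ι.toRingHom _)
      rw [map_mul, k1, show (γ j).ι.toRingHom.comp 𝓜.E.toRingHom = ε.toRingHom from
        RingHom.ext (k1 j), show (γ j).ι.toRingHom (𝓜.J 𝒩.θ) = im (θ j) from k2 j] at k3
      rw [eval_mul, eval_C, eval_map, ← k3, inv_mul_cancel_left₀ hβ]
      exact Nev.sm_iff.1 (hx j)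
  obtain ⟨y, hy⟩ : x ∈ 𝓜.J.toRingHom.fieldRange := by
    rw [(eq_inv_mul_iff_mul_eq₀ hβ').2 h8, eval₂_eq_sum_range, Finset.mul_sum]
    refine sum_mem fun i _ => ?_
    rw [← mul_assoc]
    refine mul_mem ?_ (pow_mem (𝓜.J.toRingHom.mem_fieldRange_self _) i)
    have k3 := h9 i
    rw [coeff_C_mul, coeff_map, ← div_eq_inv_mul] at k3
    obtain ⟨p, q, k4, k5⟩ := rat_gen hζ he h0 (Nev.sm_iff.2 k3)
    have k6 : 𝓜.E (toE q) ≠ 0 :=
      (map_ne_zero_iff _ 𝓜.inj).2 ((map_ne_zero_iff _ toE_inj).2 k4)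
    refine ⟨MvPolynomial.aeval 𝒩.z p / MvPolynomial.aeval 𝒩.z q, ?_⟩
    rw [map_div₀, ← div_eq_inv_mul]
    change 𝓜.J _ / 𝓜.J _ = 𝓜.E _ / _
    rw [← 𝓜.compat, ← 𝓜.compat, div_eq_div_iff k6 hβ', ← map_mul, ← map_mul, ← k5, mul_comm]
  exact ⟨y, hy.symm⟩

variable {Γ 𝓜 K'} {γ : Arc 𝓜 K'} (a : AX Γ γ) {hD : ∀ x, ‖D x‖ ≤ ‖x‖} (Δ : DD Γ 𝓜 K' hD)

theorem DD.D₁_alg (c : K) : Δ.D₁ (algebraMap K K₁ c) = algebraMap K K₁ (D c) := by
  rw [← Γ.τ.commutes, Δ.D₁_τ, DF_alg, Γ.τ.commutes]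

theorem DD.δ_K (c : K) : Δ.δ (algebraMap K K' c) = algebraMap K K' (D c) := by
  rw [IsScalarTower.algebraMap_apply K K₁ K', Δ.δ_alg, Δ.D₁_alg,
    ← IsScalarTower.algebraMap_apply]

theorem DD.δ_w (l : Fin n) : Δ.δ (Γ.w' K' l) = 0 := by
  rw [GD.w', Δ.δ_alg, GD.w, GD.t_apply, Δ.D₁_τ, DF_X, map_zero, map_zero]

theorem ArcX_coef {e : ℕ} (he : 0 < e) {ρ : K} (hρ : ρ ≠ 0) (b : Ent K (Fin n)) (m : ℤ) :
    Δ.δ (coef (lineE Rad.out (fun l => ρ • Γ.w' K' l) he b) m) =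
      coef (lineE Rad.out (fun l => ρ • Γ.w' K' l) he (DE hD b)) m +
        algebraMap K K' (D ρ / ρ) / e *
          (m * coef (lineE Rad.out (fun l => ρ • Γ.w' K' l) he b) m) := by
  have he' : (e : ℤ) ≠ 0 := Int.natCast_ne_zero.2 he.ne'
  have he'' : (e : K') ≠ 0 := Nat.cast_ne_zero.2 he.ne'
  simp only [lineE, coef_line, DE_val]
  by_cases h : ∃ d : ℕ, m = e * d
  · obtain ⟨d, rfl⟩ := h
    rw [lc_mul _ _ he', lc_mul _ _ he', line_chain D Δ.δ Δ.δ_K _ (algebraMap K K' (D ρ / ρ))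
      fun s => ?_]
    · push_cast
      field_simp
    · have h1 : algebraMap K K' ρ ≠ 0 := (_root_.map_ne_zero _).2 hρ
      rw [Algebra.smul_def, Derivation.leibniz, Δ.δ_w, Δ.δ_K, map_div₀, smul_zero, zero_add,
        smul_eq_mul]
      field_simp
  · rw [lc_of_not _ _ fun d hd => h ⟨d, hd⟩, lc_of_not _ _ fun d hd => h ⟨d, hd⟩]
    simp

theorem arc_D : ∃ (𝒟 : Derivation k (MM K' Rad.out) (MM K' Rad.out)) (c : K') (C : ℝ), 0 ≤ C ∧
    (∀ f g : L1 K' Rad.out, (∀ m, coef f m ∈ a.L) → (∀ m, coef g m = Δ.δ (coef f m)) →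
      𝒟 (im f) = im g) ∧
    (∀ x, 𝒟 (γ.ι x) = γ.ι (Δ.Dt x) + algebraMap K' _ c * (nev K' Rad.out).D (γ.ι x)) ∧
    (∀ x w, (nev K' Rad.out).nr w (𝒟 (γ.ι x)) ≤ C * (nev K' Rad.out).nr w (γ.ι x)) ∧
    ∀ x z, γ.ι x ∈ (nev K' Rad.out).regV z → 𝒟 (γ.ι x) ∈ (nev K' Rad.out).regV z := by
  have := a.fin
  obtain ⟨𝒟, C, h0, h1, h2, h3⟩ := exists_DC Rad.out a.L Δ.D₁ (C := 1)
    (by simpa using Δ.D₁_le) Δ.δ Δ.δ_alg
  have hQ : ∀ x, γ.ι x ∈ QL k Rad.out a.L := fun x => by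
    obtain ⟨p, q, hp, hq, k0, k1⟩ := a.hQ x
    exact ⟨p, hp, q, hq, k0, k1⟩
  obtain ⟨c, hc⟩ : ∃ c : K', c = algebraMap K K' (D a.ρ / a.ρ) / a.e := ⟨_, rfl⟩
  refine ⟨𝒟, c, C, h0, h1, fun x => ?_, fun x => h2 _ (hQ x), fun x => h3 _ (hQ x)⟩
  rw [← sub_eq_zero]
  refine 𝓜.der_zero γ.ι (AddMonoidHom.mk' (fun x => 𝒟 (γ.ι x) -
    (γ.ι (Δ.Dt x) + algebraMap K' _ c * (nev K' Rad.out).D (γ.ι x))) fun u v => ?_)
    (fun u v => ?_) (fun b => ?_) x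
  · simp only [map_add]
    ring
  · simp only [AddMonoidHom.mk'_apply, map_mul, Derivation.leibniz, smul_eq_mul, map_add]
    ring
  · have hL : ∀ m, coef (lineE Rad.out (fun l => a.ρ • Γ.w' K' l) a.he b) m ∈ a.L := fun m => by
      obtain ⟨Q, h1, -⟩ := Arc_lc (P := Rad.out) (fun l => a.ρ • Γ.w' K' l) a.he b m
      have h2 := MvPolynomial.comp_aeval_apply (fun l => a.ρ • Γ.w l)
        (IsScalarTower.toAlgHom K K₁ K') Q
      simp only [map_smul] at h2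
      exact h1 ▸ h2 ▸ a.L.algebraMap_mem _
    rw [AddMonoidHom.mk'_apply, Δ.Dt_E, a.hE, a.hE, nev_D, h1 _
      (lineE Rad.out (fun l => a.ρ • Γ.w' K' l) a.he (DE hD b) +
        c • D1 K' _ (lineE Rad.out (fun l => a.ρ • Γ.w' K' l) a.he b)) hL fun m => by
      rw [coef_add, coef_smul, coef_D1, ArcX_coef Δ a.he a.hρ, hc], sub_eq_zero, im, map_add,
      Algebra.smul_def, map_mul, ← IsScalarTower.algebraMap_apply]

include a in
theorem arc_small (ξ : Derivation K F F) (hξ : ∀ b ∈ B, ξ b ∈ B) {x : M}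
    (h : ∀ 𝒪 : ValuationSubring M, (∀ c : K, algebraMap K M c ∈ 𝒪) →
      (∀ y ∈ 𝒪, 𝓜.hat ξ y ∈ 𝒪) → (∀ y ∈ 𝒪, Δ.Dt y ∈ 𝒪) → x ∈ 𝒪) :
    (nev K' Rad.out).Sm (γ.ι x) := by
  obtain ⟨𝒟, c, C, h0, -, h1, h2, h3⟩ := arc_D a Δ
  have h4 : ∀ y, γ.ι (Δ.Dt y) = 𝒟 (γ.ι y) - algebraMap K' _ c * (nev K' Rad.out).D (γ.ι y) :=
    fun y => by rw [h1, add_sub_cancel_right]
  refine Nev.sm_of (pgp _ γ.ι (d := fun (b : Bool) y => cond b (𝓜.hat ξ y) (Δ.Dt y))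
    (fun b => ?_) fun 𝒪 h𝒪 => h 𝒪 h𝒪.alg (h𝒪.mem true) (h𝒪.mem false)) ?_
  · cases b
    · refine ⟨max C ‖c‖, fun w y => ?_⟩
      have hw : 1 ≤ ‖w.v‖ := w.2
      have k1 : 1 ≤ 1 + Real.log ‖w.v‖ := le_add_of_nonneg_right (Real.log_nonneg hw)
      have k2 : 0 ≤ max C ‖c‖ := le_max_of_le_left h0
      have k3 : max C ‖c‖ ≤ Real.exp (max C ‖c‖ * (1 + Real.log ‖w.v‖)) :=
        (le_mul_of_one_le_right k2 k1).trans ((le_add_of_nonneg_right zero_le_one).trans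
          (Real.add_one_le_exp _))
      have k4 := (nev K' Rad.out).nr_nonneg w (γ.ι y)
      refine le_trans ?_ (mul_le_mul_of_nonneg_right k3 k4)
      rw [cond_false, h4]
      refine (NevA_nr_sub _ _ _ _).trans (max_le ((h2 y w).trans ?_) ?_)
      · exact mul_le_mul_of_nonneg_right (le_max_left _ _) k4
      · rw [Nev.nr_mul, Nev.nr_alg]
        exact mul_le_mul (le_max_right _ _) (Nev.nr_D _ _ _) (Nev.nr_nonneg _ _ _) k2
    · exact γ.grow ξ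
  · refine Set.finite_empty.subset fun z hz => ?_
    have k := γ.preV (fun _ : Unit => ξ) (fun _ => hξ) z
    have k1 : γ.ι x ∈ (nev K' Rad.out).regV z := h _ k.alg (k.mem ()) fun y hy => by
      change γ.ι (Δ.Dt y) ∈ (nev K' Rad.out).regV z
      rw [h4]
      exact sub_mem (h3 y z hy) (mul_mem (Nev.regV_alg _ z _) (Nev.regV_D _ hy))
    exact absurd ((nev K' Rad.out).mem_regV.1 k1) (not_le.2 hz)

end Pool.Agent.Work.MP_e120ef_ag.H.CS
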