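import Pool.Agent.Work.MP_e120ef_ag.H.Den
import Pool.Agent.Work.MP_e120ef_ag.C.ArcX
import Pool.Agent.Work.MP_e120ef_ag.C.BMI

attribute [-instance] Subalgebra.normedCommRing Subalgebra.seminormedCommRing
  Subalgebra.seminormedRing Subalgebra.normedRing
  Localization.subalgebra.instIsFractionRingSubtypeMemSubalgebra
attribute [local instance 2000] RingHomClass.toAddMonoidHomClass AddMonoidHomClass.toAddHomClass
  RingHom.instRingHomClass AlgHomClass.toRingHomClass IsDomain.to_noZeroDivisors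
  IsDomain.toNontrivial NeZero.one RingHomClass.toMonoidHomClass MonoidHomClass.toMulHomClass
  RingHomClass.toMonoidWithZeroHomClass AddMonoidHomClass.toZeroHomClass MonoidHomClass.toOneHomClass
attribute [-instance] instCharZeroOfIsSemireal AlgHom.instContinuousLinearMapClassOfAlgHomClass
  RingHomClass.toLinearMapClassRat RingHomClass.toLinearMapClassNNRat NumberField.to_charZero

-- merged part: Pool.Agent.Work.MP_e120ef_ag.C.Ch
section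
/-!
# The arithmetic derivative in the charts

Plans.  `TVp.two`: `d = ![d₀, d₁]`, `Matrix.det_fin_two`.  `exists_gauss`: the ring `{x | ‖τ x‖ ≤ 1}`.
`lhat_DF`: as `lhat_pdF` (`H/HC.lean`) with `exists_DC` over `k`, `L = ⊥`, `d = Δ.D₁`: `coef (lT (DT F)) m = δ (coef (lT F) m)` (`Gauss_coef`, `lc_mul`, `lc_of_not`, `line_chain` with `c = 0`, `DF_X`, `DF_alg`), so `ℓ (DF x) = 𝒟 (ℓ x)`.
`chart_bound`: `tl_bound` gives `C₀`; choose `a : K`, `a ≠ 0`, `‖a‖ * C₀ ≤ 1`, and put `C = ‖a‖⁻¹ ^ m`.  `TVp.two` for the Gauss ring and the derivations `(a • tl N κ).restrictScalars k`, `DF hD` gives `‖τ x‖ ≤ C` (`τ_tl`, `D₁_τ`, `D₁_le`); `TVp.two` for the rings `(regV z).comap ℓ` (`exists_lhat`, `lhat_preV`, `lhat_DF`) and `max_out` as in `max_disc` bound the value at the centre by `gN a / gN b = ‖τ x‖`.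
`Ch.D_κ`: `MI.der_zero` for `x ↦ D₁ (κ x) - κ (Dt x) - ∑ l, D₁ (κ (J (z l))) * κ (pd l x)`; on `E a` this is `ev_chainD` (`κ_E`, `pd_E`, `Dt_E`; `D₁ (algebraMap c)` from `DF_alg`).
`Ch.j_eq`: apply the injective map `τ`; `κ_J`, `κ_Φ`, `τ_tl`, `κ_hat`, `D₁_τ`, `D_κ`; the correction terms cancel by `hmin`.
-/

open MvPowerSeries

namespace Pool.Agent.Work.MP_e120ef_ag.H.CS

theorem TVp.two {k Y : Type} [Field k] [Field Y] [Algebra k Y] {s : Fin 2 → Y} {m : ℕ} {h : Y}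
    (H : TVp k s m h) {N : Type} [Field N] [Algebra k N] (χ : Y →+* N) (𝒪 : ValuationSubring N)
    (d₀ d₁ : Derivation k N N) (hχ : ∀ c, χ (algebraMap k Y c) = algebraMap k N c)
    (hk : ∀ c, algebraMap k N c ∈ 𝒪) (h₀ : ∀ x ∈ 𝒪, d₀ x ∈ 𝒪) (h₁ : ∀ x ∈ 𝒪, d₁ x ∈ 𝒪) :
    χ h * (d₀ (χ (s 0)) * d₁ (χ (s 1)) - d₁ (χ (s 0)) * d₀ (χ (s 1))) ^ m ∈ 𝒪 := by
  have h2 := H N χ 𝒪 ![d₀, d₁] hχ hk fun l y hy => by
    fin_cases l
    · exact h₀ _ hy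
    · exact h₁ _ hy
  rwa [Matrix.det_fin_two] at h2

variable {k K : Type} [Field k] [CharZero k] [NontriviallyNormedField K] [IsUltrametricDist K]
  [CompleteSpace K] [IsAlgClosed K] [CharZero K] [Algebra k K] {F : Type} [Field F] [Algebra K F]
  {B : Subalgebra K F} {n g : ℕ} {𝒩 : ND B n} {M : Type} [Field M] [Algebra K M] [Algebra k M]
  [IsScalarTower k K M] {K₁ : Type} [NontriviallyNormedField K₁] [IsUltrametricDist K₁]
  [CompleteSpace K₁] [NormedAlgebra K K₁] [Algebra k K₁] [IsScalarTower k K K₁] {Γ : GD K n K₁}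
  {𝓜 : MI 𝒩 M} {K' : Type} [NontriviallyNormedField K'] [IsUltrametricDist K'] [CompleteSpace K']
  [IsAlgClosed K'] [CharZero K'] [NormedAlgebra K K'] [NormedAlgebra K₁ K'] [IsScalarTower K K₁ K']
  [Algebra k K'] [IsScalarTower k K₁ K'] {D : Derivation k K K} {hD : ∀ x, ‖D x‖ ≤ ‖x‖}
  (Δ : DD Γ 𝓜 K' hD) {Y : Type} [Field Y] [Algebra k Y]

/-- the value at the centre is at most `C` -/
def CB (x : FT K n) (C : ℝ) : Prop :=
  ∀ a b : T K n, constantCoeff b.1 ≠ 0 → x = imT a / imT b →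
    ‖constantCoeff a.1 / constantCoeff b.1‖ ≤ C

variable (Γ) in
theorem exists_gauss : ∃ 𝒪 : ValuationSubring (FT K n), ∀ x, x ∈ 𝒪 ↔ ‖Γ.τ x‖ ≤ 1 := by
  refine ⟨⟨⟨⟨⟨⟨{x | ‖Γ.τ x‖ ≤ 1}, fun {a b} ha hb => ?_⟩, ?_⟩, fun {a b} ha hb => ?_, ?_⟩,
    fun {a} ha => ?_⟩, fun x => ?_⟩, fun x => Iff.rfl⟩
  · change ‖Γ.τ (a * b)‖ ≤ 1
    rw [map_mul, norm_mul]
    exact mul_le_one₀ ha (norm_nonneg _) hb
  · change ‖Γ.τ 1‖ ≤ 1
    rw [map_one, norm_one]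
  · change ‖Γ.τ (a + b)‖ ≤ 1
    rw [map_add]
    exact (IsUltrametricDist.norm_add_le_max _ _).trans (max_le ha hb)
  · change ‖Γ.τ 0‖ ≤ 1
    rw [map_zero, norm_zero]
    exact zero_le_one
  · change ‖Γ.τ (-a)‖ ≤ 1
    rwa [map_neg, norm_neg]
  · change ‖Γ.τ x‖ ≤ 1 ∨ ‖Γ.τ x⁻¹‖ ≤ 1
    rw [map_inv₀, norm_inv]
    exact (le_total _ _).imp_right inv_le_one_of_one_le₀

theorem Ch_alg (c : K) : Δ.D₁ (algebraMap K K₁ c) = algebraMap K K₁ (D c) := by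
  rw [← Γ.τ.commutes, Δ.D₁_τ, DF_alg, Γ.τ.commutes]

theorem Ch_coef (F : T K n) (m : ℤ) :
    coef (Γ.lT K' (DT hD F)) m = Δ.δ (coef (Γ.lT K' F) m) := by
  simp only [Γ.Gauss_coef, DT_val]
  by_cases h : ∃ d : ℕ, m = -1 * d
  · obtain ⟨d, rfl⟩ := h
    rw [lc_mul _ _ (by decide), lc_mul _ _ (by decide),
      line_chain D Δ.δ (fun c => ?_) _ 0 fun l => ?_, zero_mul, zero_mul, add_zero]
    · rw [IsScalarTower.algebraMap_apply K K₁ K', Δ.δ_alg, Ch_alg,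
        ← IsScalarTower.algebraMap_apply]
    · rw [zero_mul, GD.w', Δ.δ_alg, GD.w, GD.t_apply, Δ.D₁_τ, DF_X, map_zero, map_zero]
  · rw [lc_of_not _ _ fun d hd => h ⟨d, hd⟩, lc_of_not _ _ fun d hd => h ⟨d, hd⟩, map_zero]

include Δ in
theorem lhat_DF {ℓ : FT K n →ₐ[K] MM K' Rad.out} (hℓ : ∀ F, ℓ (imT F) = im (Γ.lT K' F))
    (z : Pt1 K' Rad.out) {x : FT K n} (hx : ℓ x ∈ (nev K' Rad.out).regV z) :
    ℓ (DF (n := n) hD x) ∈ (nev K' Rad.out).regV z := by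
  have hd : ∀ x, ‖Δ.D₁ x‖ ≤ 1 * ‖x‖ := by simpa using Δ.D₁_le
  obtain ⟨𝒟, C, -, h1, -, h3⟩ :=
    exists_DC Rad.out (⊥ : IntermediateField K₁ K') Δ.D₁ hd Δ.δ Δ.δ_alg
  have key : ∀ F : T K n, im (Γ.lT K' (DT hD F)) = 𝒟 (im (Γ.lT K' F)) := fun F =>
    (h1 _ _ (HC_mem Γ K' ⊥ F) (Ch_coef Δ F)).symm
  obtain ⟨a, b, -, rfl⟩ := FT_rep x
  have hQ : ℓ (imT a / imT b) ∈ QL k Rad.out (⊥ : IntermediateField K₁ K') := by
    rw [map_div₀, hℓ, hℓ]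
    exact div_mem (im_mem_QL (HC_mem Γ K' ⊥ a)) (im_mem_QL (HC_mem Γ K' ⊥ b))
  have e : ℓ (DF (n := n) hD (imT a / imT b)) = 𝒟 (ℓ (imT a / imT b)) := by
    rw [map_div₀ ℓ, hℓ, hℓ, Derivation.leibniz_div, Derivation.leibniz_div, DF_im, DF_im]
    simp only [smul_eq_mul, map_mul, map_sub, map_pow, map_inv₀, hℓ, key]
  rw [e]
  exact h3 _ hQ z hx

include Δ in
theorem chart_bound (hk : ∀ c : k, ‖algebraMap k K c‖ ≤ 1) (N : Fin g → Fin n → T K n) (κ : Fin g)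
    (m : ℕ) : ∃ C : ℝ, ∀ (χ : Y →+* FT K n) (s : Fin 2 → Y) (h : Y),
      (∀ c, χ (algebraMap k Y c) = algebraMap k _ c) → TVp k s m h →
      CB (χ h * (tl N κ (χ (s 0)) * DF (n := n) hD (χ (s 1)) - DF (n := n) hD (χ (s 0)) * tl N κ (χ (s 1))) ^ m) C := by
  obtain ⟨C₀, h0, hC⟩ := tl_bound Γ N κ
  obtain ⟨a, ha0, ha⟩ := NormedField.exists_norm_lt K (show 0 < (C₀ + 1)⁻¹ by positivity)
  have ha1 : ‖a‖ * C₀ ≤ 1 := by
    rw [inv_eq_one_div, lt_div_iff₀ (by positivity)] at ha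
    nlinarith
  obtain ⟨𝒪, h𝒪⟩ := exists_gauss Γ
  obtain ⟨ℓ, hℓ⟩ := exists_lhat Γ K'
  refine ⟨‖a‖⁻¹ ^ m, fun χ s h hχ H α β hβ e => ?_⟩
  have h1 := H.two χ 𝒪 ((a • tl N κ).restrictScalars k) (DF (n := n) hD) hχ (fun c => by
      rw [h𝒪, IsScalarTower.algebraMap_apply k K (FT K n), Γ.τ.commutes, norm_algebraMap']
      exact hk c)
    (fun x hx => by
      rw [h𝒪] at hx ⊢
      rw [Derivation.restrictScalars_apply, Derivation.smul_apply, map_smul, norm_smul, τ_tl]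
      calc _ ≤ ‖a‖ * (C₀ * 1) := mul_le_mul_of_nonneg_left ((hC _).trans
            (mul_le_mul_of_nonneg_left hx h0)) (norm_nonneg _)
        _ ≤ 1 := by rwa [mul_one])
    fun x hx => by
      rw [h𝒪] at hx ⊢
      rw [← Δ.D₁_τ]
      exact (Δ.D₁_le _).trans hx
  simp only [Derivation.restrictScalars_apply, Derivation.smul_apply] at h1
  rw [smul_mul_assoc, mul_smul_comm, ← smul_sub, smul_pow, mul_smul_comm, e, h𝒪, map_smul,
    norm_smul, map_div₀, norm_div, Γ.norm_τ, Γ.norm_τ, norm_pow] at h1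
  have h2 := max_out (a := Γ.lT K' α) (b := Γ.lT K' β) (fun m hm => Γ.coef_lT_pos K' α hm)
    (fun m hm => Γ.coef_lT_pos K' β hm) (by
      rw [Γ.coef_lT_zero]
      exact (map_ne_zero _).2 hβ) fun z => by
      obtain ⟨p1, p2⟩ := lhat_preV Γ hℓ N z
      have h3 := H.two χ (((nev K' Rad.out).regV z).comap ℓ.toRingHom)
        ((tl N κ).restrictScalars k) (DF (n := n) hD) hχ (fun c => by
          rw [IsScalarTower.algebraMap_apply k K (FT K n)]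
          exact p1 _) (p2 κ) fun x hx => lhat_DF Δ hℓ z hx
      simp only [Derivation.restrictScalars_apply] at h3
      rw [e] at h3
      have h4 : ℓ (imT α / imT β) ∈ (nev K' Rad.out).regV z := h3
      rwa [map_div₀, hℓ, hℓ] at h4
  rw [Γ.coef_lT_zero, Γ.coef_lT_zero, Γ.gn_lT, Γ.gn_lT, ← map_div₀, norm_algebraMap'] at h2
  refine h2.trans ?_
  rw [inv_pow, inv_eq_one_div, le_div_iff₀' (pow_pos ha0 m)]
  exact h1

variable (Γ 𝓜) in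
/-- a chart -/
structure Ch (Φ : Y →+* M) (ξ : Fin g → Derivation K F F) (N : Fin g → Fin n → T K n) where
  κ : M →ₐ[K] K₁
  χ : Y →+* FT K n
  j : F →ₐ[K] FT K n
  κ_Φ : ∀ y, κ (Φ y) = Γ.τ (χ y)
  κ_J : ∀ a, κ (𝓜.J a) = Γ.τ (j a)
  κ_hat : ∀ i x, κ (𝓜.hat (ξ i) x) = ∑ l, Γ.t (N i l) * Γ.d l (κ x)
  κ_E : ∀ b, κ (𝓜.E b) = evE (fun l => κ (𝓜.J (𝒩.z l))) b

variable {Φ : Y →+* M} {ξ : Fin g → Derivation K F F} {N : Fin g → Fin n → T K n}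
  (c : Ch Γ 𝓜 Φ ξ N)

theorem Ch.D_κ (x : M) : Δ.D₁ (c.κ x) =
    c.κ (Δ.Dt x) + ∑ l, Δ.D₁ (c.κ (𝓜.J (𝒩.z l))) * c.κ (𝓜.pd l x) := by
  refine sub_eq_zero.mp (𝓜.der_zero c.κ
    (AddMonoidHom.mk' (fun y => Δ.D₁ (c.κ y) - (c.κ (Δ.Dt y) +
      ∑ l, Δ.D₁ (c.κ (𝓜.J (𝒩.z l))) * c.κ (𝓜.pd l y))) fun a b => ?_)
    (fun a b => ?_) (fun a => ?_) x)
  · simp only [map_add, mul_add, Finset.sum_add_distrib]
    ring
  · simp only [AddMonoidHom.mk'_apply, map_mul, Derivation.leibniz, smul_eq_mul, map_add, mul_add,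
      Finset.sum_add_distrib, mul_sub, Finset.mul_sum, mul_left_comm (Δ.D₁ _)]
    ring
  · simp only [AddMonoidHom.mk'_apply, MI.pd_E, Δ.Dt_E, c.κ_E]
    rw [ev_chainD hD Δ.D₁ (C := 1) (by simpa using Δ.D₁_le) (Ch_alg Δ), sub_eq_zero]
    simp only [mul_comm]

theorem Ch.j_eq {u v h : Y} {κ : Fin g} {m : ℕ} {r : F}
    (hmin : ∀ l, 𝓜.hat (ξ κ) (Φ u) * 𝓜.pd l (Φ v) = 𝓜.pd l (Φ u) * 𝓜.hat (ξ κ) (Φ v))
    (hr : Φ h * (𝓜.hat (ξ κ) (Φ u) * Δ.Dt (Φ v) - Δ.Dt (Φ u) * 𝓜.hat (ξ κ) (Φ v)) ^ m = 𝓜.J r) :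
    c.j r = c.χ h * (tl N κ (c.χ u) * DF (n := n) hD (c.χ v) - DF (n := n) hD (c.χ u) * tl N κ (c.χ v)) ^ m := by
  refine Γ.τ.toRingHom.injective ?_
  change Γ.τ _ = Γ.τ _
  have e : ∑ l, Δ.D₁ (c.κ (𝓜.J (𝒩.z l))) * c.κ (𝓜.pd l (Φ u)) * c.κ (𝓜.hat (ξ κ) (Φ v)) =
      ∑ l, c.κ (𝓜.hat (ξ κ) (Φ u)) * (Δ.D₁ (c.κ (𝓜.J (𝒩.z l))) * c.κ (𝓜.pd l (Φ v))) :=
    Finset.sum_congr rfl fun l _ => by
      rw [mul_left_comm, mul_assoc, ← map_mul c.κ, ← map_mul c.κ, hmin]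
  rw [← c.κ_J, ← hr]
  simp only [map_mul, map_pow, map_sub, τ_tl, ← Δ.D₁_τ, ← c.κ_Φ, ← c.κ_hat]
  rw [c.D_κ Δ (Φ u), c.D_κ Δ (Φ v), mul_add, add_mul, Finset.sum_mul, Finset.mul_sum, e,
    add_sub_add_right_eq_sub]

end Pool.Agent.Work.MP_e120ef_ag.H.CS
end

-- merged part: Pool.Agent.Work.MP_e120ef_ag.C.BCh
section
/-!
# Extension of the ground field: charts

Plans.  `indep_dual`: the polynomials `P` with `aeval ζ P = 0` are stable under `pderiv` (`EntD_chain`); apply `ent_zero_of_stable` to their images by `toE` at the point `τ ζ` (`evE_toE`, `pdE_toE`, `toE_inj`).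
`chart_tl`: apply the injective map `τ`; `κ_J`, `hat_J`, `κ_hat`, `τ_tl`.
`chart_base`: put `N' i l = bT Kh (N i l)`, `j₁ = (bF Kh).comp c.j`.  With `C` from `𝓜.pd_hat` the derivations `∑ i, j₁ (C l i) • tl N' i` are dual to `j₁ (z l)` (`bF_tl`, `chart_tl`), so `indep_dual` and `BC.lift` give `j'`.  `j' (ξ' i x) = tl N' i (j' x)` by `der_along b.𝒩'.tb`.
With `d i = ∑ l, Γ'.t (N' i l) • Γ'.d l` one has `GP ξ' (Γ'.τ.comp j') d` as in `Charts_gp` (`BC.span`, `tl_bound`, `Charts_d`, `τ_tl`); `exists_kap 𝓜'` gives `κ'`.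
Make `K₁'` a normed `K`-algebra through `Kh` (`NormedAlgebra.restrictScalars` or `RingHom.toAlgebra`).  Then `κ₁ = κ' ∘ μ`, `j₂ = τ' ∘ bF ∘ c.j`, `d` restricted to `K` satisfy the hypotheses of `rep_ne`, `kap_phi` (`H/Rep.lean`) over `K` with `L = K₁'` (`BM.J`, `BM.E`, `evE_bE`, `β_z`).
Continue as in `Charts_mk` (`H/Charts.lean`): `exists_repOn` on `c.V`, `c.reg`, `Γ'.evT (bE Kh a) (fun i => bT Kh (β i))`; so `κ' (μ (φ y))` is in the range of `Γ'.τ`; `Charts_fac` over `K`.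
-/

open CategoryTheory AlgebraicGeometry

namespace Pool.Agent.Work.MP_e120ef_ag.H.CS

theorem indep_dual {Kh : Type} [NontriviallyNormedField Kh] [IsUltrametricDist Kh] [CharZero Kh]
    {N L : Type} [Field N] [Algebra Kh N] [NontriviallyNormedField L] [IsUltrametricDist L]
    [CompleteSpace L] [NormedAlgebra Kh L] (τ : N →ₐ[Kh] L) {n : ℕ} (ζ : Fin n → N)
    (d : Fin n → Derivation Kh N N) (h : ∀ l i, d l (ζ i) = if l = i then 1 else 0) :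
    AlgebraicIndependent Kh ζ := by
  refine algebraicIndependent_iff.2 fun Q hQ => toE_inj ?_
  rw [map_zero]
  refine ent_zero_of_stable (fun l => τ (ζ l))
    (S := {F | ∃ P, MvPolynomial.aeval ζ P = 0 ∧ F = toE P}) ?_ ?_ _ ⟨Q, hQ, rfl⟩
  · rintro _ ⟨P, hP, rfl⟩
    rw [evE_toE, ← MvPolynomial.comp_aeval_apply, hP, map_zero]
  · rintro _ ⟨P, hP, rfl⟩ l
    refine ⟨_, ?_, pdE_toE l P⟩
    have h1 := EntD_chain (d l) ζ P
    rw [hP, map_zero] at h1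
    simpa only [h, mul_ite, mul_one, mul_zero, Finset.sum_ite_eq, Finset.mem_univ, if_true]
      using h1.symm

theorem BCh_sum {k A ι : Type} [Field k] [Field A] [Algebra k A] [Fintype ι] (u : ι → A)
    (D : ι → Derivation k A A) (x : A) : (∑ i, u i • D i) x = ∑ i, u i * D i x := by
  have := congrFun (map_sum (Derivation.coeFnAddMonoidHom (R := k) (A := A) (M := A))
    (fun i => u i • D i) Finset.univ) x
  rw [Finset.sum_apply] at this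
  exact this

variable {K : Type} [NontriviallyNormedField K] [IsUltrametricDist K] [CompleteSpace K]
  [IsAlgClosed K] [CharZero K] {n g : ℕ} {K₁ : Type} [NontriviallyNormedField K₁]
  [IsUltrametricDist K₁] [CompleteSpace K₁] [NormedAlgebra K K₁] {Γ : GD K n K₁} {G X : Sch K}
  [GrpObj G] [IsIntegral G.left] [LocallyOfFiniteType G.hom] [IsIntegral X.left]
  {U : G.left.Opens} {𝒩 : ND (B G U) n} {M : Type} [Field M] [Algebra K M] {𝓜 : MI 𝒩 M}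
  {φ : Fn X →ₐ[K] M} {ξ : Fin g → Dr G} {N : Fin g → Fin n → T K n} {q : G.left}
  (c : Chart Γ 𝓜 φ ξ N q)

omit [CompleteSpace K] [IsAlgClosed K] [IsUltrametricDist K₁] [CompleteSpace K₁] [GrpObj G]
  [LocallyOfFiniteType G.hom] in
theorem chart_tl (i : Fin g) (a : Fn G) : c.j (ξ i a) = tl N i (c.j a) := by
  refine Γ.τ.toRingHom.injective ?_
  change Γ.τ _ = Γ.τ _
  rw [τ_tl, ← c.κ_J, ← c.κ_J, ← c.κ_hat, 𝓜.hat_J]

variable {Kh : Type} [NontriviallyNormedField Kh] [IsUltrametricDist Kh] [CompleteSpace Kh]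
  [CharZero Kh] [NormedAlgebra K Kh] {F' : Type} [Field F'] [Algebra Kh F'] [Algebra K F']
  [IsScalarTower K Kh F'] {b : BC Kh 𝒩 F'} {M' : Type} [Field M'] [Algebra Kh M'] [Algebra K M']
  [IsScalarTower K Kh M'] {𝓜' : MI b.𝒩' M'} {K₁' : Type} [NontriviallyNormedField K₁']
  [IsUltrametricDist K₁'] [CompleteSpace K₁'] [NormedAlgebra Kh K₁'] (Γ' : GD Kh n K₁')

theorem BCh_tl (i : Fin g) (a : Fn G) :
    bF (K := K) (n := n) Kh (c.j (ξ i a)) = tl (fun i l => bT Kh (N i l)) i (bF (K := K) (n := n) Kh (c.j a)) := by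
  rw [chart_tl, bF_tl]

include Γ' in
theorem BCh_j (hξ : IsGFrame ξ) {ξ' : Fin g → Derivation Kh F' F'}
    (hξ' : ∀ i a, ξ' i (b.β a) = b.β (ξ i a)) : ∃ j' : F' →ₐ[Kh] FT Kh n,
      (∀ a, j' (b.β a) = bF (K := K) (n := n) Kh (c.j a)) ∧
        ∀ i x, j' (ξ' i x) = tl (fun i l => bT Kh (N i l)) i (j' x) := by
  obtain ⟨C, hC, -⟩ := 𝓜.pd_hat ξ hξ.span'
  obtain ⟨j', hj⟩ := b.lift ((bF (K := K) (n := n) Kh).comp c.j) (indep_dual Γ'.τ _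
    (fun l => ∑ k, bF (K := K) (n := n) Kh (c.j (C l k)) • tl (fun i l => bT Kh (N i l)) k) fun l i => by
      rw [BCh_sum]
      simp only [AlgHom.comp_apply, ← BCh_tl, ← map_mul, ← map_sum, hC]
      split_ifs <;> simp only [map_one, map_zero])
  refine ⟨j', hj, fun i x => sub_eq_zero.1 (der_along b.𝒩'.tb j'
    (j'.toLinearMap.comp (ξ' i).toLinearMap -
      (tl (fun i l => bT Kh (N i l)) i).toLinearMap.comp j'.toLinearMap)
    (fun a b => ?_) (fun l => ?_) x)⟩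
  · simp only [LinearMap.sub_apply, LinearMap.comp_apply, AlgHom.toLinearMap_apply,
      Derivation.coeFn_coe, map_mul, Derivation.leibniz, smul_eq_mul, map_add]
    ring
  · simp only [LinearMap.sub_apply, LinearMap.comp_apply, AlgHom.toLinearMap_apply,
      Derivation.coeFn_coe, ← b.β_z, hξ', hj, AlgHom.comp_apply, BCh_tl, sub_self]

theorem BCh_fac [NormedAlgebra K K₁'] [IsScalarTower K Kh K₁'] {f : G.left → X.left} (hf : Mero f)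
    (hU : IsAffineOpen U) (hg : gp G ∈ U) (hφ : 𝓜.IsPhi (HVf f U) φ) (hξ : IsGFrame ξ)
    {κ : M →ₐ[K] K₁'} (hJ : ∀ a, κ (𝓜.J a) = Γ'.τ (bF (K := K) (n := n) Kh (c.j a)))
    (hE : ∀ a, κ (𝓜.E a) = evE (fun l => κ (𝓜.J (𝒩.z l))) a) :
    ∃ χ : Fn X →ₐ[K] FT Kh n, ∀ y, κ (φ y) = Γ'.τ (χ y) := by
  obtain ⟨j, hj⟩ : ∃ j : Fn G →ₐ[K] K₁', ∀ a, j a = Γ'.τ (bF (K := K) (n := n) Kh (c.j a)) :=
    ⟨(Γ'.τ.restrictScalars K).comp ((bF (K := K) (n := n) Kh).comp c.j), fun _ => rfl⟩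
  have hGP : GP ξ j fun k => (∑ l, Γ'.t (bT Kh (N k l)) • Γ'.d l).restrictScalars K := by
    refine ⟨hξ.span', fun k => ?_, fun k a => ?_⟩
    · obtain ⟨C, -, hC⟩ := tl_bound Γ' (fun i l => bT Kh (N i l)) k
      exact ⟨C, fun x => by rw [Derivation.restrictScalars_apply, BCh_sum]; exact hC x⟩
    · rw [Derivation.restrictScalars_apply, BCh_sum, hj, hj, BCh_tl, τ_tl]
  refine Charts_fac (Γ'.τ.restrictScalars K) (κ.comp φ) fun y => ?_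
  obtain ⟨r, s, a, a', h⟩ := exists_repOn hf c.aff (gp_mem c.mem) y
  choose β hβ _ using fun i => c.reg (s i) (s i).2
  obtain ⟨α, hα, -⟩ := Γ'.evT (bE Kh a) fun i => bT Kh (β i)
  obtain ⟨δ, hδ, -⟩ := Γ'.evT (bE Kh a') fun i => bT Kh (β i)
  have e1 : (fun i => Γ'.t (bT Kh (β i))) = fun i => j (s i) := by
    funext i
    rw [Γ'.t_apply, ← bF_im, ← hβ, hj]
  rw [e1, evE_bE] at hα hδ
  have h0 := rep_ne hGP c.aff (gp_mem c.mem) h
  have h1 := kap_phi 𝓜 hf hU hg hφ hGP (fun x => (hJ x).trans (hj x).symm) hE c.aff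
    (gp_mem c.mem) h
  rw [← hδ] at h0 h1
  rw [← hα] at h1
  refine ⟨imT α / imT δ, ?_⟩
  rw [AlgHom.restrictScalars_apply, map_div₀, ← Γ'.t_apply, ← Γ'.t_apply, eq_div_iff h0]
  exact h1

theorem chart_base {f : G.left → X.left} (hf : Mero f) (hU : IsAffineOpen U) (hg : gp G ∈ U)
    (hφ : 𝓜.IsPhi (HVf f U) φ) (hξ : IsGFrame ξ) {μ : M →ₐ[K] M'} (hμ : BM 𝓜 𝓜' μ)
    {ξ' : Fin g → Derivation Kh F' F'} (hξ' : ∀ i a, ξ' i (b.β a) = b.β (ξ i a)) {Y : Type}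
    [Field Y] (π : Y →+* Fn X) :
    ∃ c' : Ch Γ' 𝓜' (μ.toRingHom.comp (φ.toRingHom.comp π)) ξ' fun i l => bT Kh (N i l),
      ∀ a, c'.j (b.β a) = bF (K := K) (n := n) Kh (c.j a) := by
  obtain ⟨j', hj, hj'⟩ := BCh_j c Γ' hξ hξ'
  have hGP : GP ξ' (Γ'.τ.comp j') fun k => ∑ l, Γ'.t (bT Kh (N k l)) • Γ'.d l := by
    refine ⟨b.span hξ' hξ.span', fun k => ?_, fun k a => ?_⟩
    · obtain ⟨C, -, hC⟩ := tl_bound Γ' (fun i l => bT Kh (N i l)) k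
      exact ⟨C, fun x => by rw [BCh_sum]; exact hC x⟩
    · rw [BCh_sum, AlgHom.comp_apply, AlgHom.comp_apply, hj', τ_tl]
  obtain ⟨κ, hJ, hE, hh⟩ := exists_kap 𝓜' hGP
  let _ : NormedAlgebra K K₁' := NormedAlgebra.restrictScalars K Kh K₁'
  have : IsScalarTower K Kh K₁' := IsScalarTower.of_algebraMap_eq fun _ => rfl
  obtain ⟨χ, hχ⟩ := BCh_fac c Γ' hf hU hg hφ hξ (κ := (κ.restrictScalars K).comp μ)
    (fun a => by
      rw [AlgHom.comp_apply, AlgHom.restrictScalars_apply, hμ.J, hJ, AlgHom.comp_apply, hj])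
    fun a => by
      simp only [AlgHom.comp_apply, AlgHom.restrictScalars_apply, hμ.J, hμ.E, b.β_z]
      rw [hE, evE_bE]
  exact ⟨⟨κ, χ.toRingHom.comp π, j', fun y => hχ (π y), hJ,
    fun k x => (hh k x).trans (BCh_sum _ _ _), hE⟩, hj⟩

end Pool.Agent.Work.MP_e120ef_ag.H.CS
end
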